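import Mathlib

set_option autoImplicit false
open MeasureTheory Set Filter Topology Metric
open scoped ENNReal NNReal ContDiff RealInnerProductSpace

namespace Pool.Agent.W791.OP

/-- `ℝᵈ` -/
abbrev E (d : ℕ) : Type := EuclideanSpace ℝ (Fin d)

/-- `G` is the weak gradient of `u` on `ℝᵈ` -/
def WG {d : ℕ} (u : E d → ℝ) (G : E d → E d) : Prop :=
  ∀ φ : E d → ℝ, ContDiff ℝ ∞ φ → HasCompactSupport φ → ∀ v : E d,
    ∫ x, u x * fderiv ℝ φ x v = -∫ x, ⟪G x, v⟫ * φ x

variable {d : ℕ}

theorem tst_memLp {φ : E d → ℝ} (hφ : Continuous φ) (hc : HasCompactSupport φ) (p : ℝ≥0∞) :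
    MemLp φ p volume := hφ.memLp_of_hasCompactSupport hc

theorem memLp_inner {G : E d → E d} (hG : MemLp G 2 volume) (v : E d) :
    MemLp (fun x => ⟪G x, v⟫) 2 volume := by
  have := hG.inner_const (𝕜 := ℝ) v
  exact this

theorem fderiv_tst {φ : E d → ℝ} (hφ : ContDiff ℝ ∞ φ) (v : E d) :
    ContDiff ℝ ∞ (fun x => fderiv ℝ φ x v) := by
  have h1 : ContDiff ℝ ∞ (fderiv ℝ φ) := hφ.fderiv_right (m := ∞) (by simp)
  exact h1.clm_apply contDiff_const

theorem fderiv_tst_supp {φ : E d → ℝ} (hc : HasCompactSupport φ) (v : E d) :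
    HasCompactSupport (fun x => fderiv ℝ φ x v) := hc.fderiv_apply (𝕜 := ℝ) v

/-- derivative of the pairing with a moving test function -/
theorem hasDerivAt_pair {u : E d → ℝ} {G : E d → E d} (hu : MemLp u 2 volume)
    (h : WG u G) {φ : E d → ℝ} (hφ : ContDiff ℝ ∞ φ) (hc : HasCompactSupport φ) (v : E d)
    (t : ℝ) :
    HasDerivAt (fun t : ℝ => ∫ y, u y * φ (y - t • v)) (∫ y, ⟪G y, v⟫ * φ (y - t • v)) t := by
  obtain ⟨R, hR⟩ := hc.isBounded.subset_closedBall (0 : E d)
  obtain ⟨K, hK⟩ := (fderiv_tst_supp hc v).exists_bound_of_continuous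
    (fderiv_tst hφ v).continuous
  have hint : Integrable (fun y => ‖u y‖ * (K * (closedBall (0 : E d) (R + (|t| + 1) * ‖v‖)).indicator 1 y)) volume := by
    have h1 : MemLp (fun y => K * (closedBall (0 : E d) (R + (|t| + 1) * ‖v‖)).indicator (1 : E d → ℝ) y) 2 volume := by
      apply MemLp.const_mul
      exact memLp_indicator_const 2 measurableSet_closedBall (1 : ℝ)
        (Or.inr measure_closedBall_lt_top.ne)
    exact hu.norm.integrable_mul h1
  have key := hasDerivAt_integral_of_dominated_loc_of_deriv_le (μ := volume)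
    (F := fun (t : ℝ) y => u y * φ (y - t • v))
    (F' := fun (t : ℝ) y => u y * (-fderiv ℝ φ (y - t • v) v))
    (x₀ := t) (s := ball t 1)
    (bound := fun y => ‖u y‖ * (K * (closedBall (0 : E d) (R + (|t| + 1) * ‖v‖)).indicator 1 y))
    (ball_mem_nhds t one_pos) ?_ ?_ ?_ ?_ hint ?_
  · have e : ∫ y, u y * (-fderiv ℝ φ (y - t • v) v) = ∫ y, ⟪G y, v⟫ * φ (y - t • v) := by
      have h1 := h (fun y => φ (y - t • v)) (hφ.comp (contDiff_id.sub contDiff_const))
        (by
          have := hc.comp_homeomorph (Homeomorph.subRight (t • v))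
          exact this) v
      have h2 : ∀ y, fderiv ℝ (fun y => φ (y - t • v)) y v = fderiv ℝ φ (y - t • v) v := by
        intro y
        rw [fderiv_comp_sub]
      simp only [h2] at h1
      simp only [mul_neg, integral_neg]
      rw [h1, neg_neg]
    rw [← e]
    exact key.2
  · refine Eventually.of_forall fun s => ?_
    exact hu.1.mul ((hφ.continuous.comp (continuous_id.sub continuous_const)).aestronglyMeasurable)
  · have h1 : MemLp (fun y => φ (y - t • v)) 2 volume :=
      tst_memLp (hφ.continuous.comp (continuous_id.sub continuous_const))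
        (hc.comp_homeomorph (Homeomorph.subRight (t • v))) 2
    exact hu.integrable_mul h1
  · refine hu.1.mul ?_
    exact (((fderiv_tst hφ v).continuous.comp
      (continuous_id.sub continuous_const)).neg).aestronglyMeasurable
  · refine Eventually.of_forall fun y s hs => ?_
    rw [norm_mul, norm_neg]
    refine mul_le_mul_of_nonneg_left ?_ (norm_nonneg _)
    by_cases hy : y ∈ closedBall (0 : E d) (R + (|t| + 1) * ‖v‖)
    · rw [indicator_of_mem hy]
      simpa using hK (y - s • v)
    · rw [indicator_of_notMem hy, mul_zero]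
      have h3 : y - s • v ∉ tsupport φ := by
        intro hmem
        apply hy
        have h4 := hR hmem
        rw [mem_closedBall_zero_iff] at h4 ⊢
        have h5 : ‖y‖ ≤ ‖y - s • v‖ + ‖s • v‖ := by
          simpa using norm_add_le (y - s • v) (s • v)
        have h6 : |s| ≤ |t| + 1 := by
          rw [mem_ball, Real.dist_eq] at hs
          have := abs_sub_abs_le_abs_sub s t
          linarith
        rw [norm_smul, Real.norm_eq_abs] at h5
        nlinarith [norm_nonneg v, mul_le_mul_of_nonneg_right h6 (norm_nonneg v)]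
      rw [fderiv_of_notMem_tsupport (𝕜 := ℝ) h3]
      simp
  · refine Eventually.of_forall fun y s _ => ?_
    have h3 : HasDerivAt (fun s : ℝ => y - s • v) (-v) s := by
      simpa using ((hasDerivAt_id s).smul_const v).const_sub y
    have h4 : HasFDerivAt φ (fderiv ℝ φ (y - s • v)) (y - s • v) :=
      ((hφ.differentiable (by simp)) _).hasFDerivAt
    have h5 := (h4.comp_hasDerivAt s h3).const_mul (u y)
    simpa using h5

theorem abs_integral_mul_le {f g : E d → ℝ} (hf : MemLp f 2 volume) (hg : MemLp g 2 volume) :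
    |∫ x, f x * g x| ≤ (eLpNorm f 2 volume).toReal * (eLpNorm g 2 volume).toReal := by
  have h1 := real_inner_le_norm (hf.toLp f) (hg.toLp g)
  have h2 := abs_real_inner_le_norm (hf.toLp f) (hg.toLp g)
  rw [Lp.norm_toLp, Lp.norm_toLp] at h2
  have h3 : ⟪hf.toLp f, hg.toLp g⟫ = ∫ x, f x * g x := by
    rw [L2.inner_def]
    apply integral_congr_ae
    filter_upwards [hf.coeFn_toLp, hg.coeFn_toLp] with x h4 h5
    rw [h4, h5]
    simp [mul_comm]
  rw [h3] at h2
  exact h2

theorem transl_weak {u : E d → ℝ} {G : E d → E d} (hu : MemLp u 2 volume)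
    (hG : MemLp G 2 volume) (h : WG u G) {φ : E d → ℝ} (hφ : ContDiff ℝ ∞ φ)
    (hc : HasCompactSupport φ) (v : E d) :
    |∫ x, (u (x + v) - u x) * φ x| ≤
      ‖v‖ * (eLpNorm G 2 volume).toReal * (eLpNorm φ 2 volume).toReal := by
  set C : ℝ := ‖v‖ * (eLpNorm G 2 volume).toReal * (eLpNorm φ 2 volume).toReal with hC
  have hφ2 : MemLp φ 2 volume := tst_memLp hφ.continuous hc 2
  have htr : ∀ t : ℝ, MemLp (fun y => φ (y - t • v)) 2 volume := fun t =>
    hφ2.comp_measurePreserving (measurePreserving_sub_right volume (t • v))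
  have htn : ∀ t : ℝ, eLpNorm (fun y => φ (y - t • v)) 2 volume = eLpNorm φ 2 volume := fun t =>
    eLpNorm_comp_measurePreserving hφ2.1 (measurePreserving_sub_right volume (t • v))
  have hGv : (eLpNorm (fun x => ⟪G x, v⟫) 2 volume).toReal ≤
      ‖v‖ * (eLpNorm G 2 volume).toReal := by
    have h1 : eLpNorm (fun x => ⟪G x, v⟫) 2 volume ≤
        ENNReal.ofReal ‖v‖ * eLpNorm G 2 volume := by
      apply eLpNorm_le_mul_eLpNorm_of_ae_le_mul
      refine Eventually.of_forall fun x => ?_
      rw [mul_comm]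
      exact abs_real_inner_le_norm _ _
    have h2 := ENNReal.toReal_mono (ENNReal.mul_ne_top ENNReal.ofReal_ne_top hG.2.ne) h1
    rwa [ENNReal.toReal_mul, ENNReal.toReal_ofReal (norm_nonneg v)] at h2
  have hbound : ∀ t : ℝ, ‖∫ y, ⟪G y, v⟫ * φ (y - t • v)‖ ≤ C := by
    intro t
    have h1 := abs_integral_mul_le (memLp_inner hG v) (htr t)
    rw [htn t] at h1
    refine h1.trans ?_
    rw [hC]
    exact mul_le_mul_of_nonneg_right hGv ENNReal.toReal_nonneg
  have h1 := norm_image_sub_le_of_norm_deriv_le_segment_01' (f := fun t : ℝ => ∫ y, u y * φ (y - t • v))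
    (f' := fun t => ∫ y, ⟪G y, v⟫ * φ (y - t • v)) (C := C)
    (fun t _ => (hasDerivAt_pair hu h hφ hc v t).hasDerivWithinAt) (fun t _ => hbound t)
  simp only [one_smul, zero_smul, sub_zero] at h1
  have h2 : ∫ x, (u (x + v) - u x) * φ x = (∫ y, u y * φ (y - v)) - ∫ y, u y * φ y := by
    have h3 : ∫ y, u y * φ (y - v) = ∫ x, u (x + v) * φ x := by
      rw [← integral_add_right_eq_self (fun y => u y * φ (y - v)) v]
      simp
    rw [h3, ← integral_sub]
    · simp only [sub_mul]
    · exact (hu.comp_measurePreserving (measurePreserving_add_right volume v)).integrable_mul hφ2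
    · exact hu.integrable_mul hφ2
  rw [h2]
  exact h1

/-- duality with test functions -/
theorem norm_le_of_tst {f : E d → ℝ} (hf : MemLp f 2 volume) {C : ℝ} (hC : 0 ≤ C)
    (h : ∀ φ : E d → ℝ, ContDiff ℝ ∞ φ → HasCompactSupport φ →
      |∫ x, f x * φ x| ≤ C * (eLpNorm φ 2 volume).toReal) :
    (eLpNorm f 2 volume).toReal ≤ C := by
  have h1 : ∀ g : Lp ℝ 2 (volume : Measure (E d)), |⟪hf.toLp f, g⟫| ≤ C * ‖g‖ := by
    have hd := Lp.dense_hasCompactSupport_contDiff (F := ℝ) (E := E d) (μ := volume) (p := 2)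
      (by norm_num)
    intro g
    refine hd.induction (P := fun g => |⟪hf.toLp f, g⟫| ≤ C * ‖g‖) ?_ ?_ g
    · rintro g ⟨φ, hg, hc, hφ⟩
      have h2 := h φ hφ hc
      have h3 : ⟪hf.toLp f, g⟫ = ∫ x, f x * φ x := by
        rw [L2.inner_def]
        apply integral_congr_ae
        filter_upwards [hf.coeFn_toLp, hg] with x h4 h5
        rw [h4, h5]
        simp [mul_comm]
      rw [h3, Lp.norm_def, eLpNorm_congr_ae hg]
      exact h2
    · exact isClosed_le (continuous_const.inner continuous_id).abs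
        (continuous_const.mul continuous_norm)
  have h2 := h1 (hf.toLp f)
  rw [real_inner_self_eq_norm_sq, Lp.norm_toLp, abs_of_nonneg (sq_nonneg _)] at h2
  by_contra hcon
  push Not at hcon
  have h3 : 0 < (eLpNorm f 2 volume).toReal := lt_of_le_of_lt hC hcon
  nlinarith

/-- the translation estimate -/
theorem transl_le {u : E d → ℝ} {G : E d → E d} (hu : MemLp u 2 volume)
    (hG : MemLp G 2 volume) (h : WG u G) (v : E d) :
    (eLpNorm (fun x => u (x + v) - u x) 2 volume).toReal ≤
      ‖v‖ * (eLpNorm G 2 volume).toReal := by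
  apply norm_le_of_tst
  · exact (hu.comp_measurePreserving (measurePreserving_add_right volume v)).sub hu
  · positivity
  · intro φ hφ hc
    exact transl_weak hu hG h hφ hc v

end Pool.Agent.W791.OP
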