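import Pool.Agent.W791.OP.A

set_option autoImplicit false
open MeasureTheory Set Filter Topology Metric
open scoped ENNReal NNReal ContDiff RealInnerProductSpace

namespace Pool.Agent.W791.OP

variable {d : ℕ}

/-- the index of the cube of side `δ` containing `x` -/
noncomputable def idx (δ : ℝ) (x : E d) : Fin d → ℤ := fun i => ⌊x i / δ⌋

/-- the cube of side `δ` with index `z` -/
def cub (δ : ℝ) (z : Fin d → ℤ) : Set (E d) := {x | idx δ x = z}

theorem mem_cub (δ : ℝ) (hδ : 0 < δ) (z : Fin d → ℤ) (x : E d) :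
    x ∈ cub δ z ↔ ∀ i, δ * z i ≤ x i ∧ x i < δ * (z i + 1) := by
  unfold cub idx
  rw [mem_setOf_eq, funext_iff]
  refine forall_congr' fun i => ?_
  rw [Int.floor_eq_iff, le_div_iff₀ hδ, div_lt_iff₀ hδ]
  constructor
  · rintro ⟨h1, h2⟩; constructor <;> linarith
  · rintro ⟨h1, h2⟩; constructor <;> linarith

theorem cub_eq (δ : ℝ) (hδ : 0 < δ) (z : Fin d → ℤ) :
    cub δ z = (fun x : E d => (WithLp.ofLp x : Fin d → ℝ)) ⁻¹'
      (Set.pi univ fun i => Ico (δ * (z i : ℝ)) (δ * ((z i : ℝ) + 1))) := by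
  ext x
  rw [mem_cub δ hδ, mem_preimage, mem_univ_pi]
  rfl

theorem measurableSet_cub (δ : ℝ) (hδ : 0 < δ) (z : Fin d → ℤ) : MeasurableSet (cub δ z) := by
  rw [cub_eq δ hδ z]
  exact (PiLp.volume_preserving_ofLp (Fin d)).measurable
    (MeasurableSet.univ_pi fun i => measurableSet_Ico)

theorem volume_cub (δ : ℝ) (hδ : 0 < δ) (z : Fin d → ℤ) :
    volume (cub δ z) = ENNReal.ofReal (δ ^ d) := by
  rw [cub_eq δ hδ z, (PiLp.volume_preserving_ofLp (Fin d)).measure_preimage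
    (MeasurableSet.univ_pi fun i => measurableSet_Ico).nullMeasurableSet, volume_pi_pi]
  have : ∀ i, volume (Ico (δ * (z i : ℝ)) (δ * ((z i : ℝ) + 1))) = ENNReal.ofReal δ := by
    intro i
    rw [Real.volume_Ico]
    congr 1
    ring
  simp only [this, Finset.prod_const, Finset.card_univ, Fintype.card_fin]
  rw [ENNReal.ofReal_pow hδ.le]

/-- the box of half side `δ` -/
def bx (d : ℕ) (δ : ℝ) : Set (E d) := {x | ∀ i, |x i| ≤ δ}

theorem bx_eq (δ : ℝ) : bx d δ = (fun x : E d => (WithLp.ofLp x : Fin d → ℝ)) ⁻¹'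
      (Set.pi univ fun _ => Icc (-δ) δ) := by
  ext x
  rw [mem_preimage, mem_univ_pi]
  simp only [bx, mem_setOf_eq, mem_Icc, abs_le]

theorem measurableSet_bx (δ : ℝ) : MeasurableSet (bx d δ) := by
  rw [bx_eq δ]
  exact (PiLp.volume_preserving_ofLp (Fin d)).measurable
    (MeasurableSet.univ_pi fun i => measurableSet_Icc)

theorem volume_bx (δ : ℝ) (hδ : 0 < δ) :
    volume (bx d δ) = 2 ^ d * ENNReal.ofReal (δ ^ d) := by
  rw [bx_eq δ, (PiLp.volume_preserving_ofLp (Fin d)).measure_preimage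
    (MeasurableSet.univ_pi fun i => measurableSet_Icc).nullMeasurableSet, volume_pi_pi]
  simp only [Real.volume_Icc, Finset.prod_const, Finset.card_univ, Fintype.card_fin]
  have h1 : δ - -δ = 2 * δ := by ring
  rw [h1, ENNReal.ofReal_mul (by norm_num), mul_pow, ENNReal.ofReal_pow hδ.le]
  simp

theorem norm_le_of_mem_bx {δ : ℝ} (hδ : 0 ≤ δ) {x : E d} (hx : x ∈ bx d δ) :
    ‖x‖ ^ 2 ≤ d * δ ^ 2 := by
  rw [EuclideanSpace.norm_sq_eq]
  calc ∑ i, ‖x i‖ ^ 2 ≤ ∑ _i : Fin d, δ ^ 2 := by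
        refine Finset.sum_le_sum fun i _ => ?_
        have := hx i
        rw [Real.norm_eq_abs]
        exact pow_le_pow_left₀ (abs_nonneg _) this 2
    _ = d * δ ^ 2 := by simp

/-- the `L²` norm of a function -/
noncomputable def n2 {F : Type*} [NormedAddCommGroup F] (f : E d → F) : ℝ :=
  (eLpNorm f 2 volume).toReal

theorem n2_nonneg {F : Type*} [NormedAddCommGroup F] (f : E d → F) : 0 ≤ n2 f :=
  ENNReal.toReal_nonneg

theorem eLpNorm_sq {F : Type*} [NormedAddCommGroup F] (f : E d → F) :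
    eLpNorm f 2 volume ^ 2 = ∫⁻ x, ‖f x‖ₑ ^ 2 := by
  rw [eLpNorm_eq_lintegral_rpow_enorm_toReal (by norm_num) (by norm_num)]
  simp only [ENNReal.toReal_ofNat, ENNReal.rpow_ofNat]
  rw [← ENNReal.rpow_natCast, ← ENNReal.rpow_mul]
  norm_num

theorem lint_eq {F : Type*} [NormedAddCommGroup F] {f : E d → F} (hf : MemLp f 2 volume) :
    ∫⁻ x, ‖f x‖ₑ ^ 2 = ENNReal.ofReal (n2 f ^ 2) := by
  rw [← eLpNorm_sq, n2, ENNReal.ofReal_pow ENNReal.toReal_nonneg, ENNReal.ofReal_toReal hf.2.ne]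

theorem lint_sq_le (Q : Set (E d)) (g : E d → ℝ≥0∞) (hg : AEMeasurable g (volume.restrict Q)) :
    (∫⁻ a in Q, g a) ^ 2 ≤ volume Q * ∫⁻ a in Q, g a ^ 2 := by
  have h := ENNReal.lintegral_mul_le_Lp_mul_Lq (volume.restrict Q)
    Real.HolderConjugate.two_two hg (g := fun _ => 1) aemeasurable_const
  simp only [Pi.mul_apply, mul_one, lintegral_const, Measure.restrict_apply_univ,
    ENNReal.rpow_ofNat, one_pow, one_mul] at h
  calc (∫⁻ a in Q, g a) ^ 2 ≤ ((∫⁻ a in Q, g a ^ 2) ^ (1 / 2 : ℝ) * (volume Q) ^ (1 / 2 : ℝ)) ^ 2 := by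
        gcongr
    _ = volume Q * ∫⁻ a in Q, g a ^ 2 := by
        rw [mul_pow, ← ENNReal.rpow_natCast, ← ENNReal.rpow_mul, ← ENNReal.rpow_natCast,
          ← ENNReal.rpow_mul]
        norm_num
        rw [mul_comm]

/-- average over the cube containing the point -/
noncomputable def av (δ : ℝ) (w : E d → ℝ) (x : E d) : ℝ :=
  (δ ^ d)⁻¹ * ∫ y in cub δ (idx δ x), w y

theorem integrableOn_cub {δ : ℝ} (hδ : 0 < δ) {w : E d → ℝ} (hw : MemLp w 2 volume)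
    (z : Fin d → ℤ) : IntegrableOn w (cub δ z) := by
  have : IsFiniteMeasure (volume.restrict (cub δ z)) :=
    ⟨by rw [Measure.restrict_apply_univ, volume_cub δ hδ]; exact ENNReal.ofReal_lt_top⟩
  exact (hw.restrict (cub δ z)).integrable (by norm_num)

theorem av_sub_sq {δ : ℝ} (hδ : 0 < δ) {w : E d → ℝ} (hw : MemLp w 2 volume) (hm : Measurable w)
    (x : E d) :
    ‖w x - av δ w x‖ₑ ^ 2 ≤
      (ENNReal.ofReal (δ ^ d))⁻¹ * ∫⁻ h in bx d δ, ‖w (x + h) - w x‖ₑ ^ 2 := by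
  set Q := cub δ (idx δ x) with hQ
  have hQm : MeasurableSet Q := measurableSet_cub δ hδ _
  have hv : volume Q = ENNReal.ofReal (δ ^ d) := volume_cub δ hδ _
  have hδd : 0 < δ ^ d := pow_pos hδ d
  have hv0 : ENNReal.ofReal (δ ^ d) ≠ 0 := by
    rw [ne_eq, ENNReal.ofReal_eq_zero, not_le]; exact hδd
  have hvt : ENNReal.ofReal (δ ^ d) ≠ ⊤ := ENNReal.ofReal_ne_top
  have h1 : w x - av δ w x = (δ ^ d)⁻¹ * ∫ y in Q, (w x - w y) := by
    have hfin : IsFiniteMeasure (volume.restrict Q) :=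
      ⟨by rw [Measure.restrict_apply_univ, hv]; exact ENNReal.ofReal_lt_top⟩
    have hv2 : (volume.restrict Q).real univ = δ ^ d := by
      rw [measureReal_def, Measure.restrict_apply_univ, hv, ENNReal.toReal_ofReal hδd.le]
    rw [integral_sub (integrable_const _) (integrableOn_cub hδ hw _), integral_const, hv2]
    simp only [smul_eq_mul, av]
    rw [← hQ]
    field_simp
  have h2 : ‖w x - av δ w x‖ₑ ≤ (ENNReal.ofReal (δ ^ d))⁻¹ * ∫⁻ y in Q, ‖w y - w x‖ₑ := by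
    rw [h1, enorm_mul]
    have e1 : ‖(δ ^ d)⁻¹‖ₑ = (ENNReal.ofReal (δ ^ d))⁻¹ := by
      rw [Real.enorm_of_nonneg (by positivity), ENNReal.ofReal_inv_of_pos hδd]
    rw [e1]
    gcongr
    refine (enorm_integral_le_lintegral_enorm _).trans (le_of_eq ?_)
    refine lintegral_congr fun y => ?_
    rw [← enorm_neg, neg_sub]
  calc ‖w x - av δ w x‖ₑ ^ 2 ≤ ((ENNReal.ofReal (δ ^ d))⁻¹ * ∫⁻ y in Q, ‖w y - w x‖ₑ) ^ 2 := by
        gcongr
    _ = (ENNReal.ofReal (δ ^ d))⁻¹ ^ 2 * (∫⁻ y in Q, ‖w y - w x‖ₑ) ^ 2 := by rw [mul_pow]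
    _ ≤ (ENNReal.ofReal (δ ^ d))⁻¹ ^ 2 * (volume Q * ∫⁻ y in Q, ‖w y - w x‖ₑ ^ 2) := by
        gcongr
        exact lint_sq_le Q _ (by fun_prop)
    _ = (ENNReal.ofReal (δ ^ d))⁻¹ * ∫⁻ y in Q, ‖w y - w x‖ₑ ^ 2 := by
        rw [hv, ← mul_assoc, sq, mul_assoc _ _ (ENNReal.ofReal (δ ^ d)),
          ENNReal.inv_mul_cancel hv0 hvt, mul_one]
    _ ≤ _ := by
        refine mul_le_mul_right ?_ _
        rw [← lintegral_indicator hQm, ← lintegral_indicator (measurableSet_bx δ),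
          ← lintegral_add_left_eq_self _ x]
        refine lintegral_mono fun h => ?_
        by_cases hh : x + h ∈ Q
        · rw [indicator_of_mem hh]
          have h3 : h ∈ bx d δ := by
            intro i
            have h4 := (mem_cub δ hδ _ _).1 hh i
            have h5 := (mem_cub δ hδ (idx δ x) x).1 rfl i
            have h6 : (x + h) i = x i + h i := rfl
            rw [h6] at h4
            rw [abs_le]
            constructor <;> nlinarith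
          rw [indicator_of_mem h3]
        · rw [indicator_of_notMem hh]
          exact bot_le

theorem av_congr {δ : ℝ} {w w' : E d → ℝ} (h : w =ᵐ[volume] w') (x : E d) :
    av δ w x = av δ w' x := by
  unfold av
  congr 1
  exact integral_congr_ae (ae_restrict_of_ae h)

/-- Poincaré type inequality for the averages -/
theorem av_le {δ : ℝ} (hδ : 0 < δ) {w : E d → ℝ} {G : E d → E d} (hw : MemLp w 2 volume)
    (hG : MemLp G 2 volume) (h : WG w G) :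
    ∫⁻ x, ‖w x - av δ w x‖ₑ ^ 2 ≤ ENNReal.ofReal (2 ^ d * d * δ ^ 2 * n2 G ^ 2) := by
  obtain ⟨w', hw'm, hww'⟩ : ∃ w' : E d → ℝ, Measurable w' ∧ w =ᵐ[volume] w' :=
    ⟨hw.1.mk w, hw.1.stronglyMeasurable_mk.measurable, hw.1.ae_eq_mk⟩
  have hw' : MemLp w' 2 volume := (memLp_congr_ae hww').1 hw
  have h' : WG w' G := by
    intro φ hφ hc v
    rw [← h φ hφ hc v]
    refine integral_congr_ae ?_
    filter_upwards [hww'] with x hx
    rw [hx]
  have e : ∫⁻ x, ‖w x - av δ w x‖ₑ ^ 2 = ∫⁻ x, ‖w' x - av δ w' x‖ₑ ^ 2 := by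
    refine lintegral_congr_ae ?_
    filter_upwards [hww'] with x hx
    rw [av_congr hww', hx]
  have hδd : 0 < δ ^ d := pow_pos hδ d
  have hv0 : ENNReal.ofReal (δ ^ d) ≠ 0 := by
    rw [ne_eq, ENNReal.ofReal_eq_zero, not_le]; exact hδd
  rw [e]
  calc ∫⁻ x, ‖w' x - av δ w' x‖ₑ ^ 2
      ≤ ∫⁻ x, (ENNReal.ofReal (δ ^ d))⁻¹ * ∫⁻ h in bx d δ, ‖w' (x + h) - w' x‖ₑ ^ 2 :=
        lintegral_mono fun x => av_sub_sq hδ hw' hw'm x
    _ = (ENNReal.ofReal (δ ^ d))⁻¹ * ∫⁻ x, ∫⁻ h in bx d δ, ‖w' (x + h) - w' x‖ₑ ^ 2 := by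
        rw [lintegral_const_mul']
        exact ENNReal.inv_ne_top.2 hv0
    _ = (ENNReal.ofReal (δ ^ d))⁻¹ * ∫⁻ h in bx d δ, ∫⁻ x, ‖w' (x + h) - w' x‖ₑ ^ 2 := by
        rw [lintegral_lintegral_swap]
        exact Measurable.aemeasurable (by fun_prop)
    _ ≤ (ENNReal.ofReal (δ ^ d))⁻¹ * ∫⁻ _h in bx d δ, ENNReal.ofReal (d * δ ^ 2 * n2 G ^ 2) := by
        refine mul_le_mul_right ?_ _
        refine setLIntegral_mono measurable_const fun h hh => ?_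
        have h1 : MemLp (fun x => w' (x + h) - w' x) 2 volume :=
          (hw'.comp_measurePreserving (measurePreserving_add_right volume h)).sub hw'
        rw [lint_eq h1]
        apply ENNReal.ofReal_le_ofReal
        have h2 := transl_le hw' hG h' h
        have h3 := norm_le_of_mem_bx hδ.le hh
        calc n2 (fun x => w' (x + h) - w' x) ^ 2 ≤ (‖h‖ * n2 G) ^ 2 :=
              pow_le_pow_left₀ (n2_nonneg _) h2 2
          _ = ‖h‖ ^ 2 * n2 G ^ 2 := by ring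
          _ ≤ d * δ ^ 2 * n2 G ^ 2 := by gcongr
    _ = ENNReal.ofReal (2 ^ d * d * δ ^ 2 * n2 G ^ 2) := by
        rw [lintegral_const, Measure.restrict_apply_univ, volume_bx δ hδ]
        have e2 : ENNReal.ofReal (2 ^ d * d * δ ^ 2 * n2 G ^ 2) =
            2 ^ d * ENNReal.ofReal (d * δ ^ 2 * n2 G ^ 2) := by
          have : 2 ^ d * (d : ℝ) * δ ^ 2 * n2 G ^ 2 = 2 ^ d * (d * δ ^ 2 * n2 G ^ 2) := by ring
          rw [this, ENNReal.ofReal_mul (by positivity), ENNReal.ofReal_pow (by norm_num)]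
          simp
        rw [e2]
        calc (ENNReal.ofReal (δ ^ d))⁻¹ * (ENNReal.ofReal (d * δ ^ 2 * n2 G ^ 2) *
              (2 ^ d * ENNReal.ofReal (δ ^ d)))
            = ((ENNReal.ofReal (δ ^ d))⁻¹ * ENNReal.ofReal (δ ^ d)) *
              (2 ^ d * ENNReal.ofReal (d * δ ^ 2 * n2 G ^ 2)) := by ring
          _ = _ := by rw [ENNReal.inv_mul_cancel hv0 ENNReal.ofReal_ne_top, one_mul]

theorem av_bound {δ : ℝ} (hδ : 0 < δ) {w : E d → ℝ} (hw : MemLp w 2 volume) (x : E d) :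
    ‖av δ w x‖ₑ ^ 2 ≤ (ENNReal.ofReal (δ ^ d))⁻¹ * ENNReal.ofReal (n2 w ^ 2) := by
  set Q := cub δ (idx δ x) with hQ
  have hv : volume Q = ENNReal.ofReal (δ ^ d) := volume_cub δ hδ _
  have hδd : 0 < δ ^ d := pow_pos hδ d
  have hv0 : ENNReal.ofReal (δ ^ d) ≠ 0 := by
    rw [ne_eq, ENNReal.ofReal_eq_zero, not_le]; exact hδd
  have hvt : ENNReal.ofReal (δ ^ d) ≠ ⊤ := ENNReal.ofReal_ne_top
  have h2 : ‖av δ w x‖ₑ ≤ (ENNReal.ofReal (δ ^ d))⁻¹ * ∫⁻ y in Q, ‖w y‖ₑ := by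
    unfold av
    rw [enorm_mul]
    have e1 : ‖(δ ^ d)⁻¹‖ₑ = (ENNReal.ofReal (δ ^ d))⁻¹ := by
      rw [Real.enorm_of_nonneg (by positivity), ENNReal.ofReal_inv_of_pos hδd]
    rw [e1]
    gcongr
    exact enorm_integral_le_lintegral_enorm _
  calc ‖av δ w x‖ₑ ^ 2 ≤ ((ENNReal.ofReal (δ ^ d))⁻¹ * ∫⁻ y in Q, ‖w y‖ₑ) ^ 2 := by gcongr
    _ = (ENNReal.ofReal (δ ^ d))⁻¹ ^ 2 * (∫⁻ y in Q, ‖w y‖ₑ) ^ 2 := by rw [mul_pow]
    _ ≤ (ENNReal.ofReal (δ ^ d))⁻¹ ^ 2 * (volume Q * ∫⁻ y in Q, ‖w y‖ₑ ^ 2) := by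
        gcongr
        exact lint_sq_le Q _ (hw.1.restrict.enorm)
    _ = (ENNReal.ofReal (δ ^ d))⁻¹ * ∫⁻ y in Q, ‖w y‖ₑ ^ 2 := by
        rw [hv, ← mul_assoc, sq, mul_assoc _ _ (ENNReal.ofReal (δ ^ d)),
          ENNReal.inv_mul_cancel hv0 hvt, mul_one]
    _ ≤ _ := by
        gcongr
        rw [← lint_eq hw]
        exact setLIntegral_le_lintegral _ _

/-- the small set inequality -/
theorem small_set {δ : ℝ} (hδ : 0 < δ) {w : E d → ℝ} {G : E d → E d} (hw : MemLp w 2 volume)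
    (hG : MemLp G 2 volume) (h : WG w G) (F : Set (E d)) :
    ∫⁻ x in F, ‖w x‖ₑ ^ 2 ≤ 2 * ENNReal.ofReal (2 ^ d * d * δ ^ 2 * n2 G ^ 2) +
      2 * (volume F * ((ENNReal.ofReal (δ ^ d))⁻¹ * ENNReal.ofReal (n2 w ^ 2))) := by
  have h1 : ∀ x, ‖w x‖ₑ ^ 2 ≤ 2 * ‖w x - av δ w x‖ₑ ^ 2 + 2 * ‖av δ w x‖ₑ ^ 2 := by
    intro x
    have h2 : ‖w x‖ₑ ≤ ‖w x - av δ w x‖ₑ + ‖av δ w x‖ₑ := by
      calc ‖w x‖ₑ = ‖(w x - av δ w x) + av δ w x‖ₑ := by ring_nf
        _ ≤ _ := enorm_add_le _ _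
    calc ‖w x‖ₑ ^ 2 ≤ (‖w x - av δ w x‖ₑ + ‖av δ w x‖ₑ) ^ 2 := by gcongr
      _ ≤ _ := by
        have := ENNReal.rpow_add_le_mul_rpow_add_rpow ‖w x - av δ w x‖ₑ ‖av δ w x‖ₑ
          (p := 2) (by norm_num)
        norm_num at this
        rw [mul_add] at this
        exact this
  calc ∫⁻ x in F, ‖w x‖ₑ ^ 2
      ≤ ∫⁻ x in F, (2 * ‖w x - av δ w x‖ₑ ^ 2 +
        2 * ((ENNReal.ofReal (δ ^ d))⁻¹ * ENNReal.ofReal (n2 w ^ 2))) := by
        refine lintegral_mono fun x => (h1 x).trans ?_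
        gcongr
        exact av_bound hδ hw x
    _ = (∫⁻ x in F, 2 * ‖w x - av δ w x‖ₑ ^ 2) +
        2 * ((ENNReal.ofReal (δ ^ d))⁻¹ * ENNReal.ofReal (n2 w ^ 2)) * volume F := by
        rw [lintegral_add_right _ measurable_const, lintegral_const, Measure.restrict_apply_univ]
    _ ≤ 2 * ENNReal.ofReal (2 ^ d * d * δ ^ 2 * n2 G ^ 2) +
        2 * ((ENNReal.ofReal (δ ^ d))⁻¹ * ENNReal.ofReal (n2 w ^ 2)) * volume F := by
        gcongr
        rw [lintegral_const_mul' _ _ (by norm_num)]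
        gcongr
        exact (setLIntegral_le_lintegral _ _).trans (av_le hδ hw hG h)
    _ = _ := by ring

end Pool.Agent.W791.OP
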