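import Pool.Agent.W791.OP.B

set_option autoImplicit false
open MeasureTheory Set Filter Topology Metric
open scoped ENNReal NNReal ContDiff RealInnerProductSpace

namespace Pool.Agent.W791.OP

variable {d : ℕ}

/-- the ambient Hilbert space: `(u, G, √V u)` -/
abbrev K (d : ℕ) : Type := WithLp 2 (Lp ℝ 2 (volume : Measure (E d)) ×
  WithLp 2 (Lp (E d) 2 (volume : Measure (E d)) × Lp ℝ 2 (volume : Measure (E d))))

/-- `√V` -/
noncomputable def sV (V : E d → ℝ≥0∞) (x : E d) : ℝ := Real.sqrt (V x).toReal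

theorem WG_congr {u u' : E d → ℝ} {G G' : E d → E d} (hu : u =ᵐ[volume] u')
    (hG : G =ᵐ[volume] G') (h : WG u G) : WG u' G' := by
  intro φ hφ hc v
  have h1 := h φ hφ hc v
  have e1 : ∫ x, u x * fderiv ℝ φ x v = ∫ x, u' x * fderiv ℝ φ x v := by
    refine integral_congr_ae ?_
    filter_upwards [hu] with x hx
    rw [hx]
  have e2 : ∫ x, ⟪G x, v⟫ * φ x = ∫ x, ⟪G' x, v⟫ * φ x := by
    refine integral_congr_ae ?_
    filter_upwards [hG] with x hx
    rw [hx]
  rw [← e1, ← e2, h1]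

theorem inner_toLp {f : E d → ℝ} (hf : MemLp f 2 volume) (g : Lp ℝ 2 (volume : Measure (E d))) :
    ⟪hf.toLp f, g⟫ = ∫ x, g x * f x := by
  rw [L2.inner_def]
  apply integral_congr_ae
  filter_upwards [hf.coeFn_toLp] with x h4
  rw [h4]
  simp

theorem memLp_smul_const {φ : E d → ℝ} (hφ : MemLp φ 2 volume) (v : E d) :
    MemLp (fun x => φ x • v) 2 volume := by
  have h1 : MemLp (fun x => ‖v‖ * ‖φ x‖) 2 volume := (hφ.norm).const_mul _
  refine h1.mono (hφ.1.smul_const v) (Eventually.of_forall fun x => ?_)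
  rw [norm_smul, Real.norm_of_nonneg (by positivity : 0 ≤ ‖v‖ * ‖φ x‖), mul_comm]

theorem inner_toLp_vec {φ : E d → ℝ} (hφ : MemLp φ 2 volume) (v : E d)
    (g : Lp (E d) 2 (volume : Measure (E d))) :
    ⟪(memLp_smul_const hφ v).toLp _, g⟫ = ∫ x, ⟪g x, v⟫ * φ x := by
  rw [L2.inner_def]
  apply integral_congr_ae
  filter_upwards [(memLp_smul_const hφ v).coeFn_toLp] with x h4
  rw [h4, real_inner_smul_left, real_inner_comm]
  ring

theorem WG_iff (u : Lp ℝ 2 (volume : Measure (E d))) (G : Lp (E d) 2 (volume : Measure (E d))) :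
    WG u G ↔ ∀ (φ : E d → ℝ) (hφ : ContDiff ℝ ∞ φ) (hc : HasCompactSupport φ) (v : E d),
      ⟪(tst_memLp (fderiv_tst hφ v).continuous (fderiv_tst_supp hc v) 2).toLp _, u⟫ +
        ⟪(memLp_smul_const (tst_memLp hφ.continuous hc 2) v).toLp _, G⟫ = 0 := by
  constructor
  · intro h φ hφ hc v
    rw [inner_toLp, inner_toLp_vec (tst_memLp hφ.continuous hc 2), h φ hφ hc v]
    ring
  · intro h φ hφ hc v
    have h1 := h φ hφ hc v
    rw [inner_toLp, inner_toLp_vec (tst_memLp hφ.continuous hc 2)] at h1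
    linarith

/-- the form domain as a subspace -/
def X (V : E d → ℝ≥0∞) : Submodule ℝ (K d) where
  carrier := {k | WG k.fst k.snd.fst ∧ (∀ᵐ x, V x = ⊤ → k.fst x = 0) ∧
    (∀ᵐ x, k.snd.snd x = sV V x * k.fst x)}
  zero_mem' := by
    refine ⟨?_, ?_, ?_⟩
    · rw [WG_iff]
      intro φ hφ hc v
      simp
    · have : (WithLp.fst (0 : K d)) = 0 := rfl
      rw [this]
      filter_upwards [Lp.coeFn_zero ℝ 2 (volume : Measure (E d))] with x hx _
      rw [hx]
      rfl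
    · have h1 : (WithLp.fst (0 : K d)) = 0 := rfl
      have h2 : (WithLp.snd (WithLp.snd (0 : K d))) = 0 := rfl
      rw [h1, h2]
      filter_upwards [Lp.coeFn_zero ℝ 2 (volume : Measure (E d))] with x hx
      rw [hx]
      simp
  add_mem' := by
    rintro a b ⟨ha1, ha2, ha3⟩ ⟨hb1, hb2, hb3⟩
    refine ⟨?_, ?_, ?_⟩
    · rw [WG_iff] at ha1 hb1 ⊢
      intro φ hφ hc v
      have e1 : (a + b).fst = a.fst + b.fst := rfl
      have e2 : (a + b).snd.fst = a.snd.fst + b.snd.fst := rfl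
      rw [e1, e2, inner_add_right, inner_add_right]
      have h1 := ha1 φ hφ hc v
      have h2 := hb1 φ hφ hc v
      linarith
    · have e1 : (a + b).fst = a.fst + b.fst := rfl
      rw [e1]
      filter_upwards [Lp.coeFn_add a.fst b.fst, ha2, hb2] with x hx h1 h2 h3
      rw [hx, Pi.add_apply, h1 h3, h2 h3, add_zero]
    · have e1 : (a + b).fst = a.fst + b.fst := rfl
      have e2 : (a + b).snd.snd = a.snd.snd + b.snd.snd := rfl
      rw [e1, e2]
      filter_upwards [Lp.coeFn_add a.fst b.fst, Lp.coeFn_add a.snd.snd b.snd.snd, ha3, hb3]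
        with x hx hx2 h1 h2
      rw [hx, hx2, Pi.add_apply, Pi.add_apply, h1, h2]
      ring
  smul_mem' := by
    rintro c a ⟨ha1, ha2, ha3⟩
    refine ⟨?_, ?_, ?_⟩
    · rw [WG_iff] at ha1 ⊢
      intro φ hφ hc v
      have e1 : (c • a).fst = c • a.fst := rfl
      have e2 : (c • a).snd.fst = c • a.snd.fst := rfl
      rw [e1, e2, inner_smul_right, inner_smul_right]
      have h1 := ha1 φ hφ hc v
      have : c * ⟪(tst_memLp (fderiv_tst hφ v).continuous (fderiv_tst_supp hc v) 2).toLp _, a.fst⟫ +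
        c * ⟪(memLp_smul_const (tst_memLp hφ.continuous hc 2) v).toLp _, a.snd.fst⟫ = c * 0 := by
        rw [← mul_add, h1]
      rw [this, mul_zero]
    · have e1 : (c • a).fst = c • a.fst := rfl
      rw [e1]
      filter_upwards [Lp.coeFn_smul c a.fst, ha2] with x hx h1 h3
      rw [hx, Pi.smul_apply, h1 h3, smul_zero]
    · have e1 : (c • a).fst = c • a.fst := rfl
      have e2 : (c • a).snd.snd = c • a.snd.snd := rfl
      rw [e1, e2]
      filter_upwards [Lp.coeFn_smul c a.fst, Lp.coeFn_smul c a.snd.snd, ha3]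
        with x hx hx2 h1
      rw [hx, hx2, Pi.smul_apply, Pi.smul_apply, h1]
      simp only [smul_eq_mul]
      ring

theorem mem_X {V : E d → ℝ≥0∞} {k : K d} : k ∈ X V ↔
    WG k.fst k.snd.fst ∧ (∀ᵐ x, V x = ⊤ → k.fst x = 0) ∧
    (∀ᵐ x, k.snd.snd x = sV V x * k.fst x) := Iff.rfl

theorem cont_fst : Continuous (fun k : K d => k.fst) := WithLp.continuous_fst _ _ _
theorem cont_snd : Continuous (fun k : K d => k.snd) := WithLp.continuous_snd _ _ _
theorem cont_snd_fst : Continuous (fun k : K d => k.snd.fst) :=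
  (WithLp.continuous_fst _ _ _).comp cont_snd
theorem cont_snd_snd : Continuous (fun k : K d => k.snd.snd) :=
  (WithLp.continuous_snd _ _ _).comp cont_snd

theorem isClosed_X (V : E d → ℝ≥0∞) : IsClosed (X V : Set (K d)) := by
  apply IsSeqClosed.isClosed
  intro f k hf hk
  have t1 : Tendsto (fun n => (f n).fst) atTop (𝓝 k.fst) := (cont_fst.tendsto k).comp hk
  have t2 : Tendsto (fun n => (f n).snd.fst) atTop (𝓝 k.snd.fst) :=
    (cont_snd_fst.tendsto k).comp hk
  have t3 : Tendsto (fun n => (f n).snd.snd) atTop (𝓝 k.snd.snd) :=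
    (cont_snd_snd.tendsto k).comp hk
  have m1 := tendstoInMeasure_of_tendsto_Lp t1
  obtain ⟨s, hs, hs'⟩ := m1.exists_seq_tendsto_ae
  have m3 := tendstoInMeasure_of_tendsto_Lp (t3.comp hs.tendsto_atTop)
  obtain ⟨r, hr, hr'⟩ := m3.exists_seq_tendsto_ae
  refine ⟨?_, ?_, ?_⟩
  · rw [WG_iff]
    intro φ hφ hc v
    have h1 : Tendsto (fun n => ⟪(tst_memLp (fderiv_tst hφ v).continuous
        (fderiv_tst_supp hc v) 2).toLp _, (f n).fst⟫ +
        ⟪(memLp_smul_const (tst_memLp hφ.continuous hc 2) v).toLp _, (f n).snd.fst⟫) atTop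
        (𝓝 (⟪(tst_memLp (fderiv_tst hφ v).continuous (fderiv_tst_supp hc v) 2).toLp _, k.fst⟫ +
        ⟪(memLp_smul_const (tst_memLp hφ.continuous hc 2) v).toLp _, k.snd.fst⟫)) :=
      (tendsto_const_nhds.inner t1).add (tendsto_const_nhds.inner t2)
    have h2 : ∀ n, ⟪(tst_memLp (fderiv_tst hφ v).continuous
        (fderiv_tst_supp hc v) 2).toLp _, (f n).fst⟫ +
        ⟪(memLp_smul_const (tst_memLp hφ.continuous hc 2) v).toLp _, (f n).snd.fst⟫ = 0 :=
      fun n => (WG_iff _ _).1 (hf n).1 φ hφ hc v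
    simp only [h2] at h1
    exact tendsto_nhds_unique h1 tendsto_const_nhds
  · have h1 : ∀ᵐ x, ∀ n, V x = ⊤ → (f (s n)).fst x = 0 := by
      rw [ae_all_iff]
      exact fun n => (hf (s n)).2.1
    filter_upwards [h1, hs'] with x h2 h3 h4
    have h5 : ∀ n, (f (s n)).fst x = 0 := fun n => h2 n h4
    simp only [h5] at h3
    exact tendsto_nhds_unique h3 tendsto_const_nhds
  · have h1 : ∀ᵐ x, ∀ n, (f (s (r n))).snd.snd x = sV V x * (f (s (r n))).fst x := by
      rw [ae_all_iff]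
      exact fun n => (hf (s (r n))).2.2
    filter_upwards [h1, hs', hr'] with x h2 h3 h4
    have h5 : Tendsto (fun n => (f (s (r n))).snd.snd x) atTop (𝓝 (sV V x * k.fst x)) := by
      simp only [h2]
      exact (h3.comp hr.tendsto_atTop).const_mul _
    exact tendsto_nhds_unique h4 h5

instance (V : E d → ℝ≥0∞) : CompleteSpace (X V) := (isClosed_X V).completeSpace_coe

/-- the embedding into `L²` -/
noncomputable def J (V : E d → ℝ≥0∞) : X V →L[ℝ] Lp ℝ 2 (volume : Measure (E d)) where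
  toFun x := (x : K d).fst
  map_add' _ _ := rfl
  map_smul' _ _ := rfl
  cont := cont_fst.comp continuous_subtype_val

theorem J_apply (V : E d → ℝ≥0∞) (x : X V) : J V x = (x : K d).fst := rfl

theorem norm_sq_X (V : E d → ℝ≥0∞) (x : X V) :
    ‖x‖ ^ 2 = ‖J V x‖ ^ 2 + (‖(x : K d).snd.fst‖ ^ 2 + ‖(x : K d).snd.snd‖ ^ 2) := by
  rw [J_apply, Submodule.coe_norm, WithLp.prod_norm_sq_eq_of_L2, WithLp.prod_norm_sq_eq_of_L2]

theorem inner_X (V : E d → ℝ≥0∞) (x y : X V) :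
    ⟪x, y⟫ = ⟪J V x, J V y⟫ + (⟪(x : K d).snd.fst, (y : K d).snd.fst⟫ +
      ⟪(x : K d).snd.snd, (y : K d).snd.snd⟫) := by
  rw [J_apply, J_apply, Submodule.coe_inner, WithLp.prod_inner_apply, WithLp.prod_inner_apply]
  rfl

/-- membership in the form domain -/
def MemH (V : E d → ℝ≥0∞) (u : E d → ℝ) (G : E d → E d) : Prop :=
  MemLp u 2 volume ∧ MemLp G 2 volume ∧ WG u G ∧ ∫⁻ x, V x * ‖u x‖ₑ ^ 2 < ⊤

theorem enorm_sV_sq (V : E d → ℝ≥0∞) (x : E d) (h : V x ≠ ⊤) : ‖sV V x‖ₑ ^ 2 = V x := by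
  rw [← enorm_pow, sV, Real.sq_sqrt ENNReal.toReal_nonneg,
    Real.enorm_of_nonneg ENNReal.toReal_nonneg, ENNReal.ofReal_toReal h]

theorem aem_sV {V : E d → ℝ≥0∞} (hV : AEMeasurable V volume) :
    AEStronglyMeasurable (sV V) volume :=
  (Real.continuous_sqrt.measurable.comp_aemeasurable hV.ennreal_toReal).aestronglyMeasurable

theorem memH_zero {V : E d → ℝ≥0∞} (hV : AEMeasurable V volume) {u : E d → ℝ} {G : E d → E d}
    (h : MemH V u G) : ∀ᵐ x, V x = ⊤ → u x = 0 := by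
  have h1 : AEMeasurable (fun x => V x * ‖u x‖ₑ ^ 2) volume := hV.mul (h.1.1.enorm.pow_const 2)
  filter_upwards [ae_lt_top' h1 h.2.2.2.ne] with x hx hV'
  by_contra h2
  rw [hV', ENNReal.top_mul] at hx
  · exact lt_irrefl _ hx
  · simp [h2]

theorem memH_lint {V : E d → ℝ≥0∞} {u : E d → ℝ}
    (h : ∀ᵐ x, V x = ⊤ → u x = 0) : ∫⁻ x, ‖sV V x * u x‖ₑ ^ 2 = ∫⁻ x, V x * ‖u x‖ₑ ^ 2 := by
  refine lintegral_congr_ae ?_
  filter_upwards [h] with x hx
  rw [enorm_mul, mul_pow]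
  by_cases hV' : V x = ⊤
  · simp [hx hV']
  · rw [enorm_sV_sq V x hV']

theorem memLp_of_lint {f : E d → ℝ} (hf : AEStronglyMeasurable f volume)
    (h : ∫⁻ x, ‖f x‖ₑ ^ 2 < ⊤) : MemLp f 2 volume := by
  refine ⟨hf, ?_⟩
  rw [← eLpNorm_sq] at h
  by_contra hcon
  rw [not_lt, top_le_iff] at hcon
  rw [hcon] at h
  simp at h

theorem memH_memLp {V : E d → ℝ≥0∞} (hV : AEMeasurable V volume) {u : E d → ℝ} {G : E d → E d}
    (h : MemH V u G) : MemLp (fun x => sV V x * u x) 2 volume := by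
  refine memLp_of_lint ((aem_sV hV).mul h.1.1) ?_
  rw [memH_lint (memH_zero hV h)]
  exact h.2.2.2

/-- element of the form domain given by functions -/
noncomputable def mk {V : E d → ℝ≥0∞} (hV : AEMeasurable V volume) {u : E d → ℝ} {G : E d → E d}
    (h : MemH V u G) : X V :=
  ⟨WithLp.toLp 2 (h.1.toLp u, WithLp.toLp 2 (h.2.1.toLp G, (memH_memLp hV h).toLp _)), by
    refine ⟨?_, ?_, ?_⟩
    · exact WG_congr h.1.coeFn_toLp.symm h.2.1.coeFn_toLp.symm h.2.2.1
    · filter_upwards [h.1.coeFn_toLp, memH_zero hV h] with x h1 h2 h3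
      show h.1.toLp u x = 0
      rw [h1, h2 h3]
    · filter_upwards [h.1.coeFn_toLp, (memH_memLp hV h).coeFn_toLp] with x h1 h2
      show (memH_memLp hV h).toLp _ x = sV V x * h.1.toLp u x
      rw [h1, h2]⟩

theorem J_mk {V : E d → ℝ≥0∞} (hV : AEMeasurable V volume) {u : E d → ℝ} {G : E d → E d}
    (h : MemH V u G) : J V (mk hV h) = h.1.toLp u := rfl

theorem mk_snd_fst {V : E d → ℝ≥0∞} (hV : AEMeasurable V volume) {u : E d → ℝ} {G : E d → E d}
    (h : MemH V u G) : (mk hV h : K d).snd.fst = h.2.1.toLp G := rfl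

theorem mk_snd_snd {V : E d → ℝ≥0∞} (hV : AEMeasurable V volume) {u : E d → ℝ} {G : E d → E d}
    (h : MemH V u G) : (mk hV h : K d).snd.snd = (memH_memLp hV h).toLp _ := rfl

theorem memH_of_X {V : E d → ℝ≥0∞} (x : X V) :
    MemH V (J V x) (x : K d).snd.fst := by
  refine ⟨Lp.memLp _, Lp.memLp _, x.2.1, ?_⟩
  have h0 : ∀ᵐ y, V y = ⊤ → (J V x) y = 0 := x.2.2.1
  rw [← memH_lint h0]
  have h1 : ∫⁻ y, ‖sV V y * (J V x) y‖ₑ ^ 2 = ∫⁻ y, ‖(x : K d).snd.snd y‖ₑ ^ 2 := by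
    refine lintegral_congr_ae ?_
    filter_upwards [x.2.2.2] with y hy
    rw [hy]
    rfl
  rw [h1, ← eLpNorm_sq]
  exact ENNReal.pow_lt_top (Lp.memLp _).2

end Pool.Agent.W791.OP
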