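import Pool.Agent.W791.OP.C

set_option autoImplicit false
open MeasureTheory Set Filter Topology Metric
open scoped ENNReal NNReal ContDiff RealInnerProductSpace

namespace Pool.Agent.W791.OP

variable {d : ℕ}

/-- smooth cutoff with gradient at most `L` -/
structure IsCut (η : E d → ℝ) (L : ℝ) : Prop where
  smooth : ContDiff ℝ ∞ η
  le_one : ∀ x, |η x| ≤ 1
  grad : ∀ x, ‖gradient η x‖ ≤ L

theorem IsCut.nonneg {η : E d → ℝ} {L : ℝ} (h : IsCut η L) : 0 ≤ L :=
  (norm_nonneg _).trans (h.grad 0)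

theorem gradient_cont {η : E d → ℝ} (h : ContDiff ℝ ∞ η) : Continuous (gradient η) := by
  unfold gradient
  exact (LinearIsometryEquiv.continuous _).comp (h.continuous_fderiv (by simp))

theorem IsCut.sq {η : E d → ℝ} {L : ℝ} (h : IsCut η L) : IsCut (fun x => η x ^ 2) (2 * L) := by
  refine ⟨h.smooth.pow 2, fun x => ?_, fun x => ?_⟩
  · rw [abs_pow]
    exact pow_le_one₀ (abs_nonneg _) (h.le_one x)
  · have h1 : gradient (fun x => η x ^ 2) x = (2 * η x) • gradient η x := by
      unfold gradient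
      have h2 : HasFDerivAt η (fderiv ℝ η x) x := ((h.smooth.differentiable (by simp)) x).hasFDerivAt
      have h3 := (h2.pow 2).fderiv
      rw [h3]
      simp
    rw [h1, norm_smul, Real.norm_eq_abs, abs_mul, abs_of_pos (by norm_num : (0:ℝ) < 2)]
    have := mul_le_mul (h.le_one x) (h.grad x) (norm_nonneg _) zero_le_one
    nlinarith

theorem grad_sq {η : E d → ℝ} {L : ℝ} (h : IsCut η L) (x : E d) :
    gradient (fun x => η x ^ 2) x = (2 * η x) • gradient η x := by
  unfold gradient
  have h2 : HasFDerivAt η (fderiv ℝ η x) x := ((h.smooth.differentiable (by simp)) x).hasFDerivAt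
  have h3 := (h2.pow 2).fderiv
  rw [h3]
  simp

theorem memLp_mul_cut {η : E d → ℝ} {L : ℝ} (h : IsCut η L) {u : E d → ℝ}
    (hu : MemLp u 2 volume) : MemLp (fun x => η x * u x) 2 volume := by
  refine hu.mono (h.smooth.continuous.aestronglyMeasurable.mul hu.1) (Eventually.of_forall fun x => ?_)
  rw [norm_mul]
  exact mul_le_of_le_one_left (norm_nonneg _) (h.le_one x)

theorem memLp_smul_cut {η : E d → ℝ} {L : ℝ} (h : IsCut η L) {G : E d → E d}
    (hG : MemLp G 2 volume) : MemLp (fun x => η x • G x) 2 volume := by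
  refine hG.mono (h.smooth.continuous.aestronglyMeasurable.smul hG.1) (Eventually.of_forall fun x => ?_)
  rw [norm_smul]
  exact mul_le_of_le_one_left (norm_nonneg _) (h.le_one x)

theorem memLp_smul_grad {η : E d → ℝ} {L : ℝ} (h : IsCut η L) {u : E d → ℝ}
    (hu : MemLp u 2 volume) : MemLp (fun x => u x • gradient η x) 2 volume := by
  refine (hu.norm.const_mul L).mono (hu.1.smul (gradient_cont h.smooth).aestronglyMeasurable)
    (Eventually.of_forall fun x => ?_)
  rw [norm_smul, norm_mul, norm_norm, Real.norm_of_nonneg h.nonneg, mul_comm]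
  exact mul_le_mul_of_nonneg_right (h.grad x) (norm_nonneg _)

theorem WG_mul {η : E d → ℝ} {L : ℝ} (hη : IsCut η L) {u : E d → ℝ} {G : E d → E d}
    (hu : MemLp u 2 volume) (hG : MemLp G 2 volume) (h : WG u G) :
    WG (fun x => η x * u x) (fun x => η x • G x + u x • gradient η x) := by
  intro φ hφ hc v
  have h1 := h (fun x => η x * φ x) (hη.smooth.mul hφ) hc.mul_left v
  have hfd : ∀ x, fderiv ℝ (fun x => η x * φ x) x v = η x * fderiv ℝ φ x v +
      ⟪gradient η x, v⟫ * φ x := by
    intro x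
    have e1 : HasFDerivAt η (fderiv ℝ η x) x :=
      ((hη.smooth.differentiable (by simp)) x).hasFDerivAt
    have e2 : HasFDerivAt φ (fderiv ℝ φ x) x := ((hφ.differentiable (by simp)) x).hasFDerivAt
    have e3 : HasFDerivAt (fun x => η x * φ x) (η x • fderiv ℝ φ x + φ x • fderiv ℝ η x) x :=
      e1.mul e2
    rw [e3.fderiv]
    simp only [ContinuousLinearMap.add_apply, ContinuousLinearMap.smul_apply, smul_eq_mul,
      inner_gradient_left]
    ring
  simp only [hfd] at h1
  have m1 : MemLp (fun x => η x * fderiv ℝ φ x v) 2 volume :=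
    memLp_mul_cut hη (tst_memLp (fderiv_tst hφ v).continuous (fderiv_tst_supp hc v) 2)
  have mφ : MemLp φ 2 volume := tst_memLp hφ.continuous hc 2
  have m2 : MemLp (fun x => ⟪gradient η x, v⟫ * φ x) 2 volume := by
    have h3 := memLp_smul_grad hη mφ
    have h4 := memLp_inner h3 v
    refine (memLp_congr_ae (Eventually.of_forall fun x => ?_)).1 h4
    simp only [real_inner_smul_left]
    ring
  have i1 : Integrable (fun x => u x * (η x * fderiv ℝ φ x v)) volume := hu.integrable_mul m1
  have i2 : Integrable (fun x => u x * (⟪gradient η x, v⟫ * φ x)) volume := hu.integrable_mul m2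
  have i3 : Integrable (fun x => ⟪η x • G x, v⟫ * φ x) volume :=
    (memLp_inner (memLp_smul_cut hη hG) v).integrable_mul mφ
  have e3 : ∫ x, u x * (η x * fderiv ℝ φ x v + ⟪gradient η x, v⟫ * φ x) =
      (∫ x, u x * (η x * fderiv ℝ φ x v)) + ∫ x, u x * (⟪gradient η x, v⟫ * φ x) := by
    rw [← integral_add i1 i2]
    congr 1
    funext x
    ring
  have e4 : ∫ x, ⟪η x • G x + u x • gradient η x, v⟫ * φ x =
      (∫ x, ⟪η x • G x, v⟫ * φ x) + ∫ x, u x * (⟪gradient η x, v⟫ * φ x) := by
    rw [← integral_add i3 i2]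
    congr 1
    funext x
    rw [inner_add_left, real_inner_smul_left, real_inner_smul_left]
    ring
  have e5 : ∫ x, ⟪G x, v⟫ * (η x * φ x) = ∫ x, ⟪η x • G x, v⟫ * φ x := by
    congr 1
    funext x
    rw [real_inner_smul_left]
    ring
  have e6 : ∫ x, η x * u x * fderiv ℝ φ x v = ∫ x, u x * (η x * fderiv ℝ φ x v) := by
    congr 1
    funext x
    ring
  rw [e3, e5] at h1
  rw [e6, e4]
  linarith

theorem memH_mul {η : E d → ℝ} {L : ℝ} (hη : IsCut η L) {V V' : E d → ℝ≥0∞}
    (hVV : ∀ x, η x ≠ 0 → V' x = V x) {u : E d → ℝ} {G : E d → E d} (h : MemH V u G) :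
    MemH V' (fun x => η x * u x) (fun x => η x • G x + u x • gradient η x) := by
  refine ⟨memLp_mul_cut hη h.1, (memLp_smul_cut hη h.2.1).add (memLp_smul_grad hη h.1),
    WG_mul hη h.1 h.2.1 h.2.2.1, ?_⟩
  refine lt_of_le_of_lt (lintegral_mono fun x => ?_) h.2.2.2
  by_cases hx : η x = 0
  · simp [hx]
  · rw [hVV x hx, enorm_mul, mul_pow]
    have : ‖η x‖ₑ ^ 2 ≤ 1 := by
      apply pow_le_one'
      rw [← ofReal_norm_eq_enorm]
      exact ENNReal.ofReal_le_one.2 (hη.le_one x)
    calc V x * (‖η x‖ₑ ^ 2 * ‖u x‖ₑ ^ 2) ≤ V x * (1 * ‖u x‖ₑ ^ 2) := by gcongr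
      _ = _ := by rw [one_mul]

end Pool.Agent.W791.OP
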