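import Mathlib

set_option autoImplicit false
open Module.End
open scoped RealInnerProductSpace

namespace Pool.Agent.W791.OP

theorem top_eig {Y : Type*} [NormedAddCommGroup Y] [InnerProductSpace ℝ Y] [CompleteSpace Y]
    (T : Y →L[ℝ] Y) (hc : IsCompactOperator T) (hs : (T : Y →ₗ[ℝ] Y).IsSymmetric)
    (hp : ∀ x, 0 ≤ ⟪T x, x⟫) {b : ℝ} (hb : 0 < b)
    (h : ∀ b' < b, ∃ w, w ≠ 0 ∧ b' * ‖w‖ ^ 2 ≤ ⟪T w, w⟫) :
    ∃ e : Y, ∃ μ : ℝ, ‖e‖ = 1 ∧ b ≤ μ ∧ T e = μ • e := by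
  have hT : b ≤ ‖T‖ := by
    refine le_of_forall_lt fun b' hb' => ?_
    obtain ⟨w, hw, h1⟩ := h ((b' + b) / 2) (by linarith)
    have h2 : ⟪T w, w⟫ ≤ ‖T‖ * ‖w‖ ^ 2 := by
      calc ⟪T w, w⟫ ≤ ‖T w‖ * ‖w‖ := real_inner_le_norm _ _
        _ ≤ (‖T‖ * ‖w‖) * ‖w‖ := by gcongr; exact T.le_opNorm w
        _ = _ := by ring
    have h3 : 0 < ‖w‖ ^ 2 := by positivity
    have h4 := le_of_mul_le_mul_right (h1.trans h2) h3
    linarith
  obtain ⟨w, hw, -⟩ := h 0 hb
  have hnt : Nontrivial Y := ⟨⟨w, 0, hw⟩⟩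
  have hT0 : ‖T‖ ≠ 0 := (hb.trans_le hT).ne'
  have hr : ∀ x, 0 ≤ T.rayleighQuotient x := by
    intro x
    unfold ContinuousLinearMap.rayleighQuotient
    rw [ContinuousLinearMap.reApplyInnerSelf_apply]
    have := hp x
    simp only [RCLike.re_to_real]
    positivity
  have heig : HasEigenvalue (T : Module.End ℝ Y) ‖T‖ := by
    rcases IsCompactOperator.hasEigenvalue_or_mem_resolventSet hc hT0 with h1 | h1
    · exact h1
    · exfalso
      obtain ⟨ε, hε, h2⟩ := T.rayleighQuotient_le_of_norm_mem_resolventSet (by simpa using h1)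
      have h3 := T.norm_eq_iSup_rayleighQuotient hs
      have h4 : (⨆ x, |T.rayleighQuotient x|) ≤ ‖T‖ - ε := by
        refine ciSup_le fun x => ?_
        rw [abs_of_nonneg (hr x)]
        exact h2 x
      linarith
  obtain ⟨v, hv⟩ := heig.exists_hasEigenvector
  have hv0 : v ≠ 0 := hv.2
  have hv1 : T v = ‖T‖ • v := by
    have := hv.apply_eq_smul
    exact this
  refine ⟨‖v‖⁻¹ • v, ‖T‖, ?_, hT, ?_⟩
  · rw [norm_smul, norm_inv, norm_norm, inv_mul_cancel₀ (norm_ne_zero_iff.2 hv0)]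
  · rw [map_smul, hv1, smul_comm]

theorem mem_orth {X : Type*} [NormedAddCommGroup X] [InnerProductSpace ℝ X] {m : ℕ}
    (e : Fin m → X) (v : X) :
    v ∈ (Submodule.span ℝ (Set.range e))ᗮ ↔ ∀ i, ⟪e i, v⟫ = 0 := by
  rw [Submodule.mem_orthogonal]
  constructor
  · intro h i
    exact h _ (Submodule.subset_span ⟨i, rfl⟩)
  · intro h u hu
    induction hu using Submodule.span_induction with
    | mem x hx =>
      obtain ⟨i, rfl⟩ := hx
      exact h i
    | zero => exact inner_zero_left _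
    | add x y _ _ hx hy => rw [inner_add_left, hx, hy, add_zero]
    | smul a x _ hx => rw [real_inner_smul_left, hx, mul_zero]

theorem eigs {X : Type*} [NormedAddCommGroup X] [InnerProductSpace ℝ X] [CompleteSpace X]
    (B : X →L[ℝ] X) (hc : IsCompactOperator B) (hs : (B : X →ₗ[ℝ] X).IsSymmetric)
    (hp : ∀ x, 0 ≤ ⟪B x, x⟫) {b : ℝ} (hb : 0 < b) (k : ℕ)
    (h : ∀ b' < b, ∃ w : Fin k → X, ∀ c : Fin k → ℝ, c ≠ 0 →
      ∑ i, c i • w i ≠ 0 ∧ b' * ‖∑ i, c i • w i‖ ^ 2 ≤ ⟪B (∑ i, c i • w i), ∑ i, c i • w i⟫) :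
    ∀ m ≤ k, ∃ e : Fin m → X, ∃ μ : Fin m → ℝ, Orthonormal ℝ e ∧
      ∀ i, b ≤ μ i ∧ B (e i) = μ i • e i := by
  intro m
  induction m with
  | zero =>
    intro _
    refine ⟨Fin.elim0, Fin.elim0, ?_, fun i => i.elim0⟩
    rw [orthonormal_iff_ite]
    exact fun i => i.elim0
  | succ m ih =>
    intro hm
    obtain ⟨e, μ, he, hμ⟩ := ih (by omega)
    set S : Submodule ℝ X := Submodule.span ℝ (Set.range e) with hS
    have hinv : ∀ v ∈ Sᗮ, (B : X →ₗ[ℝ] X) v ∈ Sᗮ := by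
      intro v hv
      rw [hS, mem_orth] at hv ⊢
      intro i
      rw [← hs]
      show ⟪B (e i), v⟫ = 0
      rw [(hμ i).2, real_inner_smul_left, hv i, mul_zero]
    set T : Sᗮ →L[ℝ] Sᗮ := B.restrict hinv with hT
    have hTc : IsCompactOperator T := hc.restrict' hinv
    have hTs : (T : Sᗮ →ₗ[ℝ] Sᗮ).IsSymmetric := hs.restrict_invariant hinv
    have hTv : ∀ x : Sᗮ, ((T x : Sᗮ) : X) = B x := fun x => rfl
    obtain ⟨f, ν, hf1, hf2, hf3⟩ := top_eig T hTc hTs (fun x => by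
      rw [Submodule.coe_inner, hTv]
      exact hp _) hb (fun b' hb' => by
      obtain ⟨w, hw⟩ := h b' hb'
      let Φ : (Fin k → ℝ) →ₗ[ℝ] (Fin m → ℝ) :=
        { toFun := fun c j => ⟪e j, ∑ i, c i • w i⟫
          map_add' := fun c c' => by
            funext j
            simp only [Pi.add_apply, add_smul, Finset.sum_add_distrib, inner_add_right]
          map_smul' := fun a c => by
            funext j
            simp only [Pi.smul_apply, smul_eq_mul, RingHom.id_apply, ← smul_smul,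
              ← Finset.smul_sum, real_inner_smul_right] }
      have hker : LinearMap.ker Φ ≠ ⊥ := Φ.ker_ne_bot_of_finrank_lt (by
        simp only [Module.finrank_fin_fun]; omega)
      obtain ⟨c, hc1, hc0⟩ := Submodule.exists_mem_ne_zero_of_ne_bot hker
      have hc2 : ∀ j, ⟪e j, ∑ i, c i • w i⟫ = 0 := fun j => congrFun hc1 j
      obtain ⟨h1, h2⟩ := hw c hc0
      refine ⟨⟨∑ i, c i • w i, (mem_orth e _).2 hc2⟩, ?_, ?_⟩
      · intro h3
        exact h1 (congrArg Subtype.val h3)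
      · rw [Submodule.coe_inner, hTv]
        exact h2)
    have hf0 : ∀ j, ⟪e j, (f : X)⟫ = 0 := (mem_orth e _).1 f.2
    have hf4 : B (f : X) = ν • (f : X) := congrArg Subtype.val hf3
    have hf5 : ⟪(f : X), (f : X)⟫ = 1 := by
      rw [real_inner_self_eq_norm_sq, ← Submodule.coe_norm, hf1]
      norm_num
    rw [orthonormal_iff_ite] at he
    refine ⟨Fin.cons (f : X) e, Fin.cons ν μ, ?_, ?_⟩
    · rw [orthonormal_iff_ite]
      intro i j
      refine Fin.cases ?_ (fun i => ?_) i <;> refine Fin.cases ?_ (fun j => ?_) j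
      · simpa using hf5
      · simp only [Fin.cons_zero, Fin.cons_succ]
        rw [real_inner_comm, hf0 j, if_neg (Fin.succ_ne_zero j).symm]
      · simp only [Fin.cons_zero, Fin.cons_succ]
        rw [hf0 i, if_neg (Fin.succ_ne_zero i)]
      · simp only [Fin.cons_succ, Fin.succ_inj]
        exact he i j
    · intro i
      refine Fin.cases ?_ (fun i => ?_) i
      · exact ⟨hf2, hf4⟩
      · exact hμ i

theorem eigs_J {X Z : Type*} [NormedAddCommGroup X] [InnerProductSpace ℝ X] [CompleteSpace X]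
    [NormedAddCommGroup Z] [InnerProductSpace ℝ Z] [CompleteSpace Z]
    (J : X →L[ℝ] Z) (hJ : IsCompactOperator J) {b : ℝ} (hb : 0 < b) (k : ℕ)
    (h : ∀ b' < b, ∃ w : Fin k → X, ∀ c : Fin k → ℝ, c ≠ 0 →
      ∑ i, c i • w i ≠ 0 ∧ b' * ‖∑ i, c i • w i‖ ^ 2 ≤ ‖J (∑ i, c i • w i)‖ ^ 2) :
    ∃ e : Fin k → X, ∃ μ : Fin k → ℝ, Orthonormal ℝ e ∧
      ∀ i, b ≤ μ i ∧ ∀ y, ⟪J (e i), J y⟫ = μ i * ⟪e i, y⟫ := by
  set B : X →L[ℝ] X := (ContinuousLinearMap.adjoint J).comp J with hB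
  have hBi : ∀ x y, ⟪B x, y⟫ = ⟪J x, J y⟫ := by
    intro x y
    rw [hB, ContinuousLinearMap.comp_apply, ContinuousLinearMap.adjoint_inner_left]
  have hBc : IsCompactOperator B := hJ.clm_comp (ContinuousLinearMap.adjoint J)
  have hBs : (B : X →ₗ[ℝ] X).IsSymmetric := by
    intro x y
    show ⟪B x, y⟫ = ⟪x, B y⟫
    rw [hBi, real_inner_comm (B y) x, hBi, real_inner_comm]
  obtain ⟨e, μ, he, hμ⟩ := eigs B hBc hBs (fun x => by
    rw [hBi]
    exact real_inner_self_nonneg) hb k (fun b' hb' => by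
    obtain ⟨w, hw⟩ := h b' hb'
    refine ⟨w, fun c hc => ?_⟩
    rw [hBi, real_inner_self_eq_norm_sq]
    exact hw c hc) k le_rfl
  refine ⟨e, μ, he, fun i => ⟨(hμ i).1, fun y => ?_⟩⟩
  rw [← hBi, (hμ i).2, real_inner_smul_left]

end Pool.Agent.W791.OP
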