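import Pool.Agent.W791.OP.D
import Pool.Agent.W791.OP.L

set_option autoImplicit false
open MeasureTheory Set Filter Topology Metric
open scoped ENNReal NNReal ContDiff RealInnerProductSpace

namespace Pool.Agent.W791.OP

variable {d : ℕ}

theorem inner_toLp_right {F : Type*} [NormedAddCommGroup F] [InnerProductSpace ℝ F]
    (f : Lp F 2 (volume : Measure (E d))) {g : E d → F} (hg : MemLp g 2 volume) :
    ⟪f, hg.toLp g⟫ = ∫ x, ⟪f x, g x⟫ := by
  rw [L2.inner_def]
  apply integral_congr_ae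
  filter_upwards [hg.coeFn_toLp] with x h4
  rw [h4]

theorem inner_toLp_toLp {F : Type*} [NormedAddCommGroup F] [InnerProductSpace ℝ F]
    {f g : E d → F} (hf : MemLp f 2 volume) (hg : MemLp g 2 volume) :
    ⟪hf.toLp f, hg.toLp g⟫ = ∫ x, ⟪f x, g x⟫ := by
  rw [L2.inner_def]
  apply integral_congr_ae
  filter_upwards [hf.coeFn_toLp, hg.coeFn_toLp] with x h3 h4
  rw [h3, h4]

theorem norm_toLp_sq {F : Type*} [NormedAddCommGroup F] [InnerProductSpace ℝ F]
    {g : E d → F} (hg : MemLp g 2 volume) : ‖hg.toLp g‖ ^ 2 = ∫ x, ‖g x‖ ^ 2 := by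
  rw [← real_inner_self_eq_norm_sq, inner_toLp_toLp]
  simp only [real_inner_self_eq_norm_sq]

theorem norm_Lp_sq {F : Type*} [NormedAddCommGroup F] [InnerProductSpace ℝ F]
    (f : Lp F 2 (volume : Measure (E d))) : ‖f‖ ^ 2 = ∫ x, ‖f x‖ ^ 2 := by
  rw [← real_inner_self_eq_norm_sq, L2.inner_def]
  simp only [real_inner_self_eq_norm_sq]

theorem integrable_inner2 {F : Type*} [NormedAddCommGroup F] [InnerProductSpace ℝ F]
    {f g : E d → F} (hf : MemLp f 2 volume) (hg : MemLp g 2 volume) :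
    Integrable (fun x => ⟪f x, g x⟫) volume := by
  refine (L2.integrable_inner (𝕜 := ℝ) (hf.toLp f) (hg.toLp g)).congr ?_
  filter_upwards [hf.coeFn_toLp, hg.coeFn_toLp] with x h3 h4
  rw [h3, h4]

/-- cut off element -/
noncomputable def cutX {V V' : E d → ℝ≥0∞} (hV' : AEMeasurable V' volume) {η : E d → ℝ} {L : ℝ}
    (hη : IsCut η L) (hVV : ∀ x, η x ≠ 0 → V' x = V x) (x : X V) : X V' :=
  mk hV' (memH_mul hη hVV (memH_of_X x))

theorem J_cutX {V V' : E d → ℝ≥0∞} (hV' : AEMeasurable V' volume) {η : E d → ℝ} {L : ℝ}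
    (hη : IsCut η L) (hVV : ∀ x, η x ≠ 0 → V' x = V x) (x : X V) :
    J V' (cutX hV' hη hVV x) = (memLp_mul_cut hη (Lp.memLp (J V x))).toLp _ := rfl

theorem cutX_snd_fst {V V' : E d → ℝ≥0∞} (hV' : AEMeasurable V' volume) {η : E d → ℝ} {L : ℝ}
    (hη : IsCut η L) (hVV : ∀ x, η x ≠ 0 → V' x = V x) (x : X V) :
    ((cutX hV' hη hVV x : X V') : K d).snd.fst =
      ((memLp_smul_cut hη (Lp.memLp (x : K d).snd.fst)).add
        (memLp_smul_grad hη (Lp.memLp (J V x)))).toLp _ := rfl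

theorem cutX_snd_snd {V V' : E d → ℝ≥0∞} (hV' : AEMeasurable V' volume) {η : E d → ℝ} {L : ℝ}
    (hη : IsCut η L) (hVV : ∀ x, η x ≠ 0 → V' x = V x) (x : X V) :
    ((cutX hV' hη hVV x : X V') : K d).snd.snd =
      (memH_memLp hV' (memH_mul hη hVV (memH_of_X x))).toLp _ := rfl

theorem norm_J_cutX {V V' : E d → ℝ≥0∞} (hV' : AEMeasurable V' volume) {η : E d → ℝ} {L : ℝ}
    (hη : IsCut η L) (hVV : ∀ x, η x ≠ 0 → V' x = V x) (x : X V) :
    ‖J V' (cutX hV' hη hVV x)‖ ^ 2 = ∫ y, η y ^ 2 * (J V x y) ^ 2 := by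
  rw [J_cutX, norm_toLp_sq]
  congr 1
  funext y
  rw [Real.norm_eq_abs, sq_abs]
  ring

theorem inner_J_cutX {V V' : E d → ℝ≥0∞} (hV' : AEMeasurable V' volume) {η : E d → ℝ} {L : ℝ}
    (hη : IsCut η L) (hVV : ∀ x, η x ≠ 0 → V' x = V x) (x : X V)
    (f : Lp ℝ 2 (volume : Measure (E d))) :
    ⟪f, J V' (cutX hV' hη hVV x)⟫ = ∫ y, η y * (f y * J V x y) := by
  rw [J_cutX, inner_toLp_right]
  congr 1
  funext y
  simp only [RCLike.inner_apply, conj_trivial]
  ring

theorem ims {V V' : E d → ℝ≥0∞} (hV : AEMeasurable V volume) (hV' : AEMeasurable V' volume)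
    {η : E d → ℝ} {L : ℝ}
    (hη : IsCut η L) (hVV : ∀ x, η x ≠ 0 → V' x = V x) (x : X V) :
    ‖cutX hV' hη hVV x‖ ^ 2 = ⟪x, cutX hV hη.sq (fun _ _ => rfl) x⟫ +
      ∫ y, (J V x y) ^ 2 * ‖gradient η y‖ ^ 2 := by
  have hu : MemLp (J V x) 2 volume := Lp.memLp _
  have hG : MemLp ((x : K d).snd.fst) 2 volume := Lp.memLp _
  have hW : MemLp ((x : K d).snd.snd) 2 volume := Lp.memLp _
  have hWu : ∀ᵐ y, (x : K d).snd.snd y = sV V y * J V x y := x.2.2.2
  have e1 : ‖J V' (cutX hV' hη hVV x)‖ ^ 2 = ⟪J V x, J V (cutX hV hη.sq (fun _ _ => rfl) x)⟫ := by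
    rw [norm_J_cutX, inner_J_cutX]
    congr 1
    funext y
    ring
  have e2 : ‖((cutX hV' hη hVV x : X V') : K d).snd.snd‖ ^ 2 =
      ⟪(x : K d).snd.snd, ((cutX hV hη.sq (fun _ _ => rfl) x : X V) : K d).snd.snd⟫ := by
    rw [cutX_snd_snd, cutX_snd_snd, norm_toLp_sq, inner_toLp_right]
    apply integral_congr_ae
    filter_upwards [hWu] with y hy
    rw [hy]
    by_cases h0 : η y = 0
    · simp [h0]
    · simp only [sV, hVV y h0, RCLike.inner_apply, conj_trivial, Real.norm_eq_abs, sq_abs]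
      ring
  have e3 : ‖((cutX hV' hη hVV x : X V') : K d).snd.fst‖ ^ 2 =
      ⟪(x : K d).snd.fst, ((cutX hV hη.sq (fun _ _ => rfl) x : X V) : K d).snd.fst⟫ +
      ∫ y, (J V x y) ^ 2 * ‖gradient η y‖ ^ 2 := by
    rw [cutX_snd_fst, cutX_snd_fst, norm_toLp_sq, inner_toLp_right, ← integral_add]
    · congr 1
      funext y
      simp only [Pi.add_apply]
      rw [grad_sq hη, ← real_inner_self_eq_norm_sq, ← real_inner_self_eq_norm_sq]
      simp only [inner_add_left, inner_add_right, real_inner_smul_left, real_inner_smul_right]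
      rw [real_inner_comm (gradient η y) ((x : K d).snd.fst y)]
      ring
    · have h1 : MemLp (fun y => η y ^ 2 • (x : K d).snd.fst y +
          (J V x y) • gradient (fun y => η y ^ 2) y) 2 volume :=
        (memLp_smul_cut hη.sq hG).add (memLp_smul_grad hη.sq hu)
      exact integrable_inner2 hG h1
    · have h1 := integrable_inner2 (memLp_smul_grad hη hu) (memLp_smul_grad hη hu)
      refine h1.congr (Eventually.of_forall fun y => ?_)
      simp only [real_inner_self_eq_norm_sq, norm_smul, Real.norm_eq_abs, mul_pow, sq_abs]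
  rw [norm_sq_X, inner_X, e1, e2, e3]
  ring

end Pool.Agent.W791.OP
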