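import Pool.Agent.W791.OP.F

set_option autoImplicit false
open MeasureTheory Set Filter Topology Metric
open scoped ENNReal NNReal ContDiff RealInnerProductSpace

namespace Pool.Agent.W791.OP

variable {d : ℕ}

theorem n2_Lp {F : Type*} [NormedAddCommGroup F] (f : Lp F 2 (volume : Measure (E d))) :
    n2 f = ‖f‖ := (Lp.norm_def f).symm

theorem lint_Lp {F : Type*} [NormedAddCommGroup F] (f : Lp F 2 (volume : Measure (E d))) :
    ∫⁻ x, ‖f x‖ₑ ^ 2 = ENNReal.ofReal (‖f‖ ^ 2) := by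
  rw [lint_eq (Lp.memLp f), n2_Lp]

theorem lint_V {V : E d → ℝ≥0∞} (x : X V) :
    ∫⁻ y, V y * ‖J V x y‖ₑ ^ 2 = ENNReal.ofReal (‖(x : K d).snd.snd‖ ^ 2) := by
  rw [← lint_Lp, ← memH_lint (V := V) (u := J V x) x.2.2.1]
  refine lintegral_congr_ae ?_
  filter_upwards [x.2.2.2] with y hy
  rw [hy]
  rfl

theorem vol_le {V : E d → ℝ≥0∞} (hV : AEMeasurable V volume) {p : ℝ} (hp : 0 < p) (hp1 : p ≤ 1)
    {S : Set (E d)} (hS : MeasurableSet S) {L : ℝ} (hL : 1 ≤ L) :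
    volume (S ∩ {x | V x < ENNReal.ofReal L}) ≤ ENNReal.ofReal L * ∫⁻ x in S, V x ^ (-p) := by
  have hFn : NullMeasurableSet (S ∩ {x | V x < ENNReal.ofReal L}) volume :=
    hS.nullMeasurableSet.inter (nullMeasurableSet_lt hV aemeasurable_const)
  have hL0 : ENNReal.ofReal L ≠ 0 := by
    rw [ne_eq, ENNReal.ofReal_eq_zero, not_le]; linarith
  calc volume (S ∩ {x | V x < ENNReal.ofReal L})
      = ∫⁻ x in S ∩ {x | V x < ENNReal.ofReal L}, 1 := by simp
    _ ≤ ∫⁻ x in S ∩ {x | V x < ENNReal.ofReal L}, ENNReal.ofReal L * V x ^ (-p) := by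
        refine lintegral_mono_ae ?_
        filter_upwards [ae_restrict_mem₀ hFn] with x hx
        have h1 : V x < ENNReal.ofReal L := hx.2
        have h2 : ENNReal.ofReal L ^ (-p) ≤ V x ^ (-p) := by
          rw [ENNReal.rpow_neg, ENNReal.rpow_neg]
          exact ENNReal.inv_le_inv.2 (ENNReal.rpow_le_rpow h1.le hp.le)
        have h4 : (1 : ℝ≥0∞) ≤ ENNReal.ofReal L := by
          rw [← ENNReal.ofReal_one]
          exact ENNReal.ofReal_le_ofReal hL
        have h3 : 1 ≤ ENNReal.ofReal L * ENNReal.ofReal L ^ (-p) := by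
          calc (1 : ℝ≥0∞) ≤ ENNReal.ofReal L ^ (1 - p) := by
                rcases hp1.lt_or_eq with h5 | h5
                · exact ENNReal.one_le_rpow h4 (by linarith)
                · rw [h5, sub_self, ENNReal.rpow_zero]
            _ = _ := by
                rw [sub_eq_add_neg, ENNReal.rpow_add _ _ hL0 ENNReal.ofReal_ne_top,
                  ENNReal.rpow_one]
        exact h3.trans (by gcongr)
    _ = ENNReal.ofReal L * ∫⁻ x in S ∩ {x | V x < ENNReal.ofReal L}, V x ^ (-p) := by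
        rw [lintegral_const_mul' _ _ ENNReal.ofReal_ne_top]
    _ ≤ _ := by
        gcongr
        exact inter_subset_left

theorem coer {V : E d → ℝ≥0∞} (hV : AEMeasurable V volume) {p : ℝ} (hp : 0 < p) (hp1 : p ≤ 1)
    {S : Set (E d)} (hS : MeasurableSet S) {L : ℝ} (hL : 1 ≤ L) {δ : ℝ} (hδ : 0 < δ) {m : ℝ}
    (hm : 0 ≤ m) (hM : ∫⁻ x in S, V x ^ (-p) ≤ ENNReal.ofReal m) (x : X V)
    (hx : ∀ᵐ y, y ∉ S → J V x y = 0) :
    ‖J V x‖ ^ 2 ≤ 2 * (2 ^ d * d * δ ^ 2) * ‖(x : K d).snd.fst‖ ^ 2 +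
      2 * (L * m * (δ ^ d)⁻¹) * ‖J V x‖ ^ 2 + L⁻¹ * ‖(x : K d).snd.snd‖ ^ 2 := by
  set F : Set (E d) := S ∩ {x | V x < ENNReal.ofReal L} with hF
  have hFn : NullMeasurableSet F volume :=
    hS.nullMeasurableSet.inter (nullMeasurableSet_lt hV aemeasurable_const)
  have hδd : 0 < δ ^ d := pow_pos hδ d
  have hL0 : ENNReal.ofReal L ≠ 0 := by
    rw [ne_eq, ENNReal.ofReal_eq_zero, not_le]; linarith
  have hvol : volume F ≤ ENNReal.ofReal (L * m) := by
    rw [ENNReal.ofReal_mul (by linarith)]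
    exact (vol_le hV hp hp1 hS hL).trans (by gcongr)
  have hmeas : AEMeasurable (fun y => V y * ‖J V x y‖ₑ ^ 2) volume :=
    hV.mul ((Lp.memLp (J V x)).1.enorm.pow_const 2)
  have h1 : ∫⁻ y, ‖J V x y‖ₑ ^ 2 ≤
      (∫⁻ y in F, ‖J V x y‖ₑ ^ 2) + (ENNReal.ofReal L)⁻¹ * ∫⁻ y, V y * ‖J V x y‖ₑ ^ 2 := by
    rw [← lintegral_const_mul'' _ hmeas, ← lintegral_indicator₀ hFn,
      ← lintegral_add_right' _ (hmeas.const_mul _)]
    refine lintegral_mono_ae ?_
    filter_upwards [hx] with y hy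
    by_cases h2 : y ∈ S
    · by_cases h3 : V y < ENNReal.ofReal L
      · rw [indicator_of_mem (show y ∈ F from ⟨h2, h3⟩)]
        exact le_self_add
      · rw [not_lt] at h3
        refine le_trans ?_ le_add_self
        calc ‖J V x y‖ₑ ^ 2 = (ENNReal.ofReal L)⁻¹ * (ENNReal.ofReal L * ‖J V x y‖ₑ ^ 2) := by
              rw [← mul_assoc, ENNReal.inv_mul_cancel hL0 ENNReal.ofReal_ne_top, one_mul]
          _ ≤ _ := by gcongr
    · rw [hy h2]
      simp
  have h2 := small_set hδ (Lp.memLp (J V x)) (Lp.memLp (x : K d).snd.fst) x.2.1 F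
  rw [n2_Lp, n2_Lp] at h2
  rw [lint_V, lint_Lp] at h1
  have h3 : ENNReal.ofReal (‖J V x‖ ^ 2) ≤ ENNReal.ofReal (2 * (2 ^ d * d * δ ^ 2) *
      ‖(x : K d).snd.fst‖ ^ 2 + 2 * (L * m * (δ ^ d)⁻¹) * ‖J V x‖ ^ 2 +
      L⁻¹ * ‖(x : K d).snd.snd‖ ^ 2) := by
    refine h1.trans ?_
    rw [ENNReal.ofReal_add (by positivity) (by positivity),
      ENNReal.ofReal_add (by positivity) (by positivity)]
    gcongr ?_ + ?_
    · refine h2.trans ?_
      gcongr ?_ + ?_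
      · rw [mul_assoc 2 (2 ^ d * (d : ℝ) * δ ^ 2), ENNReal.ofReal_mul (by norm_num : (0 : ℝ) ≤ 2),
          ENNReal.ofReal_ofNat]
      · have e1 : 2 * (L * m * (δ ^ d)⁻¹) * ‖J V x‖ ^ 2 =
            2 * ((L * m) * ((δ ^ d)⁻¹ * ‖J V x‖ ^ 2)) := by ring
        rw [e1, ENNReal.ofReal_mul (by norm_num : (0 : ℝ) ≤ 2), ENNReal.ofReal_ofNat,
          ENNReal.ofReal_mul (by positivity : 0 ≤ L * m),
          ENNReal.ofReal_mul (by positivity : 0 ≤ (δ ^ d)⁻¹), ENNReal.ofReal_inv_of_pos hδd]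
        gcongr
    · rw [ENNReal.ofReal_mul (by positivity), ENNReal.ofReal_inv_of_pos (by linarith)]
  exact (ENNReal.ofReal_le_ofReal_iff (by positivity)).1 h3

end Pool.Agent.W791.OP
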