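import Pool.Agent.W791.OP.G

set_option autoImplicit false
open MeasureTheory Set Filter Topology Metric
open scoped ENNReal NNReal ContDiff RealInnerProductSpace

namespace Pool.Agent.W791.OP

variable {d : ℕ}

/-- constant in the coercivity estimate -/
noncomputable def C0 (d : ℕ) : ℝ := 2 ^ (d + 1) * d + 3

theorem C0_pos : 0 < C0 d := by unfold C0; positivity

theorem norms_le {V : E d → ℝ≥0∞} (x : X V) : ‖J V x‖ ^ 2 ≤ ‖x‖ ^ 2 ∧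
    ‖(x : K d).snd.fst‖ ^ 2 ≤ ‖x‖ ^ 2 ∧ ‖(x : K d).snd.snd‖ ^ 2 ≤ ‖x‖ ^ 2 := by
  rw [norm_sq_X]
  refine ⟨?_, ?_, ?_⟩ <;> nlinarith [sq_nonneg ‖J V x‖, sq_nonneg ‖(x : K d).snd.fst‖,
    sq_nonneg ‖(x : K d).snd.snd‖]

theorem tail {V : E d → ℝ≥0∞} (hV : AEMeasurable V volume) {p : ℝ} (hp : 0 < p) (hp1 : p ≤ 1)
    {S : Set (E d)} (hS : MeasurableSet S) {τ : ℝ} (hτ : 0 < τ) (hτ1 : τ ≤ 1)
    (hM : ∫⁻ x in S, V x ^ (-p) ≤ ENNReal.ofReal (τ ^ (d + 4))) (x : X V)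
    (hx : ∀ᵐ y, y ∉ S → J V x y = 0) :
    ‖J V x‖ ^ 2 ≤ C0 d * τ ^ 2 * ‖x‖ ^ 2 := by
  have hL : 1 ≤ (τ ^ 2)⁻¹ := (one_le_inv₀ (by positivity)).2 (pow_le_one₀ hτ.le hτ1)
  have h := coer hV hp hp1 hS hL hτ (m := τ ^ (d + 4)) (by positivity) hM x hx
  have h1 : (τ ^ 2)⁻¹ * τ ^ (d + 4) * (τ ^ d)⁻¹ = τ ^ 2 := by
    field_simp
    ring
  rw [h1, inv_inv] at h
  obtain ⟨h2, h3, h4⟩ := norms_le x
  calc ‖J V x‖ ^ 2 ≤ _ := h
    _ ≤ 2 * (2 ^ d * d * τ ^ 2) * ‖x‖ ^ 2 + 2 * τ ^ 2 * ‖x‖ ^ 2 + τ ^ 2 * ‖x‖ ^ 2 := by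
        gcongr
    _ = _ := by unfold C0; ring

/-- lower bound of the energy -/
theorem energy_lb (hd : 1 ≤ d) {V : E d → ℝ≥0∞} (hV : AEMeasurable V volume) {p : ℝ} (hp : 0 < p)
    (hp1 : p ≤ 1) (hM : ∫⁻ x, V x ^ (-p) ≤ 1) (x : X V) :
    ‖J V x‖ ^ 2 ≤ (64 * 2 ^ d * d + 2) * (‖(x : K d).snd.fst‖ ^ 2 + ‖(x : K d).snd.snd‖ ^ 2) := by
  have h := coer hV hp hp1 (S := univ) MeasurableSet.univ le_rfl (δ := 4) (by norm_num) (m := 1)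
    (by norm_num) (by simpa using hM) x (by simp)
  have h1 : ((4 : ℝ) ^ d)⁻¹ ≤ 1 / 4 := by
    rw [inv_le_comm₀ (by positivity) (by norm_num)]
    calc (1 / 4 : ℝ)⁻¹ = 4 ^ 1 := by norm_num
      _ ≤ 4 ^ d := pow_le_pow_right₀ (by norm_num) hd
  have h2 : 2 * (1 * 1 * ((4 : ℝ) ^ d)⁻¹) * ‖J V x‖ ^ 2 ≤ 1 / 2 * ‖J V x‖ ^ 2 := by
    gcongr
    linarith
  have h3 : (0 : ℝ) ≤ 2 ^ d * d := by positivity
  nlinarith [sq_nonneg ‖(x : K d).snd.fst‖, sq_nonneg ‖(x : K d).snd.snd‖,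
    mul_nonneg h3 (sq_nonneg ‖(x : K d).snd.snd‖)]

theorem cut_bound {V V' : E d → ℝ≥0∞} (hV' : AEMeasurable V' volume) {η : E d → ℝ} {L : ℝ}
    (hη : IsCut η L) (hVV : ∀ x, η x ≠ 0 → V' x = V x) (x : X V) :
    ‖cutX hV' hη hVV x‖ ^ 2 ≤ (2 + 2 * L ^ 2) * ‖x‖ ^ 2 := by
  have hL := hη.nonneg
  have h1 : ‖J V' (cutX hV' hη hVV x)‖ ≤ ‖J V x‖ := by
    rw [J_cutX]
    refine Lp.norm_le_norm_of_ae_le ?_
    filter_upwards [(memLp_mul_cut hη (Lp.memLp (J V x))).coeFn_toLp] with y hy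
    rw [hy, norm_mul]
    exact mul_le_of_le_one_left (norm_nonneg _) (hη.le_one y)
  have h2 : ‖((cutX hV' hη hVV x : X V') : K d).snd.snd‖ ≤ ‖(x : K d).snd.snd‖ := by
    rw [cutX_snd_snd]
    refine Lp.norm_le_norm_of_ae_le ?_
    filter_upwards [(memH_memLp hV' (memH_mul hη hVV (memH_of_X x))).coeFn_toLp, x.2.2.2]
      with y hy hy2
    rw [hy, hy2]
    by_cases h0 : η y = 0
    · simp only [h0, zero_mul, mul_zero, norm_zero]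
      exact norm_nonneg _
    · simp only [sV, hVV y h0]
      rw [norm_mul, norm_mul, norm_mul]
      refine mul_le_mul_of_nonneg_left ?_ (norm_nonneg _)
      exact mul_le_of_le_one_left (norm_nonneg _) (hη.le_one y)
  have h3 : ‖((cutX hV' hη hVV x : X V') : K d).snd.fst‖ ≤
      ‖(x : K d).snd.fst‖ + L * ‖J V x‖ := by
    rw [cutX_snd_fst, MemLp.toLp_add (memLp_smul_cut hη (Lp.memLp (x : K d).snd.fst))
      (memLp_smul_grad hη (Lp.memLp (J V x)))]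
    refine (norm_add_le _ _).trans (add_le_add ?_ ?_)
    · refine Lp.norm_le_norm_of_ae_le ?_
      filter_upwards [(memLp_smul_cut hη (Lp.memLp (x : K d).snd.fst)).coeFn_toLp] with y hy
      rw [hy, norm_smul]
      exact mul_le_of_le_one_left (norm_nonneg _) (hη.le_one y)
    · refine Lp.norm_le_mul_norm_of_ae_le_mul ?_
      filter_upwards [(memLp_smul_grad hη (Lp.memLp (J V x))).coeFn_toLp] with y hy
      rw [hy, norm_smul, mul_comm]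
      exact mul_le_mul_of_nonneg_right (hη.grad y) (norm_nonneg _)
  rw [norm_sq_X, norm_sq_X]
  have h1' := pow_le_pow_left₀ (norm_nonneg _) h1 2
  have h2' := pow_le_pow_left₀ (norm_nonneg _) h2 2
  have h3' := pow_le_pow_left₀ (norm_nonneg _) h3 2
  nlinarith [sq_nonneg (‖(x : K d).snd.fst‖ - L * ‖J V x‖), sq_nonneg ‖J V x‖,
    sq_nonneg ‖(x : K d).snd.fst‖, sq_nonneg ‖(x : K d).snd.snd‖, sq_nonneg L,
    mul_nonneg (sq_nonneg L) (sq_nonneg ‖(x : K d).snd.fst‖),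
    mul_nonneg (sq_nonneg L) (sq_nonneg ‖(x : K d).snd.snd‖)]

end Pool.Agent.W791.OP
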