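import Pool.Agent.W791.OP.ZZ

set_option autoImplicit false
open MeasureTheory Set Filter Topology Metric
open scoped ENNReal NNReal ContDiff RealInnerProductSpace

namespace Pool.Agent.W791.OP

variable {d : ℕ}

/-- De Giorgi type iteration -/
theorem iter (A M : ℝ → ℝ) (hA0 : ∀ R, 0 ≤ A R)
    (hAa : ∀ R R', R ≤ R' → A R' ≤ A R) {D F β : ℝ} (hD : 0 ≤ D) (hF : 0 ≤ F) (hβ : 0 < β)
    (n : ℕ)
    (h1 : ∀ R l, 0 < l → l ≤ 1 → A R ≤ β → M (R + l) * l ^ 2 ≤ D * A R)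
    (h2 : ∀ R l τ, 0 < l → l ≤ 1 → 0 < τ → τ ≤ 1 → M R ≤ τ ^ n → A (R + l) * l ^ 2 ≤ F * τ ^ 2 * A R)
    (hAt : ∀ ε, 0 < ε → ∃ R₀, 0 ≤ R₀ ∧ ∀ R, R₀ ≤ R → A R ≤ ε)
    (hMt : ∀ ε, 0 < ε → ∃ R₀, 0 ≤ R₀ ∧ ∀ R, R₀ ≤ R → M R ≤ ε) :
    ∃ R, 0 ≤ R ∧ M R ≤ 0 := by
  obtain ⟨θ, hθ⟩ : ∃ θ : ℝ, θ = (1 / 4) * (1 / 2) ^ n := ⟨_, rfl⟩
  have hθ0 : 0 < θ := by rw [hθ]; positivity
  have hθ1 : θ < 1 := by
    rw [hθ]
    have : ((1 : ℝ) / 2) ^ n ≤ 1 := pow_le_one₀ (by norm_num) (by norm_num)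
    linarith
  obtain ⟨τ, hτ0, hτ1, hτ2⟩ : ∃ τ : ℝ, 0 < τ ∧ τ ≤ 1 ∧ 4 * F * τ ^ 2 ≤ θ := by
    have h1 : Tendsto (fun τ : ℝ => 4 * F * τ ^ 2) (𝓝[>] 0) (𝓝 0) := by
      have : Continuous (fun τ : ℝ => 4 * F * τ ^ 2) := by fun_prop
      have h2 := (this.tendsto 0).mono_left (nhdsWithin_le_nhds (s := Ioi 0))
      simpa using h2
    have h3 := h1.eventually (eventually_le_nhds hθ0)
    have h4 : ∀ᶠ τ : ℝ in 𝓝[>] 0, τ ≤ 1 :=
      nhdsWithin_le_nhds (eventually_le_nhds (by norm_num))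
    obtain ⟨τ, h5, h6, h7⟩ := (h3.and (h4.and self_mem_nhdsWithin)).exists
    exact ⟨τ, h7, h6, h5⟩
  set ε1 : ℝ := min β ((τ / 2) ^ n / (4 * D + 1)) with hε1
  have hε1p : 0 < ε1 := lt_min hβ (by positivity)
  obtain ⟨R1, hR10, hR1⟩ := hAt ε1 hε1p
  obtain ⟨R2, hR20, hR2⟩ := hMt (τ ^ n) (by positivity)
  set R0 : ℝ := max R1 R2 with hR0
  have hAR0 : A R0 ≤ ε1 := hR1 _ (le_max_left _ _)
  have hMR0 : M R0 ≤ τ ^ n := hR2 _ (le_max_right _ _)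
  have hR0p : 0 ≤ R0 := hR10.trans (le_max_left _ _)
  have hDA : 4 * D * A R0 ≤ (τ / 2) ^ n := by
    have h3 : A R0 ≤ (τ / 2) ^ n / (4 * D + 1) := hAR0.trans (min_le_right _ _)
    rw [le_div_iff₀ (by positivity)] at h3
    nlinarith [hA0 R0]
  set r : ℕ → ℝ := fun j => R0 + 1 - (1 / 2) ^ j with hr
  have hr1 : ∀ j, r (j + 1) = r j + (1 / 2) ^ (j + 1) := by
    intro j
    simp only [hr]
    ring
  have hr0 : ∀ j, R0 ≤ r j := by
    intro j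
    have : ((1 : ℝ) / 2) ^ j ≤ 1 := pow_le_one₀ (by norm_num) (by norm_num)
    simp only [hr]
    linarith
  have key : ∀ j, A (r j) ≤ A R0 * θ ^ j ∧ M (r j) ≤ (τ * (1 / 2) ^ j) ^ n := by
    intro j
    induction j with
    | zero =>
      have : r 0 = R0 := by simp [hr]
      rw [this]
      simpa using hMR0
    | succ j ih =>
      obtain ⟨ih1, ih2⟩ := ih
      have hl0 : (0 : ℝ) < (1 / 2) ^ (j + 1) := by positivity
      have hl1 : ((1 : ℝ) / 2) ^ (j + 1) ≤ 1 := pow_le_one₀ (by norm_num) (by norm_num)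
      have hl2 : ((1 : ℝ) / 2) ^ j ≤ 1 := pow_le_one₀ (by norm_num) (by norm_num)
      have e1 : (((1 : ℝ) / 2) ^ (j + 1)) ^ 2 * 4 ^ (j + 1) = 1 := by
        rw [← pow_mul, mul_comm (j + 1) 2, pow_mul, ← mul_pow]
        norm_num
      have e2 : ((1 : ℝ) / 2) ^ j * (1 / 2) ^ j * 4 ^ j = 1 := by
        rw [← mul_pow, ← mul_pow]
        norm_num
      constructor
      · have h3 := h2 (r j) ((1 / 2) ^ (j + 1)) (τ * (1 / 2) ^ j) hl0 hl1 (by positivity)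
          (mul_le_one₀ hτ1 (by positivity) hl2) ih2
        rw [← hr1] at h3
        have h4 : A (r (j + 1)) = A (r (j + 1)) * (((1 / 2) ^ (j + 1)) ^ 2) * 4 ^ (j + 1) := by
          rw [mul_assoc, e1, mul_one]
        calc A (r (j + 1)) = A (r (j + 1)) * (((1 / 2) ^ (j + 1)) ^ 2) * 4 ^ (j + 1) := h4
          _ ≤ F * (τ * (1 / 2) ^ j) ^ 2 * A (r j) * 4 ^ (j + 1) := by gcongr
          _ = (4 * F * τ ^ 2) * ((1 / 2) ^ j * (1 / 2) ^ j * 4 ^ j) * A (r j) := by ring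
          _ = (4 * F * τ ^ 2) * A (r j) := by rw [e2, mul_one]
          _ ≤ θ * (A R0 * θ ^ j) := by
              have := hA0 (r j)
              gcongr
          _ = _ := by ring
      · have hβ' : A (r j) ≤ β :=
          (hAa _ _ (hr0 j)).trans (hAR0.trans (min_le_left _ _))
        have h3 := h1 (r j) ((1 / 2) ^ (j + 1)) hl0 hl1 hβ'
        rw [← hr1] at h3
        have h4 : M (r (j + 1)) = M (r (j + 1)) * (((1 / 2) ^ (j + 1)) ^ 2) * 4 ^ (j + 1) := by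
          rw [mul_assoc, e1, mul_one]
        calc M (r (j + 1)) = M (r (j + 1)) * (((1 / 2) ^ (j + 1)) ^ 2) * 4 ^ (j + 1) := h4
          _ ≤ D * A (r j) * 4 ^ (j + 1) := by gcongr
          _ ≤ D * (A R0 * θ ^ j) * 4 ^ (j + 1) := by gcongr
          _ = (4 * D * A R0) * (4 * θ) ^ j := by rw [mul_pow]; ring
          _ ≤ (τ / 2) ^ n * (4 * θ) ^ j := by gcongr
          _ = (τ * (1 / 2) ^ (j + 1)) ^ n := by
              have e3 : 4 * θ = (1 / 2) ^ n := by rw [hθ]; ring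
              rw [e3, ← pow_mul, mul_comm n j, pow_mul, ← mul_pow]
              congr 1
              ring
  have hA1 : A (R0 + 1) ≤ 0 := by
    have h3 : ∀ j, A (R0 + 1) ≤ A R0 * θ ^ j := by
      intro j
      refine le_trans (hAa _ _ ?_) (key j).1
      have : (0 : ℝ) ≤ (1 / 2) ^ j := by positivity
      simp only [hr]
      linarith
    have h4 : Tendsto (fun j : ℕ => A R0 * θ ^ j) atTop (𝓝 (A R0 * 0)) :=
      (tendsto_pow_atTop_nhds_zero_of_lt_one hθ0.le hθ1).const_mul _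
    rw [mul_zero] at h4
    exact ge_of_tendsto' h4 h3
  have hM1 := h1 (R0 + 1) 1 one_pos le_rfl (hA1.trans hβ.le)
  refine ⟨R0 + 1 + 1, by linarith, ?_⟩
  have : D * A (R0 + 1) ≤ 0 := mul_nonpos_of_nonneg_of_nonpos hD hA1
  linarith

theorem main (hd : 1 ≤ d) {p : ℝ} (hp : 0 < p) (hp1 : p ≤ 1) {k : ℕ} (hk : 1 ≤ k)
    {V : E d → ℝ≥0∞} (hV : AEMeasurable V volume) (hM : ∫⁻ x, V x ^ (-p) ≤ 1)
    (hopt : ∀ W : E d → ℝ≥0∞, AEMeasurable W volume → ∫⁻ x, W x ^ (-p) ≤ 1 →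
      lam k V ≤ lam k W) :
    ∃ R : ℝ, ∀ᵐ x, V x < ⊤ → ‖x‖ ≤ R := by
  obtain ⟨W, hW1, hW2, hW3⟩ := exists_competitor hd hp k
  have hfin : lam k V ≠ ⊤ := ((hopt W hW1 hW2).trans_lt hW3).ne
  have hpos : 0 < lam k V := lam_pos hd hV hp hp1 hM hk
  set Λ : ℝ := (lam k V).toReal with hΛdef
  have hlam : lam k V = ENNReal.ofReal Λ := (ENNReal.ofReal_toReal hfin).symm
  have hΛ : 0 < Λ := ENNReal.toReal_pos hpos.ne' hfin
  set b : ℝ := (1 + Λ)⁻¹ with hb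
  have hb0 : 0 < b := by positivity
  obtain ⟨f⟩ := exists_fam hV hp hp1 hM hΛ.le hlam.le
  have hK : ∀ l : ℝ, 0 < l → l ≤ 1 → (b⁻¹ + (K0 / l) ^ 2) * l ^ 2 ≤ b⁻¹ + K0 ^ 2 := by
    intro l hl hl1
    have e1 : (b⁻¹ + (K0 / l) ^ 2) * l ^ 2 = b⁻¹ * l ^ 2 + K0 ^ 2 := by
      field_simp
    rw [e1]
    have : l ^ 2 ≤ 1 := pow_le_one₀ hl.le hl1
    have : b⁻¹ * l ^ 2 ≤ b⁻¹ * 1 := by gcongr
    linarith
  obtain ⟨R, hR0, hR⟩ := iter f.A (Mo V p) f.A_nonneg (fun R R' h => f.A_anti h)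
    (D := (2 * (b⁻¹ + K0 ^ 2) / b + 2 / b ^ 2) * ((d + 2) / (2 * Λ)))
    (F := C0 d * (b⁻¹ + K0 ^ 2)) (β := b / 2) (by positivity)
    (by have := C0_pos (d := d); positivity) (by positivity) (d + 4)
    (fun R l hl hl1 hA => by
      have h1 := step1 hV hp hp1 hM hopt hΛ hlam rfl f hl hA
      have h2 := hK l hl hl1
      have h3 : l ^ 2 ≤ 1 := pow_le_one₀ hl.le hl1
      have hA0 := f.A_nonneg R
      have h4 : (2 * (b⁻¹ + (K0 / l) ^ 2) / b + 2 / b ^ 2) * l ^ 2 ≤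
          2 * (b⁻¹ + K0 ^ 2) / b + 2 / b ^ 2 := by
        have e1 : (2 * (b⁻¹ + (K0 / l) ^ 2) / b + 2 / b ^ 2) * l ^ 2 =
            2 * ((b⁻¹ + (K0 / l) ^ 2) * l ^ 2) / b + 2 / b ^ 2 * l ^ 2 := by ring
        rw [e1]
        have h5 : 2 / b ^ 2 * l ^ 2 ≤ 2 / b ^ 2 * 1 := by gcongr
        have h6 : 2 * ((b⁻¹ + (K0 / l) ^ 2) * l ^ 2) / b ≤ 2 * (b⁻¹ + K0 ^ 2) / b := by gcongr
        linarith
      have h5 : Mo V p (R + l) = ((d + 2) / (2 * Λ)) * (2 * Λ / (d + 2) * Mo V p (R + l)) := by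
        field_simp
      calc Mo V p (R + l) * l ^ 2
          = ((d + 2) / (2 * Λ)) * (2 * Λ / (d + 2) * Mo V p (R + l)) * l ^ 2 := by rw [← h5]
        _ ≤ ((d + 2) / (2 * Λ)) * ((2 * (b⁻¹ + (K0 / l) ^ 2) / b + 2 / b ^ 2) * f.A R) * l ^ 2 := by
            gcongr
        _ = ((d + 2) / (2 * Λ)) * ((2 * (b⁻¹ + (K0 / l) ^ 2) / b + 2 / b ^ 2) * l ^ 2) *
            f.A R := by ring
        _ ≤ ((d + 2) / (2 * Λ)) * (2 * (b⁻¹ + K0 ^ 2) / b + 2 / b ^ 2) * f.A R := by gcongr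
        _ = _ := by ring)
    (fun R l τ hl hl1 hτ hτ1 hMR => by
      have h1 := f.step2 hb0 hV hp hp1 hl hτ hτ1 (by
        rw [Mo_fin hM]
        exact ENNReal.ofReal_le_ofReal hMR)
      have h2 := hK l hl hl1
      have hA0 := f.A_nonneg R
      have hC := C0_pos (d := d)
      calc f.A (R + l) * l ^ 2 ≤ (C0 d * τ ^ 2 * (b⁻¹ + (K0 / l) ^ 2) * f.A R) * l ^ 2 := by gcongr
        _ = C0 d * τ ^ 2 * ((b⁻¹ + (K0 / l) ^ 2) * l ^ 2) * f.A R := by ring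
        _ ≤ C0 d * τ ^ 2 * (b⁻¹ + K0 ^ 2) * f.A R := by gcongr
        _ = _ := by ring)
    (fun ε hε => f.A_tail hε)
    (fun ε hε => by
      obtain ⟨R₀, h0, h1⟩ := tail_zero (ne_top_of_le_ne_top ENNReal.one_ne_top hM)
        (ε := ENNReal.ofReal ε) (ENNReal.ofReal_pos.2 hε)
      refine ⟨R₀, h0, fun R hR => ?_⟩
      have h2 := h1 R hR
      rw [Mo_fin hM] at h2
      exact (ENNReal.ofReal_le_ofReal_iff hε.le).1 h2)
  refine ⟨R, ?_⟩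
  have h0 : ∫⁻ x in out d R, V x ^ (-p) = 0 := by
    rw [Mo_fin hM, le_antisymm hR (Mo_nonneg _ _ _), ENNReal.ofReal_zero]
  have hVm : AEMeasurable (fun x => V x ^ (-p)) (volume.restrict (out d R)) :=
    (hV.pow_const (-p)).restrict
  rw [lintegral_eq_zero_iff' hVm] at h0
  have h1 : ∀ᵐ x, x ∈ out d R → V x ^ (-p) = 0 := by
    rw [Filter.EventuallyEq, ae_restrict_iff' (meas_out R)] at h0
    exact h0
  filter_upwards [h1] with x hx hlt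
  by_contra hcon
  rw [not_le] at hcon
  have h2 : x ∈ out d R := lt_of_lt_of_le hcon (norm_le_Nf x)
  have h3 := hx h2
  rw [ENNReal.rpow_neg, ENNReal.inv_eq_zero] at h3
  exact (ENNReal.rpow_ne_top_of_nonneg hp.le hlt.ne) h3

end Pool.Agent.W791.OP
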