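import Pool.Agent.W791.OP.H

set_option autoImplicit false
open MeasureTheory Set Filter Topology Metric
open scoped ENNReal NNReal ContDiff RealInnerProductSpace

namespace Pool.Agent.W791.OP

variable {d : ℕ}

/-- smooth norm -/
noncomputable def Nf (x : E d) : ℝ := Real.sqrt (1 + ‖x‖ ^ 2)

theorem Nf_smooth : ContDiff ℝ ∞ (Nf (d := d)) := by
  unfold Nf
  refine ContDiff.sqrt (contDiff_const.add (contDiff_norm_sq ℝ)) fun x => ?_
  positivity

theorem Nf_pos (x : E d) : 0 < Nf x := by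
  unfold Nf
  positivity

theorem norm_le_Nf (x : E d) : ‖x‖ ≤ Nf x := by
  unfold Nf
  exact Real.le_sqrt_of_sq_le (by linarith)

theorem Nf_sq (x : E d) : Nf x ^ 2 = 1 + ‖x‖ ^ 2 := by
  unfold Nf
  rw [Real.sq_sqrt (by positivity)]

theorem Nf_lip (x y : E d) : |Nf x - Nf y| ≤ ‖x - y‖ := by
  have h1 : (Nf x - Nf y) * (Nf x + Nf y) = (‖x‖ - ‖y‖) * (‖x‖ + ‖y‖) := by
    have := Nf_sq x
    have := Nf_sq y
    nlinarith
  have h2 : |Nf x - Nf y| * (Nf x + Nf y) = |‖x‖ - ‖y‖| * (‖x‖ + ‖y‖) := by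
    rw [← abs_of_pos (add_pos (Nf_pos x) (Nf_pos y)), ← abs_mul, h1, abs_mul,
      abs_of_nonneg (by positivity : 0 ≤ ‖x‖ + ‖y‖)]
  have h3 : |Nf x - Nf y| * (Nf x + Nf y) ≤ |‖x‖ - ‖y‖| * (Nf x + Nf y) := by
    rw [h2]
    have := norm_le_Nf x
    have := norm_le_Nf y
    gcongr
  exact (le_of_mul_le_mul_right h3 (add_pos (Nf_pos x) (Nf_pos y))).trans (abs_norm_sub_norm_le x y)

theorem exists_K0 : ∃ C : ℝ≥0, LipschitzWith C Real.smoothTransition := by
  have hs : ContDiff ℝ 1 Real.smoothTransition := Real.smoothTransition.contDiff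
  have hc : Continuous (deriv Real.smoothTransition) := hs.continuous_deriv le_rfl
  obtain ⟨C, hC⟩ := isCompact_Icc.exists_bound_of_continuousOn (s := Icc (0:ℝ) 1) hc.continuousOn
  refine ⟨C.toNNReal, lipschitzWith_of_nnnorm_deriv_le (hs.differentiable (by norm_num)) fun x => ?_⟩
  have h0 : 0 ≤ C := (norm_nonneg _).trans (hC 0 (by simp))
  rw [← NNReal.coe_le_coe, coe_nnnorm, Real.coe_toNNReal C h0]
  by_cases hx : x ∈ Icc (0:ℝ) 1
  · exact hC x hx
  · rw [mem_Icc, not_and_or, not_le, not_le] at hx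
    have h1 : deriv Real.smoothTransition x = 0 := by
      rcases hx with hx | hx
      · have : Real.smoothTransition =ᶠ[𝓝 x] fun _ => 0 := by
          filter_upwards [Iio_mem_nhds hx] with y hy
          exact Real.smoothTransition.zero_of_nonpos (le_of_lt hy)
        rw [this.deriv_eq, deriv_const]
      · have : Real.smoothTransition =ᶠ[𝓝 x] fun _ => 1 := by
          filter_upwards [Ioi_mem_nhds hx] with y hy
          exact Real.smoothTransition.one_of_one_le (le_of_lt hy)
        rw [this.deriv_eq, deriv_const]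
    rw [h1, norm_zero]
    exact h0

/-- Lipschitz constant of the transition function -/
noncomputable def K0 : ℝ := (Classical.choose exists_K0 : ℝ≥0)

theorem K0_nonneg : 0 ≤ K0 := NNReal.coe_nonneg _

theorem K0_lip (x y : ℝ) : |Real.smoothTransition x - Real.smoothTransition y| ≤ K0 * |x - y| := by
  have := (Classical.choose_spec exists_K0).dist_le_mul x y
  rw [Real.dist_eq, Real.dist_eq] at this
  exact this

/-- outer cutoff: zero for `N ≤ R`, one for `N ≥ R+l` -/
noncomputable def zt (R l : ℝ) (x : E d) : ℝ := Real.smoothTransition ((Nf x - R) / l)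

/-- inner cutoff -/
noncomputable def et (R l : ℝ) (x : E d) : ℝ := 1 - zt R l x

theorem zt_smooth (R l : ℝ) : ContDiff ℝ ∞ (zt (d := d) R l) := by
  unfold zt
  exact Real.smoothTransition.contDiff.comp ((Nf_smooth.sub contDiff_const).div_const l)

theorem zt_zero {R l : ℝ} (hl : 0 < l) {x : E d} (hx : Nf x ≤ R) : zt R l x = 0 :=
  Real.smoothTransition.zero_of_nonpos (div_nonpos_of_nonpos_of_nonneg (by linarith) hl.le)

theorem zt_one {R l : ℝ} (hl : 0 < l) {x : E d} (hx : R + l ≤ Nf x) : zt R l x = 1 :=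
  Real.smoothTransition.one_of_one_le ((one_le_div hl).2 (by linarith))

theorem zt_nonneg (R l : ℝ) (x : E d) : 0 ≤ zt R l x := Real.smoothTransition.nonneg _
theorem zt_le_one (R l : ℝ) (x : E d) : zt R l x ≤ 1 := Real.smoothTransition.le_one _

theorem zt_lip {R l : ℝ} (hl : 0 < l) (x y : E d) : |zt R l x - zt R l y| ≤ K0 / l * ‖x - y‖ := by
  refine (K0_lip _ _).trans ?_
  have h1 : (Nf x - R) / l - (Nf y - R) / l = (Nf x - Nf y) / l := by ring
  rw [h1, abs_div, abs_of_pos hl, div_mul_eq_mul_div, ← mul_div_assoc]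
  gcongr
  · exact K0_nonneg
  · exact Nf_lip x y

theorem grad_le_of_lip {f : E d → ℝ} {C : ℝ} (hC : 0 ≤ C) (h : ∀ x y, |f x - f y| ≤ C * ‖x - y‖)
    (x : E d) : ‖gradient f x‖ ≤ C := by
  unfold gradient
  rw [LinearIsometryEquiv.norm_map]
  have h1 : LipschitzWith C.toNNReal f := by
    refine LipschitzWith.of_dist_le_mul fun x y => ?_
    rw [Real.coe_toNNReal C hC, Real.dist_eq, dist_eq_norm]
    exact h x y
  have := norm_fderiv_le_of_lipschitz ℝ h1 (x₀ := x)
  rwa [Real.coe_toNNReal C hC] at this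

theorem zt_cut {R l : ℝ} (hl : 0 < l) : IsCut (zt (d := d) R l) (K0 / l) := by
  refine ⟨zt_smooth R l, fun x => ?_, grad_le_of_lip (div_nonneg K0_nonneg hl.le) (zt_lip hl)⟩
  rw [abs_of_nonneg (zt_nonneg _ _ _)]
  exact zt_le_one _ _ _

theorem et_cut {R l : ℝ} (hl : 0 < l) : IsCut (et (d := d) R l) (K0 / l) := by
  refine ⟨contDiff_const.sub (zt_smooth R l), fun x => ?_,
    grad_le_of_lip (div_nonneg K0_nonneg hl.le) fun x y => ?_⟩
  · unfold et
    rw [abs_of_nonneg (by linarith [zt_le_one R l x])]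
    linarith [zt_nonneg R l x]
  · unfold et
    have h1 : 1 - zt R l x - (1 - zt R l y) = -(zt R l x - zt R l y) := by ring
    rw [h1, abs_neg]
    exact zt_lip hl x y

theorem grad_zt_zero {R l : ℝ} (hl : 0 < l) {x : E d} (hx : Nf x ≤ R) :
    gradient (zt R l) x = 0 := by
  have h1 : IsLocalMin (zt R l) x := by
    refine Eventually.of_forall fun y => ?_
    rw [zt_zero hl hx]
    exact zt_nonneg _ _ _
  unfold gradient
  rw [h1.fderiv_eq_zero, map_zero]

theorem grad_et_zero {R l : ℝ} (hl : 0 < l) {x : E d} (hx : Nf x ≤ R) :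
    gradient (et R l) x = 0 := by
  have h1 : IsLocalMax (et R l) x := by
    refine Eventually.of_forall fun y => ?_
    unfold et
    rw [zt_zero hl hx]
    linarith [zt_nonneg R l y]
  unfold gradient
  rw [h1.fderiv_eq_zero, map_zero]

theorem et_ne_zero {R l : ℝ} (hl : 0 < l) {x : E d} (hx : et R l x ≠ 0) : Nf x < R + l := by
  by_contra h
  rw [not_lt] at h
  apply hx
  unfold et
  rw [zt_one hl h, sub_self]

end Pool.Agent.W791.OP
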