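import Pool.Agent.W791.OP.N

set_option autoImplicit false
open MeasureTheory Set Filter Topology Metric
open scoped ENNReal NNReal ContDiff RealInnerProductSpace

namespace Pool.Agent.W791.OP

variable {d : ℕ}

theorem indC_memLp {δ : ℝ} (hδ : 0 < δ) (z : Fin d → ℤ) :
    MemLp ((cub δ z).indicator (fun _ => (1 : ℝ))) 2 (volume : Measure (E d)) := by
  refine memLp_indicator_const 2 (measurableSet_cub δ hδ z) 1 (Or.inr ?_)
  rw [volume_cub δ hδ]
  exact ENNReal.ofReal_ne_top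

theorem etaC_memLp {δ : ℝ} (hδ : 0 < δ) {η : E d → ℝ} {L : ℝ} (hη : IsCut η L) (z : Fin d → ℤ) :
    MemLp (fun x => η x * (cub δ z).indicator (fun _ => (1 : ℝ)) x) 2 (volume : Measure (E d)) :=
  memLp_mul_cut hη (indC_memLp hδ z)

/-- finite rank operator: averages over cubes -/
noncomputable def T {δ : ℝ} (hδ : 0 < δ) {η : E d → ℝ} {L : ℝ} (hη : IsCut η L)
    (I : Finset (Fin d → ℤ)) (V : E d → ℝ≥0∞) :
    X V →L[ℝ] Lp ℝ 2 (volume : Measure (E d)) :=
  ∑ z ∈ I, (ContinuousLinearMap.toSpanSingleton ℝ ((indC_memLp hδ z).toLp _)).comp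
    ((innerSL ℝ ((δ ^ d)⁻¹ • (etaC_memLp hδ hη z).toLp _)).comp (J V))

theorem T_compact {δ : ℝ} (hδ : 0 < δ) {η : E d → ℝ} {L : ℝ} (hη : IsCut η L)
    (I : Finset (Fin d → ℤ)) (V : E d → ℝ≥0∞) : IsCompactOperator (T hδ hη I V) := by
  unfold T
  classical
  induction I using Finset.induction_on with
  | empty => simpa using isCompactOperator_zero
  | insert a s ha ih =>
    rw [Finset.sum_insert ha]
    have h1 : IsCompactOperator ((innerSL ℝ ((δ ^ d)⁻¹ • (etaC_memLp hδ hη a).toLp _)).comp (J V)) :=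
      isCompactOperator_of_locallyCompactSpace_dom _
    have h2 := h1.clm_comp (ContinuousLinearMap.toSpanSingleton ℝ ((indC_memLp hδ a).toLp _))
    exact IsCompactOperator.add h2 ih

theorem T_apply {δ : ℝ} (hδ : 0 < δ) {η : E d → ℝ} {L : ℝ} (hη : IsCut η L)
    (I : Finset (Fin d → ℤ)) (V : E d → ℝ≥0∞) (x : X V) :
    T hδ hη I V x = ∑ z ∈ I, ((δ ^ d)⁻¹ * ∫ y in cub δ z, η y * J V x y) •
      (indC_memLp hδ z).toLp _ := by
  unfold T
  rw [sum_apply]
  refine Finset.sum_congr rfl fun z _ => ?_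
  simp only [ContinuousLinearMap.comp_apply, ContinuousLinearMap.toSpanSingleton_apply,
    innerSL_apply_apply]
  congr 1
  rw [real_inner_smul_left, inner_toLp, ← integral_indicator (measurableSet_cub δ hδ z)]
  congr 2
  funext y
  by_cases hy : y ∈ cub δ z
  · simp [hy, mul_comm]
  · simp [hy]

theorem T_ae {δ : ℝ} (hδ : 0 < δ) {η : E d → ℝ} {L : ℝ} (hη : IsCut η L)
    (I : Finset (Fin d → ℤ)) (hI : ∀ y, η y ≠ 0 → idx δ y ∈ I) (V : E d → ℝ≥0∞) (x : X V) :
    ∀ᵐ y, T hδ hη I V x y = av δ (fun y => η y * J V x y) y := by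
  have h1 : ∀ᵐ y, ∀ z : I, (indC_memLp (d := d) hδ z).toLp _ y =
      (cub δ (z : Fin d → ℤ)).indicator (fun _ => (1 : ℝ)) y := by
    rw [ae_all_iff]
    intro z
    exact (indC_memLp hδ (z : Fin d → ℤ)).coeFn_toLp
  have h2 : ⇑(T hδ hη I V x) =ᵐ[volume] fun y => ∑ z ∈ I, ((δ ^ d)⁻¹ *
      ∫ y in cub δ z, η y * J V x y) * (indC_memLp (d := d) hδ z).toLp _ y := by
    rw [T_apply]
    clear hI h1
    classical
    induction I using Finset.induction_on with
    | empty =>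
      simp only [Finset.sum_empty]
      exact Lp.coeFn_zero _ _ _
    | insert a s ha ih =>
      rw [Finset.sum_insert ha]
      filter_upwards [ih, Lp.coeFn_add
        (((δ ^ d)⁻¹ * ∫ y in cub δ a, η y * J V x y) • (indC_memLp hδ a).toLp _)
        (∑ z ∈ s, ((δ ^ d)⁻¹ * ∫ y in cub δ z, η y * J V x y) • (indC_memLp hδ z).toLp _),
        Lp.coeFn_smul ((δ ^ d)⁻¹ * ∫ y in cub δ a, η y * J V x y) ((indC_memLp hδ a).toLp _)]
        with y h3 h4 h5
      rw [h4, Pi.add_apply, h3, h5, Finset.sum_insert ha]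
      rfl
  filter_upwards [h1, h2] with y h3 h4
  rw [h4]
  have h5 : ∑ z ∈ I, ((δ ^ d)⁻¹ * ∫ y in cub δ z, η y * J V x y) *
      (indC_memLp (d := d) hδ z).toLp _ y = ∑ z ∈ I, if z = idx δ y then
        ((δ ^ d)⁻¹ * ∫ y in cub δ z, η y * J V x y) else 0 := by
    refine Finset.sum_congr rfl fun z hz => ?_
    rw [h3 ⟨z, hz⟩]
    by_cases hzy : z = idx δ y
    · have : y ∈ cub δ z := hzy.symm
      rw [indicator_of_mem this, if_pos hzy, mul_one]
    · have : y ∉ cub δ z := fun h => hzy h.symm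
      rw [indicator_of_notMem this, if_neg hzy, mul_zero]
  rw [h5, Finset.sum_ite_eq' I (idx δ y)]
  split_ifs with h6
  · rfl
  · unfold av
    have h7 : ∫ y in cub δ (idx δ y), η y * J V x y = 0 := by
      apply setIntegral_eq_zero_of_forall_eq_zero
      intro t ht
      have h8 : idx δ t = idx δ y := ht
      by_cases h9 : η t = 0
      · rw [h9, zero_mul]
      · exact absurd (h8 ▸ hI t h9) h6
    rw [h7, mul_zero]

end Pool.Agent.W791.OP
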