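import Pool.Agent.W791.OP.P

set_option autoImplicit false
open MeasureTheory Set Filter Topology Metric
open scoped ENNReal NNReal ContDiff RealInnerProductSpace

namespace Pool.Agent.W791.OP

variable {d : ℕ}

/-- the outer region -/
def out (d : ℕ) (R : ℝ) : Set (E d) := {x | R < Nf x}

theorem meas_out (R : ℝ) : MeasurableSet (out d R) :=
  measurableSet_lt measurable_const Nf_smooth.continuous.measurable

theorem out_anti {R R' : ℝ} (h : R ≤ R') : out d R' ⊆ out d R := fun _ hx => lt_of_le_of_lt h hx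

theorem tail_zero {f : E d → ℝ≥0∞} (hf : ∫⁻ x, f x ≠ ⊤) {ε : ℝ≥0∞} (hε : 0 < ε) :
    ∃ R₀ : ℝ, 0 ≤ R₀ ∧ ∀ R, R₀ ≤ R → ∫⁻ x in out d R, f x ≤ ε := by
  set ν : Measure (E d) := volume.withDensity f with hν
  have h1 : ν univ ≠ ⊤ := by
    rw [hν, withDensity_apply _ MeasurableSet.univ]
    simpa using hf
  have h2 : Tendsto (fun n : ℕ => ν (out d (n : ℝ))) atTop (𝓝 (ν (⋂ n : ℕ, out d (n : ℝ)))) := by
    refine tendsto_measure_iInter_atTop (fun n => (meas_out _).nullMeasurableSet) ?_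
      ⟨0, (measure_mono (subset_univ _)).trans_lt h1.lt_top |>.ne⟩
    intro n m hnm
    exact out_anti (by exact_mod_cast hnm)
  have h3 : (⋂ n : ℕ, out d (n : ℝ)) = ∅ := by
    rw [eq_empty_iff_forall_notMem]
    intro x hx
    rw [mem_iInter] at hx
    obtain ⟨n, hn⟩ := exists_nat_ge (Nf x)
    exact absurd (hx n) (not_lt.2 hn)
  rw [h3, measure_empty] at h2
  obtain ⟨n, hn⟩ := (h2.eventually (eventually_le_nhds hε)).exists
  refine ⟨n, Nat.cast_nonneg n, fun R hR => ?_⟩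
  calc ∫⁻ x in out d R, f x ≤ ∫⁻ x in out d (n : ℝ), f x :=
        lintegral_mono_set (out_anti hR)
    _ = ν (out d (n : ℝ)) := (withDensity_apply _ (meas_out _)).symm
    _ ≤ ε := hn

theorem J_split {V : E d → ℝ≥0∞} (hV : AEMeasurable V volume) {R l : ℝ} (hl : 0 < l) (x : X V) :
    J V x = J V (cutX hV (et_cut (R := R) hl) (fun _ _ => rfl) x) +
      J V (cutX hV (zt_cut (R := R) hl) (fun _ _ => rfl) x) := by
  rw [J_cutX, J_cutX, ← MemLp.toLp_add]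
  apply Lp.ext
  refine EventuallyEq.symm ((MemLp.coeFn_toLp _).trans ?_)
  refine Eventually.of_forall fun y => ?_
  simp only [Pi.add_apply, et]
  ring

theorem J_out {V : E d → ℝ≥0∞} (hV : AEMeasurable V volume) {R l : ℝ} (hl : 0 < l) (x : X V) :
    ∀ᵐ y, y ∉ out d R → J V (cutX hV (zt_cut (R := R) hl) (fun _ _ => rfl) x) y = 0 := by
  rw [J_cutX]
  filter_upwards [(memLp_mul_cut (zt_cut (R := R) hl) (Lp.memLp (J V x))).coeFn_toLp] with y hy h
  rw [hy, zt_zero hl (not_lt.1 h), zero_mul]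

theorem approx {V : E d → ℝ≥0∞} (hV : AEMeasurable V volume) {p : ℝ} (hp : 0 < p) (hp1 : p ≤ 1)
    (hM : ∫⁻ x, V x ^ (-p) ≤ 1) {ε : ℝ} (hε : 0 < ε) :
    ∃ S : X V →L[ℝ] Lp ℝ 2 (volume : Measure (E d)), IsCompactOperator S ∧ ‖J V - S‖ ≤ ε := by
  set Q : ℝ := 2 + 2 * (K0 / 1) ^ 2 with hQ
  have hQ0 : 0 < Q := by positivity
  obtain ⟨τ, hτ, hτ1, hτ2⟩ : ∃ τ : ℝ, 0 < τ ∧ τ ≤ 1 ∧ C0 d * τ ^ 2 * Q ≤ (ε / 2) ^ 2 := by
    have h1 : Tendsto (fun τ : ℝ => C0 d * τ ^ 2 * Q) (𝓝[>] 0) (𝓝 0) := by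
      have : Continuous (fun τ : ℝ => C0 d * τ ^ 2 * Q) := by fun_prop
      have h2 := (this.tendsto 0).mono_left (nhdsWithin_le_nhds (s := Ioi 0))
      simpa using h2
    have h3 := h1.eventually (eventually_le_nhds (show (0:ℝ) < (ε / 2) ^ 2 by positivity))
    have h4 : ∀ᶠ τ : ℝ in 𝓝[>] 0, τ ≤ 1 :=
      nhdsWithin_le_nhds (eventually_le_nhds (by norm_num))
    obtain ⟨τ, h5, h6, h7⟩ := (h3.and (h4.and self_mem_nhdsWithin)).exists
    exact ⟨τ, h7, h6, h5⟩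
  obtain ⟨δ, hδ, hδ2⟩ : ∃ δ : ℝ, 0 < δ ∧ 2 ^ d * d * δ ^ 2 * Q ≤ (ε / 2) ^ 2 := by
    have h1 : Tendsto (fun δ : ℝ => 2 ^ d * d * δ ^ 2 * Q) (𝓝[>] 0) (𝓝 0) := by
      have : Continuous (fun δ : ℝ => 2 ^ d * d * δ ^ 2 * Q) := by fun_prop
      have h2 := (this.tendsto 0).mono_left (nhdsWithin_le_nhds (s := Ioi 0))
      simpa using h2
    have h3 := h1.eventually (eventually_le_nhds (show (0:ℝ) < (ε / 2) ^ 2 by positivity))
    obtain ⟨δ, h5, h7⟩ := (h3.and self_mem_nhdsWithin).exists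
    exact ⟨δ, h7, h5⟩
  obtain ⟨R, hR0, hR⟩ := tail_zero (ne_top_of_le_ne_top ENNReal.one_ne_top hM)
    (ε := ENNReal.ofReal (τ ^ (d + 4))) (ENNReal.ofReal_pos.2 (by positivity))
  have hR' := hR R le_rfl
  have h01 : (0 : ℝ) < 1 := one_pos
  set I : Finset (Fin d → ℤ) := Finset.Icc (fun _ => ⌊-(R + 1) / δ⌋) (fun _ => ⌊(R + 1) / δ⌋)
  have hI : ∀ y : E d, et R 1 y ≠ 0 → idx δ y ∈ I := by
    intro y hy
    have h1 := (norm_le_Nf y).trans (et_ne_zero h01 hy).le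
    rw [Finset.mem_Icc]
    have h2 : ∀ i, |y i| ≤ R + 1 := fun i => by
      have := PiLp.norm_apply_le y i
      rw [Real.norm_eq_abs] at this
      exact this.trans h1
    constructor
    · intro i
      apply Int.floor_le_floor
      have := (abs_le.1 (h2 i)).1
      gcongr
    · intro i
      apply Int.floor_le_floor
      have := (abs_le.1 (h2 i)).2
      gcongr
  refine ⟨T hδ (et_cut (R := R) h01) I V, T_compact _ _ _ _, ?_⟩
  refine ContinuousLinearMap.opNorm_le_bound _ hε.le fun x => ?_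
  rw [sub_apply, J_split hV (R := R) h01 x]
  have hb1 : ‖J V (cutX hV (zt_cut (R := R) h01) (fun _ _ => rfl) x)‖ ≤ ε / 2 * ‖x‖ := by
    have h1 := tail hV hp hp1 (meas_out R) hτ hτ1 hR' _ (J_out hV h01 x)
    have h2 := cut_bound hV (zt_cut (R := R) h01) (fun _ _ => rfl) x
    refine abs_le_of_sq_le_sq' ?_ (by positivity) |>.2
    calc ‖J V (cutX hV (zt_cut (R := R) h01) (fun _ _ => rfl) x)‖ ^ 2 ≤ _ := h1
      _ ≤ C0 d * τ ^ 2 * (Q * ‖x‖ ^ 2) := by
          have := C0_pos (d := d)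
          gcongr
      _ = (C0 d * τ ^ 2 * Q) * ‖x‖ ^ 2 := by ring
      _ ≤ (ε / 2) ^ 2 * ‖x‖ ^ 2 := by gcongr
      _ = _ := by ring
  have hb2 : ‖J V (cutX hV (et_cut (R := R) h01) (fun _ _ => rfl) x) -
      T hδ (et_cut (R := R) h01) I V x‖ ≤ ε / 2 * ‖x‖ := by
    set w := cutX hV (et_cut (R := R) h01) (fun _ _ => rfl) x with hw
    have h2 := cut_bound hV (et_cut (R := R) h01) (fun _ _ => rfl) x
    rw [← hw] at h2
    have h1 : ENNReal.ofReal (‖J V w - T hδ (et_cut (R := R) h01) I V x‖ ^ 2) ≤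
        ENNReal.ofReal (2 ^ d * d * δ ^ 2 * ‖(w : K d).snd.fst‖ ^ 2) := by
      rw [← lint_Lp, ← n2_Lp (w : K d).snd.fst]
      refine le_trans (le_of_eq ?_) (av_le hδ (Lp.memLp (J V w)) (Lp.memLp (w : K d).snd.fst) w.2.1)
      have h3 : ⇑(J V w) =ᵐ[volume] fun y => et R 1 y * J V x y := by
        rw [hw, J_cutX]
        exact MemLp.coeFn_toLp _
      refine lintegral_congr_ae ?_
      filter_upwards [Lp.coeFn_sub (J V w) (T hδ (et_cut (R := R) h01) I V x),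
        T_ae hδ (et_cut (R := R) h01) I hI V x] with y h4 h5
      rw [h4, Pi.sub_apply, h5, av_congr h3]
    have h3 := (ENNReal.ofReal_le_ofReal_iff (by positivity)).1 h1
    obtain ⟨-, h4, -⟩ := norms_le w
    refine abs_le_of_sq_le_sq' ?_ (by positivity) |>.2
    calc _ ≤ _ := h3
      _ ≤ 2 ^ d * d * δ ^ 2 * (Q * ‖x‖ ^ 2) := by
          gcongr
          exact h4.trans h2
      _ = (2 ^ d * d * δ ^ 2 * Q) * ‖x‖ ^ 2 := by ring
      _ ≤ (ε / 2) ^ 2 * ‖x‖ ^ 2 := by gcongr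
      _ = _ := by ring
  have e1 : J V (cutX hV (et_cut (R := R) h01) (fun _ _ => rfl) x) +
      J V (cutX hV (zt_cut (R := R) h01) (fun _ _ => rfl) x) - T hδ (et_cut (R := R) h01) I V x =
      (J V (cutX hV (et_cut (R := R) h01) (fun _ _ => rfl) x) -
        T hδ (et_cut (R := R) h01) I V x) +
      J V (cutX hV (zt_cut (R := R) h01) (fun _ _ => rfl) x) := by abel
  rw [e1]
  calc _ ≤ _ := norm_add_le _ _
    _ ≤ ε / 2 * ‖x‖ + ε / 2 * ‖x‖ := add_le_add hb2 hb1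
    _ = _ := by ring

theorem J_compact {V : E d → ℝ≥0∞} (hV : AEMeasurable V volume) {p : ℝ} (hp : 0 < p) (hp1 : p ≤ 1)
    (hM : ∫⁻ x, V x ^ (-p) ≤ 1) : IsCompactOperator (J V) := by
  have h : ∀ n : ℕ, ∃ S : X V →L[ℝ] Lp ℝ 2 (volume : Measure (E d)),
      IsCompactOperator S ∧ ‖J V - S‖ ≤ 1 / ((n : ℝ) + 1) :=
    fun n => approx hV hp hp1 hM (by positivity)
  choose S hS1 hS2 using h
  refine isCompactOperator_of_tendsto (F := S) (l := atTop) ?_ (Eventually.of_forall hS1)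
  have h3 : Tendsto (fun n => ‖S n - J V‖) atTop (𝓝 0) := by
    refine squeeze_zero (fun _ => ContinuousLinearMap.opNorm_nonneg _) (fun n => ?_)
      tendsto_one_div_add_atTop_nhds_zero_nat
    have h4 : ‖S n - J V‖ = ‖J V - S n‖ :=
      norm_sub_rev (E := X V →L[ℝ] Lp ℝ 2 (volume : Measure (E d))) _ _
    rw [h4]
    exact hS2 n
  exact tendsto_iff_norm_sub_tendsto_zero (E := X V →L[ℝ] Lp ℝ 2 (volume : Measure (E d))).2 h3

end Pool.Agent.W791.OP
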