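import Pool.Agent.W791.OP.Q

set_option autoImplicit false
open MeasureTheory Set Filter Topology Metric
open scoped ENNReal NNReal ContDiff RealInnerProductSpace

namespace Pool.Agent.W791.OP

variable {d : ℕ}

/-- linear combination of a finite family of functions -/
def comb {F : Type} [AddCommGroup F] [Module ℝ F] {k : ℕ} (c : Fin k → ℝ)
    (u : Fin k → E d → F) : E d → F := fun x => ∑ i, c i • u i x

/-- linearly independent family in the form domain -/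
def Adm (V : E d → ℝ≥0∞) {k : ℕ} (u : Fin k → E d → ℝ) (G : Fin k → E d → E d) : Prop :=
  (∀ i, MemH V (u i) (G i)) ∧ ∀ c : Fin k → ℝ, c ≠ 0 → ¬ (comb c u =ᵐ[volume] 0)

/-- the quadratic form -/
noncomputable def energy (V : E d → ℝ≥0∞) (u : E d → ℝ) (G : E d → E d) : ℝ≥0∞ :=
  (∫⁻ x, ‖G x‖ₑ ^ 2) + ∫⁻ x, V x * ‖u x‖ₑ ^ 2

/-- the min-max value -/
noncomputable def lam (k : ℕ) (V : E d → ℝ≥0∞) : ℝ≥0∞ :=
  ⨅ (u : Fin k → E d → ℝ) (G : Fin k → E d → E d) (_ : Adm V u G),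
    ⨆ (c : Fin k → ℝ) (_ : c ≠ 0),
      energy V (comb c u) (comb c G) / ∫⁻ x, ‖comb c u x‖ₑ ^ 2

theorem coeFn_comb {F : Type} [NormedAddCommGroup F] [InnerProductSpace ℝ F] {k : ℕ}
    (c : Fin k → ℝ) (f : Fin k → Lp F 2 (volume : Measure (E d))) :
    ⇑(∑ i, c i • f i) =ᵐ[volume] comb c (fun i => ⇑(f i)) := by
  unfold comb
  have h : ∀ s : Finset (Fin k), ⇑(∑ i ∈ s, c i • f i) =ᵐ[volume] fun x => ∑ i ∈ s, c i • f i x := by
    intro s
    classical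
    induction s using Finset.induction_on with
    | empty =>
      simp only [Finset.sum_empty]
      exact Lp.coeFn_zero _ _ _
    | insert a s ha ih =>
      rw [Finset.sum_insert ha]
      filter_upwards [ih, Lp.coeFn_add (c a • f a) (∑ i ∈ s, c i • f i),
        Lp.coeFn_smul (c a) (f a)] with y h3 h4 h5
      rw [h4, Pi.add_apply, h3, h5, Finset.sum_insert ha]
      rfl
  exact h Finset.univ

theorem comb_congr {F : Type} [NormedAddCommGroup F] [InnerProductSpace ℝ F] {k : ℕ}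
    (c : Fin k → ℝ) {f g : Fin k → E d → F} (h : ∀ i, f i =ᵐ[volume] g i) :
    comb c f =ᵐ[volume] comb c g := by
  have h1 : ∀ᵐ x, ∀ i, f i x = g i x := by
    rw [ae_all_iff]
    exact h
  filter_upwards [h1] with x hx
  unfold comb
  exact Finset.sum_congr rfl fun i _ => by rw [hx i]

theorem energy_X {V : E d → ℝ≥0∞} (x : X V) {u : E d → ℝ} {G : E d → E d}
    (hu : u =ᵐ[volume] J V x) (hG : G =ᵐ[volume] (x : K d).snd.fst) :
    energy V u G = ENNReal.ofReal (‖(x : K d).snd.fst‖ ^ 2 + ‖(x : K d).snd.snd‖ ^ 2) := by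
  unfold energy
  rw [ENNReal.ofReal_add (by positivity) (by positivity), ← lint_Lp, ← lint_V]
  congr 1
  · refine lintegral_congr_ae ?_
    filter_upwards [hG] with y hy
    rw [hy]
  · refine lintegral_congr_ae ?_
    filter_upwards [hu] with y hy
    rw [hy]

theorem J_sum {V : E d → ℝ≥0∞} {k : ℕ} (c : Fin k → ℝ) (x : Fin k → X V) :
    J V (∑ i, c i • x i) = ∑ i, c i • J V (x i) := by
  rw [map_sum]
  simp only [map_smul]

/-- the gradient component -/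
noncomputable def JG (V : E d → ℝ≥0∞) : X V →ₗ[ℝ] Lp (E d) 2 (volume : Measure (E d)) where
  toFun x := (x : K d).snd.fst
  map_add' _ _ := rfl
  map_smul' _ _ := rfl

theorem JG_apply (V : E d → ℝ≥0∞) (x : X V) : JG V x = (x : K d).snd.fst := rfl

theorem JG_sum {V : E d → ℝ≥0∞} {k : ℕ} (c : Fin k → ℝ) (x : Fin k → X V) :
    JG V (∑ i, c i • x i) = ∑ i, c i • JG V (x i) := by
  rw [map_sum]
  simp only [map_smul]

theorem lam_le_X {V : E d → ℝ≥0∞} {k : ℕ} {Λ : ℝ} (hΛ : 0 ≤ Λ) (x : Fin k → X V)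
    (h : ∀ c : Fin k → ℝ, c ≠ 0 → J V (∑ i, c i • x i) ≠ 0 ∧
      ‖∑ i, c i • x i‖ ^ 2 ≤ (1 + Λ) * ‖J V (∑ i, c i • x i)‖ ^ 2) :
    lam k V ≤ ENNReal.ofReal Λ := by
  unfold lam
  have e1 : ∀ c : Fin k → ℝ, comb c (fun i => ⇑(J V (x i))) =ᵐ[volume] J V (∑ i, c i • x i) := by
    intro c
    rw [J_sum]
    exact (coeFn_comb c _).symm
  have e2 : ∀ c : Fin k → ℝ, comb c (fun i => ⇑(JG V (x i))) =ᵐ[volume]
      ((∑ i, c i • x i : X V) : K d).snd.fst := by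
    intro c
    rw [← JG_apply, JG_sum]
    exact (coeFn_comb c _).symm
  have hadm : Adm V (fun i => ⇑(J V (x i))) (fun i => ⇑(JG V (x i))) := by
    refine ⟨fun i => memH_of_X (x i), fun c hc h0 => (h c hc).1 ?_⟩
    apply Lp.ext
    exact ((e1 c).symm.trans h0).trans (Lp.coeFn_zero _ _ _).symm
  refine iInf₂_le_of_le _ _ (iInf_le_of_le hadm (iSup₂_le fun c hc => ?_))
  apply ENNReal.div_le_of_le_mul
  rw [energy_X (∑ i, c i • x i) (e1 c) (e2 c)]
  have e3 : ∫⁻ y, ‖comb c (fun i => ⇑(J V (x i))) y‖ₑ ^ 2 =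
      ENNReal.ofReal (‖J V (∑ i, c i • x i)‖ ^ 2) := by
    rw [← lint_Lp]
    refine lintegral_congr_ae ?_
    filter_upwards [e1 c] with y hy
    rw [hy]
  rw [e3, ← ENNReal.ofReal_mul hΛ]
  apply ENNReal.ofReal_le_ofReal
  have := (h c hc).2
  rw [norm_sq_X] at this
  linarith

theorem lam_X {V : E d → ℝ≥0∞} (hV : AEMeasurable V volume) {k : ℕ} {Λ : ℝ} (hΛ : 0 ≤ Λ)
    (h : lam k V < ENNReal.ofReal Λ) : ∃ x : Fin k → X V, ∀ c : Fin k → ℝ, c ≠ 0 →
      J V (∑ i, c i • x i) ≠ 0 ∧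
      ‖∑ i, c i • x i‖ ^ 2 ≤ (1 + Λ) * ‖J V (∑ i, c i • x i)‖ ^ 2 := by
  unfold lam at h
  rw [iInf_lt_iff] at h
  obtain ⟨u, h⟩ := h
  rw [iInf_lt_iff] at h
  obtain ⟨G, h⟩ := h
  rw [iInf_lt_iff] at h
  obtain ⟨hadm, h⟩ := h
  refine ⟨fun i => mk hV (hadm.1 i), fun c hc => ?_⟩
  set w : X V := ∑ i, c i • mk hV (hadm.1 i) with hw
  have e1 : comb c u =ᵐ[volume] J V w := by
    rw [hw, J_sum]
    refine EventuallyEq.trans (comb_congr c fun i => ?_) (coeFn_comb c _).symm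
    rw [J_mk]
    exact (MemLp.coeFn_toLp _).symm
  have e2 : comb c G =ᵐ[volume] (w : K d).snd.fst := by
    rw [← JG_apply, hw, JG_sum]
    refine EventuallyEq.trans (comb_congr c fun i => ?_) (coeFn_comb c _).symm
    rw [JG_apply, mk_snd_fst]
    exact (MemLp.coeFn_toLp _).symm
  have h0 : J V w ≠ 0 := by
    intro h0
    refine hadm.2 c hc (e1.trans ?_)
    rw [h0]
    exact Lp.coeFn_zero _ _ _
  refine ⟨h0, ?_⟩
  have e3 : ∫⁻ y, ‖comb c u y‖ₑ ^ 2 = ENNReal.ofReal (‖J V w‖ ^ 2) := by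
    rw [← lint_Lp]
    refine lintegral_congr_ae ?_
    filter_upwards [e1] with y hy
    rw [hy]
  have h1 := (le_iSup₂ (f := fun (c : Fin k → ℝ) (_ : c ≠ 0) =>
    energy V (comb c u) (comb c G) / ∫⁻ x, ‖comb c u x‖ₑ ^ 2) c hc).trans h.le
  simp only [e3] at h1
  rw [energy_X w e1 e2] at h1
  have hpos : 0 < ‖J V w‖ ^ 2 := by positivity
  rw [ENNReal.div_le_iff (ENNReal.ofReal_pos.2 hpos).ne' ENNReal.ofReal_ne_top, ← ENNReal.ofReal_mul hΛ,
    ENNReal.ofReal_le_ofReal_iff (by positivity)] at h1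
  rw [norm_sq_X]
  linarith

end Pool.Agent.W791.OP
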