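import Pool.Agent.W791.OP.R

set_option autoImplicit false
open MeasureTheory Set Filter Topology Metric
open scoped ENNReal NNReal ContDiff RealInnerProductSpace

namespace Pool.Agent.W791.OP

variable {d : ℕ}

/-- an orthonormal family of eigenvectors with `1/(1+λ) = μ ≥ b` -/
structure Fam (V : E d → ℝ≥0∞) (k : ℕ) (b : ℝ) where
  e : Fin k → X V
  μ : Fin k → ℝ
  on : Orthonormal ℝ e
  hμ : ∀ i, b ≤ μ i
  eig : ∀ i y, ⟪J V (e i), J V y⟫ = μ i * ⟪e i, y⟫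

theorem exists_fam_aux {V : E d → ℝ≥0∞} {k : ℕ} {b : ℝ} (hb : 0 < b)
    (h : ∀ b' < b, ∃ w : Fin k → X V, ∀ c : Fin k → ℝ, c ≠ 0 →
      ∑ i, c i • w i ≠ 0 ∧ b' * ‖∑ i, c i • w i‖ ^ 2 ≤ ‖J V (∑ i, c i • w i)‖ ^ 2)
    (hJ : IsCompactOperator (J V)) :
    ∃ e : Fin k → X V, ∃ μ : Fin k → ℝ, Orthonormal ℝ e ∧
      ∀ i, b ≤ μ i ∧ ∀ y, ⟪J V (e i), J V y⟫ = μ i * ⟪e i, y⟫ := by
  have h1 := eigs_J (X := X V) (Z := Lp ℝ 2 (volume : Measure (E d))) (J V)
    (by with_reducible_and_instances exact hJ) hb k (by with_reducible_and_instances exact h)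
  with_reducible_and_instances exact h1

theorem exists_fam {V : E d → ℝ≥0∞} (hV : AEMeasurable V volume) {p : ℝ} (hp : 0 < p)
    (hp1 : p ≤ 1) (hM : ∫⁻ x, V x ^ (-p) ≤ 1) {k : ℕ} {Λ : ℝ} (hΛ : 0 ≤ Λ)
    (h : lam k V ≤ ENNReal.ofReal Λ) : Nonempty (Fam V k (1 + Λ)⁻¹) := by
  have hb : 0 < (1 + Λ)⁻¹ := by positivity
  have hw : ∀ b' < (1 + Λ)⁻¹, ∃ w : Fin k → X V, ∀ c : Fin k → ℝ, c ≠ 0 →
      ∑ i, c i • w i ≠ 0 ∧ b' * ‖∑ i, c i • w i‖ ^ 2 ≤ ‖J V (∑ i, c i • w i)‖ ^ 2 := by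
    intro b' hb'
    set b'' : ℝ := max b' ((1 + Λ)⁻¹ / 2) with hb''
    have h1 : b' ≤ b'' := le_max_left _ _
    have h2 : 0 < b'' := lt_of_lt_of_le (by positivity) (le_max_right _ _)
    have h3 : b'' < (1 + Λ)⁻¹ := max_lt hb' (by linarith)
    have h4 : 1 + Λ < b''⁻¹ := by
      rw [lt_inv_comm₀ (by positivity) h2]
      exact h3
    obtain ⟨x, hx⟩ := lam_X hV (k := k) (Λ := b''⁻¹ - 1) (by linarith)
      (h.trans_lt ((ENNReal.ofReal_lt_ofReal_iff (by linarith)).2 (by linarith)))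
    refine ⟨x, fun c hc => ?_⟩
    obtain ⟨h5, h6⟩ := hx c hc
    refine ⟨fun h7 => h5 (by rw [h7, map_zero]), ?_⟩
    have h7 : 1 + (b''⁻¹ - 1) = b''⁻¹ := by ring
    rw [h7, inv_mul_eq_div, le_div_iff₀ h2] at h6
    nlinarith [sq_nonneg ‖∑ i, c i • x i‖]
  obtain ⟨e, μ, he, hμ⟩ := exists_fam_aux hb hw (J_compact hV hp hp1 hM)
  exact ⟨⟨e, μ, he, fun i => (hμ i).1, fun i y => (hμ i).2 y⟩⟩

variable {V : E d → ℝ≥0∞} {k : ℕ} {b : ℝ}

/-- sum of squares of the eigenfunctions -/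
noncomputable def Fam.s (f : Fam V k b) (x : E d) : ℝ := ∑ i, (J V (f.e i) x) ^ 2

theorem Fam.s_int (f : Fam V k b) : Integrable f.s volume := by
  unfold Fam.s
  exact integrable_finsetSum _ fun i _ => (Lp.memLp (J V (f.e i))).integrable_sq

theorem Fam.s_nonneg (f : Fam V k b) (x : E d) : 0 ≤ f.s x :=
  Finset.sum_nonneg fun _ _ => sq_nonneg _

/-- mass of the eigenfunctions in the outer region -/
noncomputable def Fam.A (f : Fam V k b) (R : ℝ) : ℝ := ∫ x in out d R, f.s x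

theorem Fam.A_nonneg (f : Fam V k b) (R : ℝ) : 0 ≤ f.A R :=
  integral_nonneg fun x => f.s_nonneg x

theorem Fam.A_anti (f : Fam V k b) {R R' : ℝ} (h : R ≤ R') : f.A R' ≤ f.A R :=
  setIntegral_mono_set f.s_int.integrableOn (Eventually.of_forall fun x => f.s_nonneg x)
    (Eventually.of_forall (out_anti h))

theorem Fam.A_tail (f : Fam V k b) {ε : ℝ} (hε : 0 < ε) :
    ∃ R₀ : ℝ, 0 ≤ R₀ ∧ ∀ R, R₀ ≤ R → f.A R ≤ ε := by
  have h1 : ∫⁻ x, ENNReal.ofReal (f.s x) ≠ ⊤ := by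
    rw [← ofReal_integral_eq_lintegral_ofReal f.s_int (Eventually.of_forall fun x => f.s_nonneg x)]
    exact ENNReal.ofReal_ne_top
  obtain ⟨R₀, h0, h2⟩ := tail_zero h1 (ε := ENNReal.ofReal ε) (ENNReal.ofReal_pos.2 hε)
  refine ⟨R₀, h0, fun R hR => ?_⟩
  have h3 := h2 R hR
  rw [← ofReal_integral_eq_lintegral_ofReal f.s_int.integrableOn
    (Eventually.of_forall fun x => f.s_nonneg x)] at h3
  exact (ENNReal.ofReal_le_ofReal_iff hε.le).1 h3

theorem Fam.A_eq (f : Fam V k b) (R : ℝ) :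
    f.A R = ∑ i, ∫ x in out d R, (J V (f.e i) x) ^ 2 := by
  unfold Fam.A Fam.s
  rw [integral_finsetSum]
  intro i _
  exact (Lp.memLp (J V (f.e i))).integrable_sq.integrableOn

/-- second inequality: decay of the eigenfunctions -/
theorem Fam.step2 (f : Fam V k b) (hb : 0 < b) (hV : AEMeasurable V volume) {p : ℝ} (hp : 0 < p)
    (hp1 : p ≤ 1) {R l τ : ℝ} (hl : 0 < l) (hτ : 0 < τ) (hτ1 : τ ≤ 1)
    (hM : ∫⁻ x in out d R, V x ^ (-p) ≤ ENNReal.ofReal (τ ^ (d + 4))) :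
    f.A (R + l) ≤ C0 d * τ ^ 2 * (b⁻¹ + (K0 / l) ^ 2) * f.A R := by
  rw [f.A_eq, f.A_eq, Finset.mul_sum]
  refine Finset.sum_le_sum fun i _ => ?_
  set u := J V (f.e i) with hu
  have hui : Integrable (fun x => u x ^ 2) volume := (Lp.memLp u).integrable_sq
  set y := cutX hV (zt_cut (R := R) hl) (fun _ _ => rfl) (f.e i) with hy
  have h1 := tail hV hp hp1 (meas_out R) hτ hτ1 hM _ (J_out hV hl (f.e i))
  have h2 : ∫ x in out d (R + l), u x ^ 2 ≤ ‖J V y‖ ^ 2 := by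
    rw [hy, norm_J_cutX, ← integral_indicator (meas_out _)]
    refine integral_mono_of_nonneg (Eventually.of_forall fun x => ?_) ?_
      (Eventually.of_forall fun x => ?_)
    · exact indicator_nonneg (fun x _ => sq_nonneg _) x
    · exact hui.bdd_mul (zt_smooth R l |>.continuous.pow 2).aestronglyMeasurable
        (c := 1) (Eventually.of_forall fun x => by
          rw [Real.norm_eq_abs, abs_pow]
          exact pow_le_one₀ (abs_nonneg _) ((zt_cut hl).le_one x))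
    · by_cases hx : x ∈ out d (R + l)
      · rw [indicator_of_mem hx]
        show _ ≤ zt R l x ^ 2 * u x ^ 2
        rw [zt_one hl (le_of_lt hx)]
        simp
      · rw [indicator_of_notMem hx]
        positivity
  have hμ : 0 < f.μ i := hb.trans_le (f.hμ i)
  have h3 : ‖y‖ ^ 2 ≤ (b⁻¹ + (K0 / l) ^ 2) * ∫ x in out d R, u x ^ 2 := by
    rw [hy, ims hV hV]
    have h4 : ⟪f.e i, cutX hV (zt_cut (R := R) hl).sq (fun _ _ => rfl) (f.e i)⟫ =
        (f.μ i)⁻¹ * ∫ x, zt R l x ^ 2 * u x ^ 2 := by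
      have h5 := f.eig i (cutX hV (zt_cut (R := R) hl).sq (fun _ _ => rfl) (f.e i))
      rw [inner_J_cutX] at h5
      rw [eq_inv_mul_iff_mul_eq₀ hμ.ne', ← h5]
      congr 1
      funext x
      ring
    have h6 : ∫ x, zt R l x ^ 2 * u x ^ 2 ≤ ∫ x in out d R, u x ^ 2 := by
      rw [← integral_indicator (meas_out _)]
      refine integral_mono_of_nonneg (Eventually.of_forall fun x => by positivity)
        (hui.indicator (meas_out _)) (Eventually.of_forall fun x => ?_)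
      by_cases hx : x ∈ out d R
      · rw [indicator_of_mem hx]
        refine mul_le_of_le_one_left (sq_nonneg _) ?_
        exact pow_le_one₀ (zt_nonneg _ _ _) (zt_le_one _ _ _)
      · rw [indicator_of_notMem hx]
        show zt R l x ^ 2 * u x ^ 2 ≤ 0
        rw [zt_zero hl (not_lt.1 hx)]
        simp
    have h7 : ∫ x, u x ^ 2 * ‖gradient (zt R l) x‖ ^ 2 ≤ (K0 / l) ^ 2 * ∫ x in out d R, u x ^ 2 := by
      rw [← integral_indicator (meas_out _), ← integral_const_mul]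
      refine integral_mono_of_nonneg (Eventually.of_forall fun x => by positivity)
        ((hui.indicator (meas_out _)).const_mul _) (Eventually.of_forall fun x => ?_)
      by_cases hx : x ∈ out d R
      · simp only [indicator_of_mem hx]
        rw [mul_comm]
        have := (zt_cut (d := d) (R := R) hl).grad x
        gcongr
      · simp only [indicator_of_notMem hx]
        rw [grad_zt_zero hl (not_lt.1 hx)]
        simp
    have h8 : (f.μ i)⁻¹ ≤ b⁻¹ := inv_anti₀ hb (f.hμ i)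
    have h9 : 0 ≤ ∫ x, zt R l x ^ 2 * u x ^ 2 := integral_nonneg fun x => by positivity
    rw [h4]
    calc (f.μ i)⁻¹ * (∫ x, zt R l x ^ 2 * u x ^ 2) + ∫ x, u x ^ 2 * ‖gradient (zt R l) x‖ ^ 2
        ≤ b⁻¹ * (∫ x in out d R, u x ^ 2) + (K0 / l) ^ 2 * ∫ x in out d R, u x ^ 2 := by
          refine add_le_add (mul_le_mul h8 h6 h9 (by positivity)) h7
      _ = _ := by ring
  have hC := C0_pos (d := d)
  calc ∫ x in out d (R + l), u x ^ 2 ≤ ‖J V y‖ ^ 2 := h2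
    _ ≤ C0 d * τ ^ 2 * ‖y‖ ^ 2 := h1
    _ ≤ C0 d * τ ^ 2 * ((b⁻¹ + (K0 / l) ^ 2) * ∫ x in out d R, u x ^ 2) := by gcongr
    _ = _ := by ring

end Pool.Agent.W791.OP
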