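import Pool.Agent.W791.OP.U

set_option autoImplicit false
open MeasureTheory Set Filter Topology Metric
open scoped ENNReal NNReal ContDiff RealInnerProductSpace

namespace Pool.Agent.W791.OP

variable {d : ℕ}

theorem X_ext {V : E d → ℝ≥0∞} {y z : X V} (h1 : J V y = J V z) (h2 : JG V y = JG V z) :
    y = z := by
  have h3 : (y : K d).snd.snd = (z : K d).snd.snd := by
    apply Lp.ext
    have h4 : (y : K d).fst = (z : K d).fst := h1
    filter_upwards [y.2.2.2, z.2.2.2] with x hy hz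
    rw [hy, hz, h4]
  apply Subtype.ext
  have e : ∀ k k' : K d, k.fst = k'.fst → k.snd.fst = k'.snd.fst → k.snd.snd = k'.snd.snd →
      k = k' := by
    intro k k' a1 a2 a3
    apply WithLp.ofLp_injective
    apply Prod.ext
    · exact a1
    · apply WithLp.ofLp_injective
      exact Prod.ext a2 a3
  exact e _ _ h1 h2 h3

theorem smul_key (c η u : ℝ) (g n : E d) :
    c • (η • g + u • n) = η • (c • g) + (c * u) • n := by
  rw [smul_add, smul_smul, smul_smul, smul_smul, mul_comm c η]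

theorem JG_cutX_ae {V V' : E d → ℝ≥0∞} (hV' : AEMeasurable V' volume) {η : E d → ℝ} {L : ℝ}
    (hη : IsCut η L) (hVV : ∀ x, η x ≠ 0 → V' x = V x) (x : X V) :
    ∀ᵐ y, JG V' (cutX hV' hη hVV x) y = η y • JG V x y + J V x y • gradient η y := by
  have h1 : JG V' (cutX hV' hη hVV x) = ((memLp_smul_cut hη (Lp.memLp (x : K d).snd.fst)).add
        (memLp_smul_grad hη (Lp.memLp (J V x)))).toLp _ := rfl
  rw [h1]
  filter_upwards [((memLp_smul_cut hη (Lp.memLp (x : K d).snd.fst)).add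
    (memLp_smul_grad hη (Lp.memLp (J V x)))).coeFn_toLp] with y hy
  rw [hy]
  rfl

theorem J_cutX_ae {V V' : E d → ℝ≥0∞} (hV' : AEMeasurable V' volume) {η : E d → ℝ} {L : ℝ}
    (hη : IsCut η L) (hVV : ∀ x, η x ≠ 0 → V' x = V x) (x : X V) :
    ∀ᵐ y, J V' (cutX hV' hη hVV x) y = η y * J V x y := by
  rw [J_cutX]
  exact (memLp_mul_cut hη (Lp.memLp (J V x))).coeFn_toLp

theorem cut_lin {V V' : E d → ℝ≥0∞} (hV' : AEMeasurable V' volume) {η : E d → ℝ} {L : ℝ}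
    (hη : IsCut η L) (hVV : ∀ x, η x ≠ 0 → V' x = V x) {k : ℕ} (c : Fin k → ℝ)
    (x : Fin k → X V) :
    ∑ i, c i • cutX hV' hη hVV (x i) = cutX hV' hη hVV (∑ i, c i • x i) := by
  have hu : ∀ᵐ y, J V (∑ i, c i • x i) y = ∑ i, c i * J V (x i) y := by
    rw [J_sum]
    exact coeFn_comb c _
  have hG : ∀ᵐ y, JG V (∑ i, c i • x i) y = ∑ i, c i • JG V (x i) y := by
    rw [JG_sum]
    exact coeFn_comb c _
  apply X_ext
  · rw [J_sum]
    apply Lp.ext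
    have h1 : ∀ᵐ y, ∀ i, J V' (cutX hV' hη hVV (x i)) y = η y * J V (x i) y := by
      rw [ae_all_iff]
      exact fun i => J_cutX_ae hV' hη hVV (x i)
    filter_upwards [coeFn_comb c (fun i => J V' (cutX hV' hη hVV (x i))), h1, hu,
      J_cutX_ae hV' hη hVV (∑ i, c i • x i)] with y h2 h3 h4 h5
    rw [h2, h5, h4, comb, Finset.mul_sum]
    refine Finset.sum_congr rfl fun i _ => ?_
    rw [h3 i, smul_eq_mul]
    ring
  · rw [JG_sum]
    apply Lp.ext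
    have h1 : ∀ᵐ y, ∀ i, JG V' (cutX hV' hη hVV (x i)) y =
        η y • JG V (x i) y + J V (x i) y • gradient η y := by
      rw [ae_all_iff]
      exact fun i => JG_cutX_ae hV' hη hVV (x i)
    have h6 := JG_cutX_ae hV' hη hVV (∑ i, c i • x i)
    filter_upwards [coeFn_comb c (fun i => JG V' (cutX hV' hη hVV (x i))), h1, hu, hG, h6]
      with y h2 h3 h4 h5 h7
    rw [h2, h7, h4, h5, comb, Finset.smul_sum, Finset.sum_smul, ← Finset.sum_add_distrib]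
    refine Finset.sum_congr rfl fun i _ => ?_
    rw [h3 i]
    exact smul_key _ _ _ _ _

theorem cs_sum {k : ℕ} (c a u : Fin k → ℝ) {β : ℝ} (hβ : 0 ≤ β) (h0 : ∀ i, 0 ≤ a i)
    (ha : ∀ i, a i ≤ β) :
    |(∑ i, c i * a i * u i) * ∑ i, c i * u i| ≤ β * (∑ i, c i ^ 2) * ∑ i, u i ^ 2 := by
  have h1 : (∑ i, c i * u i) ^ 2 ≤ (∑ i, c i ^ 2) * ∑ i, u i ^ 2 :=
    Finset.sum_mul_sq_le_sq_mul_sq _ _ _
  have h2 : (∑ i, c i * a i * u i) ^ 2 ≤ (∑ i, (c i * a i) ^ 2) * ∑ i, u i ^ 2 :=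
    Finset.sum_mul_sq_le_sq_mul_sq _ _ _
  have h3 : ∑ i, (c i * a i) ^ 2 ≤ β ^ 2 * ∑ i, c i ^ 2 := by
    rw [Finset.mul_sum]
    refine Finset.sum_le_sum fun i _ => ?_
    have : a i ^ 2 ≤ β ^ 2 := pow_le_pow_left₀ (h0 i) (ha i) 2
    rw [mul_pow, mul_comm]
    gcongr
  have hc : 0 ≤ ∑ i, c i ^ 2 := Finset.sum_nonneg fun _ _ => sq_nonneg _
  have hu : 0 ≤ ∑ i, u i ^ 2 := Finset.sum_nonneg fun _ _ => sq_nonneg _
  apply abs_le_of_sq_le_sq
  · rw [mul_pow]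
    calc (∑ i, c i * a i * u i) ^ 2 * (∑ i, c i * u i) ^ 2
        ≤ ((β ^ 2 * ∑ i, c i ^ 2) * ∑ i, u i ^ 2) * ((∑ i, c i ^ 2) * ∑ i, u i ^ 2) := by
          refine mul_le_mul (h2.trans ?_) h1 (sq_nonneg _) (by positivity)
          gcongr
      _ = _ := by ring
  · positivity

theorem pt1 {e gu u2 G2 s Cn K' bi : ℝ} (ha : |gu| ≤ bi * Cn * s) (hb : u2 ≤ Cn * s)
    (h0 : 0 ≤ Cn * s) (hG : 0 ≤ G2) (hG' : G2 ≤ K') (he : 0 ≤ e) (he1 : e ≤ 1) :
    e * gu + u2 * G2 ≤ gu + (bi + K') * Cn * s := by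
  have h1 : (e - 1) * gu ≤ bi * Cn * s := by
    refine (le_abs_self _).trans ?_
    rw [abs_mul]
    have h7 : |e - 1| ≤ 1 := by
      rw [abs_le]
      constructor <;> linarith
    exact (mul_le_of_le_one_left (abs_nonneg _) h7).trans ha
  have h2 : u2 * G2 ≤ (Cn * s) * K' := mul_le_mul hb hG' hG h0
  linarith

theorem pt2 {e u2 s Cn : ℝ} (hb : u2 ≤ Cn * s) (he : 0 ≤ e) (hu : 0 ≤ u2) :
    u2 - Cn * s ≤ e * u2 := by
  have := mul_nonneg he hu
  linarith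

section comp

variable {V : E d → ℝ≥0∞} {k : ℕ} {b : ℝ}

theorem Fam.norm_sum (f : Fam V k b) (c : Fin k → ℝ) :
    ‖∑ i, c i • f.e i‖ ^ 2 = ∑ i, c i ^ 2 := by
  rw [← real_inner_self_eq_norm_sq]
  have h := f.on.inner_sum c c Finset.univ
  rw [h]
  refine Finset.sum_congr rfl fun i _ => ?_
  simp only [conj_trivial]
  ring

theorem Fam.inner_e (f : Fam V k b) (c : Fin k → ℝ) (j : Fin k) :
    ⟪f.e j, ∑ i, c i • f.e i⟫ = c j := f.on.inner_right_fintype c j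

/-- the weighted combination `∑ c_i μ_i⁻¹ J e_i` -/
noncomputable def Fam.g (f : Fam V k b) (c : Fin k → ℝ) : Lp ℝ 2 (volume : Measure (E d)) :=
  ∑ i, (c i * (f.μ i)⁻¹) • J V (f.e i)

theorem Fam.inner_g (f : Fam V k b) (hb : 0 < b) (c : Fin k → ℝ) (y : X V) :
    ⟪∑ i, c i • f.e i, y⟫ = ⟪f.g c, J V y⟫ := by
  unfold Fam.g
  rw [sum_inner, sum_inner]
  refine Finset.sum_congr rfl fun i _ => ?_
  have e1 : ⟪c i • f.e i, y⟫ = c i * ⟪f.e i, y⟫ := by
    with_reducible_and_instances exact real_inner_smul_left (f.e i) y (c i)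
  rw [e1, real_inner_smul_left, f.eig]
  have hμ : 0 < f.μ i := hb.trans_le (f.hμ i)
  field_simp

theorem Fam.norm_J (f : Fam V k b) (c : Fin k → ℝ) :
    ‖J V (∑ i, c i • f.e i)‖ ^ 2 = ∑ i, f.μ i * c i ^ 2 := by
  rw [← real_inner_self_eq_norm_sq]
  have h1 : ⟪J V (∑ i, c i • f.e i), J V (∑ i, c i • f.e i)⟫ =
      ∑ i, c i * ⟪J V (f.e i), J V (∑ i, c i • f.e i)⟫ := by
    conv_lhs => rw [J_sum, sum_inner]
    refine Finset.sum_congr rfl fun i _ => ?_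
    rw [real_inner_smul_left, J_sum]
  rw [h1]
  refine Finset.sum_congr rfl fun i _ => ?_
  rw [f.eig, f.inner_e]
  ring

theorem Fam.pt (f : Fam V k b) (hb : 0 < b) (c : Fin k → ℝ) :
    ∀ᵐ y, |f.g c y * J V (∑ i, c i • f.e i) y| ≤ b⁻¹ * (∑ i, c i ^ 2) * f.s y ∧
      (J V (∑ i, c i • f.e i) y) ^ 2 ≤ (∑ i, c i ^ 2) * f.s y := by
  have h1 := coeFn_comb (fun i => c i * (f.μ i)⁻¹) (fun i => J V (f.e i))
  have h2 := coeFn_comb c (fun i => J V (f.e i))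
  rw [← J_sum] at h2
  filter_upwards [h1, h2] with y h3 h4
  have h5 : f.g c y = ∑ i, c i * (f.μ i)⁻¹ * J V (f.e i) y := h3
  have h6 : J V (∑ i, c i • f.e i) y = ∑ i, c i * J V (f.e i) y := h4
  rw [h5, h6]
  have hμ : ∀ i, 0 < f.μ i := fun i => hb.trans_le (f.hμ i)
  constructor
  · exact cs_sum c (fun i => (f.μ i)⁻¹) (fun i => J V (f.e i) y) (by positivity)
      (fun i => (inv_pos.2 (hμ i)).le) (fun i => inv_anti₀ hb (f.hμ i))
  · exact Finset.sum_mul_sq_le_sq_mul_sq _ _ _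

theorem up_aux {η : E d → ℝ} {R l : ℝ} (hl : 0 < l) (hη : η = et R l) {u gg s : E d → ℝ}
    {Cn b : ℝ} (hCn0 : 0 ≤ Cn) (hs0 : ∀ x, 0 ≤ s x)
    (hpt : ∀ᵐ y, |gg y * u y| ≤ b⁻¹ * Cn * s y ∧ (u y) ^ 2 ≤ Cn * s y)
    (hu : MemLp u 2 volume) (hg : MemLp gg 2 volume) (hs : Integrable s volume) :
    (∫ y, η y ^ 2 * (gg y * u y)) + ∫ y, (u y) ^ 2 * ‖gradient η y‖ ^ 2 ≤
      (∫ y, gg y * u y) + (b⁻¹ + (K0 / l) ^ 2) * Cn * ∫ y in out d R, s y := by
  have hηc : IsCut η (K0 / l) := hη ▸ et_cut hl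
  have hηb : ∀ x, ‖η x ^ 2‖ ≤ 1 := fun x => by
    rw [Real.norm_eq_abs, abs_pow]
    exact pow_le_one₀ (abs_nonneg _) (hηc.le_one x)
  have hηm : AEStronglyMeasurable (fun x => η x ^ 2) (volume : Measure (E d)) :=
    (hηc.smooth.continuous.pow 2).aestronglyMeasurable
  have hgi : Integrable (fun x => gg x * u x) volume := hg.integrable_mul hu
  have hsi : Integrable ((out d R).indicator s) volume := hs.indicator (meas_out R)
  have hηg : Integrable (fun x => η x ^ 2 * (gg x * u x)) volume :=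
    hgi.bdd_mul hηm (c := 1) (Eventually.of_forall hηb)
  have hgr : Integrable (fun x => (u x) ^ 2 * ‖gradient η x‖ ^ 2) volume := by
    have h1 := integrable_inner2 (memLp_smul_grad hηc hu) (memLp_smul_grad hηc hu)
    refine h1.congr (Eventually.of_forall fun y => ?_)
    simp only [real_inner_self_eq_norm_sq, norm_smul, Real.norm_eq_abs, mul_pow, sq_abs]
  rw [← integral_indicator (meas_out R), ← integral_const_mul,
    ← integral_add hgi (hsi.const_mul _), ← integral_add hηg hgr]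
  refine integral_mono_ae (hηg.add hgr) (hgi.add (hsi.const_mul _)) ?_
  filter_upwards [hpt] with y hy
  obtain ⟨h2, h3⟩ := hy
  show η y ^ 2 * (gg y * u y) + (u y) ^ 2 * ‖gradient η y‖ ^ 2 ≤
    gg y * u y + (b⁻¹ + (K0 / l) ^ 2) * Cn * (out d R).indicator s y
  have he1 : η y ^ 2 ≤ 1 := by
    have := hηb y
    rwa [Real.norm_eq_abs, abs_of_nonneg (sq_nonneg _)] at this
  by_cases hy : y ∈ out d R
  · rw [indicator_of_mem hy]
    exact pt1 h2 h3 (mul_nonneg hCn0 (hs0 y)) (sq_nonneg _)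
      (pow_le_pow_left₀ (norm_nonneg _) (hηc.grad y) 2) (sq_nonneg _) he1
  · rw [indicator_of_notMem hy]
    have h4 : Nf y ≤ R := not_lt.1 hy
    have h5 : η y = 1 := by
      rw [hη, et, zt_zero hl h4, sub_zero]
    rw [h5, hη, grad_et_zero hl h4]
    simp

theorem low_aux {η : E d → ℝ} {R l : ℝ} (hl : 0 < l) (hη : η = et R l) {u s : E d → ℝ}
    {Cn : ℝ} (hpt : ∀ᵐ y, (u y) ^ 2 ≤ Cn * s y)
    (hu : MemLp u 2 volume) (hs : Integrable s volume) :
    (∫ y, u y ^ 2) - Cn * ∫ y in out d R, s y ≤ ∫ y, η y ^ 2 * u y ^ 2 := by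
  have hηc : IsCut η (K0 / l) := hη ▸ et_cut hl
  have hηb : ∀ x, ‖η x ^ 2‖ ≤ 1 := fun x => by
    rw [Real.norm_eq_abs, abs_pow]
    exact pow_le_one₀ (abs_nonneg _) (hηc.le_one x)
  have hηm : AEStronglyMeasurable (fun x => η x ^ 2) (volume : Measure (E d)) :=
    (hηc.smooth.continuous.pow 2).aestronglyMeasurable
  have hui : Integrable (fun x => u x ^ 2) volume := hu.integrable_sq
  have hηu : Integrable (fun x => η x ^ 2 * (u x ^ 2)) volume :=
    hui.bdd_mul hηm (c := 1) (Eventually.of_forall hηb)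
  have hsi : Integrable ((out d R).indicator s) volume := hs.indicator (meas_out R)
  rw [← integral_indicator (meas_out R), ← integral_const_mul,
    ← integral_sub hui (hsi.const_mul _)]
  refine integral_mono_ae (hui.sub (hsi.const_mul _)) hηu ?_
  filter_upwards [hpt] with y h3
  show u y ^ 2 - Cn * (out d R).indicator s y ≤ η y ^ 2 * u y ^ 2
  by_cases hy : y ∈ out d R
  · rw [indicator_of_mem hy]
    exact pt2 h3 (sq_nonneg _) (sq_nonneg _)
  · rw [indicator_of_notMem hy]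
    have h5 : η y = 1 := by
      rw [hη, et, zt_zero hl (not_lt.1 hy), sub_zero]
    rw [h5]
    simp

theorem Fam.comp_up (f : Fam V k b) (hb : 0 < b) (hV : AEMeasurable V volume)
    {V' : E d → ℝ≥0∞} (hV' : AEMeasurable V' volume) {R l : ℝ} (hl : 0 < l)
    (hVV : ∀ x, et R l x ≠ 0 → V' x = V x) (c : Fin k → ℝ) :
    ‖cutX hV' (et_cut (R := R) hl) hVV (∑ i, c i • f.e i)‖ ^ 2 ≤
      (∑ i, c i ^ 2) + (b⁻¹ + (K0 / l) ^ 2) * (∑ i, c i ^ 2) * f.A R := by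
  rw [ims hV hV', f.inner_g hb, inner_J_cutX]
  have e1 : (∑ i, c i ^ 2) = ∫ y, f.g c y * J V (∑ i, c i • f.e i) y := by
    rw [← f.norm_sum c, ← real_inner_self_eq_norm_sq, f.inner_g hb, L2.inner_def]
    congr 1
    funext y
    simp only [RCLike.inner_apply, conj_trivial]
    ring
  have h := up_aux hl (η := et R l) rfl (Cn := ∑ i, c i ^ 2)
    (Finset.sum_nonneg fun _ _ => sq_nonneg _) f.s_nonneg (f.pt hb c)
    (Lp.memLp _) (Lp.memLp _) f.s_int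
  rw [← e1] at h
  exact h

theorem Fam.comp_low (f : Fam V k b) (hb : 0 < b) {V' : E d → ℝ≥0∞}
    (hV' : AEMeasurable V' volume) {R l : ℝ} (hl : 0 < l)
    (hVV : ∀ x, et R l x ≠ 0 → V' x = V x) (c : Fin k → ℝ) :
    (b - f.A R) * (∑ i, c i ^ 2) ≤
      ‖J V' (cutX hV' (et_cut (R := R) hl) hVV (∑ i, c i • f.e i))‖ ^ 2 := by
  rw [norm_J_cutX]
  have e1 : b * (∑ i, c i ^ 2) ≤ ∫ y, J V (∑ i, c i • f.e i) y ^ 2 := by
    have e2 : ∫ y, J V (∑ i, c i • f.e i) y ^ 2 = ‖J V (∑ i, c i • f.e i)‖ ^ 2 := by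
      rw [norm_Lp_sq]
      simp only [Real.norm_eq_abs, sq_abs]
    rw [e2, f.norm_J, Finset.mul_sum]
    refine Finset.sum_le_sum fun i _ => ?_
    have := f.hμ i
    gcongr
  have h := low_aux hl (η := et R l) rfl (Cn := ∑ i, c i ^ 2)
    ((f.pt hb c).mono fun y hy => hy.2) (Lp.memLp _) f.s_int
  have h2 : (∑ i, c i ^ 2) * ∫ y in out d R, f.s y = (∑ i, c i ^ 2) * f.A R := rfl
  rw [h2] at h
  linarith

theorem Fam.comp (f : Fam V k b) (hb : 0 < b) (hV : AEMeasurable V volume) {V' : E d → ℝ≥0∞}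
    (hV' : AEMeasurable V' volume) {R l : ℝ} (hl : 0 < l)
    (hVV : ∀ x, et R l x ≠ 0 → V' x = V x) {Λ' : ℝ} (hΛ' : 0 ≤ Λ') (hA : f.A R < b)
    (h : 1 + (b⁻¹ + (K0 / l) ^ 2) * f.A R ≤ (1 + Λ') * (b - f.A R)) :
    lam k V' ≤ ENNReal.ofReal Λ' := by
  refine lam_le_X hΛ' (fun i => cutX hV' (et_cut (R := R) hl) hVV (f.e i)) fun c hc => ?_
  rw [cut_lin]
  have h1 := f.comp_up hb hV hV' hl hVV c
  have h2 := f.comp_low hb hV' hl hVV c
  have hCn0 : 0 < ∑ i, c i ^ 2 := by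
    obtain ⟨j, hj⟩ := Function.ne_iff.1 hc
    have h1 : c j ^ 2 ≤ ∑ i, c i ^ 2 :=
      Finset.single_le_sum (fun i _ => sq_nonneg (c i)) (Finset.mem_univ j)
    have h2 : 0 < c j ^ 2 := by
      have : c j ≠ 0 := hj
      positivity
    linarith
  have h3 : 0 < (b - f.A R) * ∑ i, c i ^ 2 := mul_pos (by linarith) hCn0
  refine ⟨fun h4 => ?_, ?_⟩
  · rw [h4] at h2
    simp only [norm_zero] at h2
    norm_num at h2
    linarith
  · calc ‖cutX hV' (et_cut (R := R) hl) hVV (∑ i, c i • f.e i)‖ ^ 2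
        ≤ (∑ i, c i ^ 2) + (b⁻¹ + (K0 / l) ^ 2) * (∑ i, c i ^ 2) * f.A R := h1
      _ = (1 + (b⁻¹ + (K0 / l) ^ 2) * f.A R) * (∑ i, c i ^ 2) := by ring
      _ ≤ ((1 + Λ') * (b - f.A R)) * (∑ i, c i ^ 2) := by gcongr
      _ = (1 + Λ') * ((b - f.A R) * (∑ i, c i ^ 2)) := by ring
      _ ≤ _ := by gcongr

end comp

end Pool.Agent.W791.OP
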