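import Pool.Agent.W791.OP.W

set_option autoImplicit false
open MeasureTheory Set Filter Topology Metric
open scoped ENNReal NNReal ContDiff RealInnerProductSpace

namespace Pool.Agent.W791.OP

variable {d : ℕ}

theorem lint_scale {t : ℝ} (ht : 0 < t) (f : E d → ℝ≥0∞) :
    ∫⁻ x, f (t⁻¹ • x) = ENNReal.ofReal (t ^ d) * ∫⁻ x, f x := by
  have ht' : t⁻¹ ≠ 0 := (inv_pos.2 ht).ne'
  have h1 : ∫⁻ x, f (t⁻¹ • x) = ∫⁻ x, f x ∂(Measure.map (fun x : E d => t⁻¹ • x) volume) := by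
    have := MeasureTheory.lintegral_map_equiv (μ := (volume : Measure (E d))) f
      (Homeomorph.smulOfNeZero t⁻¹ ht').toMeasurableEquiv
    exact this.symm
  rw [h1, Measure.map_addHaar_smul volume ht', lintegral_smul_measure, smul_eq_mul]
  congr 1
  simp only [finrank_euclideanSpace, Fintype.card_fin, inv_pow, inv_inv]
  rw [abs_of_pos (by positivity)]

theorem int_scale {t : ℝ} (ht : 0 < t) (f : E d → ℝ) :
    ∫ x, f (t⁻¹ • x) = t ^ d * ∫ x, f x := by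
  rw [Measure.integral_comp_smul]
  simp only [finrank_euclideanSpace, Fintype.card_fin, inv_pow, inv_inv, smul_eq_mul]
  rw [abs_of_pos (by positivity)]

theorem qmp {t : ℝ} (ht : 0 < t) :
    Measure.QuasiMeasurePreserving (fun x : E d => t⁻¹ • x) volume volume := by
  have ht' : t⁻¹ ≠ 0 := (inv_pos.2 ht).ne'
  refine ⟨measurable_const_smul _, ?_⟩
  rw [Measure.map_addHaar_smul volume ht']
  exact Measure.smul_absolutelyContinuous

theorem memLp_scale {F : Type} [NormedAddCommGroup F] {t : ℝ} (ht : 0 < t) {f : E d → F}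
    (hf : MemLp f 2 volume) : MemLp (fun x => f (t⁻¹ • x)) 2 volume := by
  refine ⟨hf.1.comp_quasiMeasurePreserving (qmp ht), ?_⟩
  have h1 : eLpNorm (fun x => f (t⁻¹ • x)) 2 volume ^ 2 < ⊤ := by
    rw [eLpNorm_sq, lint_scale ht (fun x => ‖f x‖ₑ ^ 2), ← eLpNorm_sq]
    exact ENNReal.mul_lt_top ENNReal.ofReal_lt_top (ENNReal.pow_lt_top hf.2)
  by_contra hcon
  rw [not_lt, top_le_iff] at hcon
  rw [hcon] at h1
  simp at h1

theorem WG_scale {t : ℝ} (ht : 0 < t) {u : E d → ℝ} {G : E d → E d} (h : WG u G) :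
    WG (fun x => u (t⁻¹ • x)) (fun x => t⁻¹ • G (t⁻¹ • x)) := by
  intro φ hφ hc v
  have hsm : ContDiff ℝ ∞ (fun y : E d => t • y) := contDiff_const_smul t
  have h1 := h (fun y => φ (t • y)) (hφ.comp hsm)
    (hc.comp_homeomorph (Homeomorph.smulOfNeZero t ht.ne')) v
  have hfd : ∀ y, fderiv ℝ (fun y => φ (t • y)) y v = t * fderiv ℝ φ (t • y) v := by
    intro y
    have e1 : HasFDerivAt φ (fderiv ℝ φ (t • y)) (t • y) :=
      ((hφ.differentiable (by simp)) _).hasFDerivAt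
    have e2 : HasFDerivAt (fun y : E d => t • y) (t • ContinuousLinearMap.id ℝ (E d)) y :=
      (hasFDerivAt_id y).const_smul t
    have e3 : HasFDerivAt (fun y => φ (t • y))
      ((fderiv ℝ φ (t • y)).comp (t • ContinuousLinearMap.id ℝ (E d))) y := e1.comp y e2
    rw [e3.fderiv]
    simp
  simp only [hfd] at h1
  have e1 : ∫ x, u (t⁻¹ • x) * fderiv ℝ φ x v =
      t ^ d * ∫ y, u y * fderiv ℝ φ (t • y) v := by
    rw [← int_scale ht]
    congr 1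
    funext x
    rw [smul_inv_smul₀ ht.ne']
  have e2 : ∫ x, ⟪t⁻¹ • G (t⁻¹ • x), v⟫ * φ x = t ^ d * ∫ y, ⟪t⁻¹ • G y, v⟫ * φ (t • y) := by
    rw [← int_scale ht]
    congr 1
    funext x
    rw [smul_inv_smul₀ ht.ne']
  have e3 : ∫ y, u y * (t * fderiv ℝ φ (t • y) v) = t * ∫ y, u y * fderiv ℝ φ (t • y) v := by
    rw [← integral_const_mul]
    congr 1
    funext x
    ring
  have e4 : ∫ y, ⟪t⁻¹ • G y, v⟫ * φ (t • y) = t⁻¹ * ∫ y, ⟪G y, v⟫ * φ (t • y) := by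
    rw [← integral_const_mul]
    congr 1
    funext x
    rw [real_inner_smul_left]
    ring
  rw [e1, e2, e4]
  rw [e3] at h1
  have h2 : ∫ y, u y * fderiv ℝ φ (t • y) v = t⁻¹ * -∫ y, ⟪G y, v⟫ * φ (t • y) := by
    rw [← h1]
    field_simp
  rw [h2]
  ring

/-- the scaled potential -/
noncomputable def scl (t : ℝ) (V : E d → ℝ≥0∞) (x : E d) : ℝ≥0∞ :=
  (ENNReal.ofReal (t ^ 2))⁻¹ * V (t⁻¹ • x)

theorem aem_scl {t : ℝ} (ht : 0 < t) {V : E d → ℝ≥0∞} (hV : AEMeasurable V volume) :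
    AEMeasurable (scl t V) volume :=
  (hV.comp_quasiMeasurePreserving (qmp ht)).const_mul _

theorem lint_scl {t : ℝ} (ht : 0 < t) (V : E d → ℝ≥0∞) (u : E d → ℝ) :
    ∫⁻ x, scl t V x * ‖u (t⁻¹ • x)‖ₑ ^ 2 =
      (ENNReal.ofReal (t ^ 2))⁻¹ * (ENNReal.ofReal (t ^ d) * ∫⁻ x, V x * ‖u x‖ₑ ^ 2) := by
  have h0 : (ENNReal.ofReal (t ^ 2))⁻¹ ≠ ⊤ := by
    rw [ENNReal.inv_ne_top]
    exact (ENNReal.ofReal_pos.2 (by positivity)).ne'
  rw [← lint_scale ht (fun x => V x * ‖u x‖ₑ ^ 2), ← lintegral_const_mul' _ _ h0]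
  refine lintegral_congr fun x => ?_
  rw [scl, mul_assoc]

theorem lint_G_scl {t : ℝ} (ht : 0 < t) (G : E d → E d) :
    ∫⁻ x, ‖t⁻¹ • G (t⁻¹ • x)‖ₑ ^ 2 =
      (ENNReal.ofReal (t ^ 2))⁻¹ * (ENNReal.ofReal (t ^ d) * ∫⁻ x, ‖G x‖ₑ ^ 2) := by
  have h0 : (ENNReal.ofReal (t ^ 2))⁻¹ ≠ ⊤ := by
    rw [ENNReal.inv_ne_top]
    exact (ENNReal.ofReal_pos.2 (by positivity)).ne'
  rw [← lint_scale ht (fun x => ‖G x‖ₑ ^ 2), ← lintegral_const_mul' _ _ h0]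
  refine lintegral_congr fun x => ?_
  rw [enorm_smul, mul_pow]
  congr 1
  rw [Real.enorm_of_nonneg (by positivity), ← ENNReal.ofReal_pow (by positivity), inv_pow,
    ENNReal.ofReal_inv_of_pos (by positivity)]

theorem memH_scale {t : ℝ} (ht : 0 < t) {V : E d → ℝ≥0∞} {u : E d → ℝ} {G : E d → E d}
    (h : MemH V u G) :
    MemH (scl t V) (fun x => u (t⁻¹ • x)) (fun x => t⁻¹ • G (t⁻¹ • x)) := by
  have h0 : (ENNReal.ofReal (t ^ 2))⁻¹ < ⊤ := by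
    rw [ENNReal.inv_lt_top]
    exact ENNReal.ofReal_pos.2 (by positivity)
  refine ⟨memLp_scale ht h.1, (memLp_scale ht h.2.1).const_smul t⁻¹, WG_scale ht h.2.2.1, ?_⟩
  rw [lint_scl ht]
  exact ENNReal.mul_lt_top h0 (ENNReal.mul_lt_top ENNReal.ofReal_lt_top h.2.2.2)

theorem energy_scale {t : ℝ} (ht : 0 < t) (V : E d → ℝ≥0∞) (u : E d → ℝ) (G : E d → E d) :
    energy (scl t V) (fun x => u (t⁻¹ • x)) (fun x => t⁻¹ • G (t⁻¹ • x)) =
      (ENNReal.ofReal (t ^ 2))⁻¹ * (ENNReal.ofReal (t ^ d) * energy V u G) := by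
  unfold energy
  rw [lint_scl ht, lint_G_scl ht, mul_add, mul_add]

theorem lam_scale {t : ℝ} (ht : 0 < t) (k : ℕ) (V : E d → ℝ≥0∞) :
    lam k (scl t V) ≤ (ENNReal.ofReal (t ^ 2))⁻¹ * lam k V := by
  have ha0 : (ENNReal.ofReal (t ^ 2))⁻¹ ≠ 0 := by
    rw [ne_eq, ENNReal.inv_eq_zero]
    exact ENNReal.ofReal_ne_top
  have hat : (ENNReal.ofReal (t ^ 2))⁻¹ ≠ ⊤ := by
    rw [ENNReal.inv_ne_top]
    exact (ENNReal.ofReal_pos.2 (by positivity)).ne'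
  have hd0 : ENNReal.ofReal (t ^ d) ≠ 0 := (ENNReal.ofReal_pos.2 (by positivity)).ne'
  unfold lam
  rw [ENNReal.mul_iInf_of_ne ha0 hat]
  refine le_iInf fun u => ?_
  rw [ENNReal.mul_iInf_of_ne ha0 hat]
  refine le_iInf fun G => ?_
  rw [ENNReal.mul_iInf_of_ne ha0 hat]
  refine le_iInf fun hadm => ?_
  have hc1 : ∀ c, comb c (fun i x => u i (t⁻¹ • x)) = fun x => comb c u (t⁻¹ • x) := by
    intro c
    rfl
  have hc2 : ∀ c, comb c (fun i x => t⁻¹ • G i (t⁻¹ • x)) = fun x => t⁻¹ • comb c G (t⁻¹ • x) := by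
    intro c
    funext x
    unfold comb
    rw [Finset.smul_sum]
    refine Finset.sum_congr rfl fun i _ => ?_
    rw [smul_comm]
  have hadm' : Adm (scl t V) (fun i x => u i (t⁻¹ • x)) (fun i x => t⁻¹ • G i (t⁻¹ • x)) := by
    refine ⟨fun i => memH_scale ht (hadm.1 i), fun c hc h0 => hadm.2 c hc ?_⟩
    rw [hc1] at h0
    have h1 := (qmp (d := d) (t := t⁻¹) (inv_pos.2 ht)).ae h0
    filter_upwards [h1] with x hx
    rw [inv_inv, inv_smul_smul₀ ht.ne'] at hx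
    exact hx
  refine iInf₂_le_of_le _ _ (iInf_le_of_le hadm' (iSup₂_le fun c hc => ?_))
  have h2 : (ENNReal.ofReal (t ^ 2))⁻¹ * (energy V (comb c u) (comb c G) /
      ∫⁻ x, ‖comb c u x‖ₑ ^ 2) ≤ (ENNReal.ofReal (t ^ 2))⁻¹ *
      ⨆ (c : Fin k → ℝ) (_ : c ≠ 0), energy V (comb c u) (comb c G) /
      ∫⁻ x, ‖comb c u x‖ₑ ^ 2 := by
    gcongr
    exact le_iSup₂ (f := fun (c : Fin k → ℝ) (_ : c ≠ 0) =>
      energy V (comb c u) (comb c G) / ∫⁻ x, ‖comb c u x‖ₑ ^ 2) c hc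
  refine le_trans (le_of_eq ?_) h2
  rw [hc1, hc2, energy_scale ht, lint_scale ht (fun x => ‖comb c u x‖ₑ ^ 2), mul_div_assoc,
    ENNReal.mul_div_mul_left _ _ hd0 ENNReal.ofReal_ne_top]

end Pool.Agent.W791.OP
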