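import Pool.Agent.W791.OP.Y

set_option autoImplicit false
open MeasureTheory Set Filter Topology Metric
open scoped ENNReal NNReal ContDiff RealInnerProductSpace

namespace Pool.Agent.W791.OP

variable {d : ℕ}

theorem lam_pos (hd : 1 ≤ d) {V : E d → ℝ≥0∞} (hV : AEMeasurable V volume) {p : ℝ} (hp : 0 < p)
    (hp1 : p ≤ 1) (hM : ∫⁻ x, V x ^ (-p) ≤ 1) {k : ℕ} (hk : 1 ≤ k) : 0 < lam k V := by
  obtain ⟨C, hC0, hC⟩ : ∃ C : ℝ, 0 < C ∧ ∀ w : X V, ‖J V w‖ ^ 2 ≤
      C * (‖(w : K d).snd.fst‖ ^ 2 + ‖(w : K d).snd.snd‖ ^ 2) :=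
    ⟨64 * 2 ^ d * d + 2, by positivity, fun w => energy_lb hd hV hp hp1 hM w⟩
  by_contra hcon
  rw [not_lt, nonpos_iff_eq_zero] at hcon
  obtain ⟨x, hx⟩ := lam_X hV (k := k) (Λ := (2 * C)⁻¹) (by positivity) (by
    rw [hcon]
    exact ENNReal.ofReal_pos.2 (by positivity))
  have hc : (fun _ : Fin k => (1 : ℝ)) ≠ 0 := by
    intro h
    have := congrFun h ⟨0, hk⟩
    simp at this
  have h0 := hx _ hc
  generalize (∑ i, (fun _ : Fin k => (1 : ℝ)) i • x i) = w at h0
  obtain ⟨h1, h2⟩ := h0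
  have h3 := hC w
  rw [norm_sq_X] at h2
  have h4 : 0 < ‖J V w‖ ^ 2 := by positivity
  generalize ‖(w : K d).snd.fst‖ ^ 2 + ‖(w : K d).snd.snd‖ ^ 2 = e at h2 h3
  generalize ‖J V w‖ ^ 2 = q at h2 h3 h4
  have h5 : e ≤ (2 * C)⁻¹ * q := by linarith
  have h6 : C * e ≤ C * ((2 * C)⁻¹ * q) := by gcongr
  have h7 : C * ((2 * C)⁻¹ * q) = q / 2 := by
    field_simp
  linarith

/-- lam is finite as soon as there is a linearly independent family -/
theorem lam_fin {V : E d → ℝ≥0∞} {k : ℕ} (x : Fin k → X V)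
    (h : ∀ c : Fin k → ℝ, c ≠ 0 → J V (∑ i, c i • x i) ≠ 0) : lam k V < ⊤ := by
  let Φ : (Fin k → ℝ) →ₗ[ℝ] Lp ℝ 2 (volume : Measure (E d)) :=
    { toFun := fun c => ∑ i, c i • J V (x i)
      map_add' := fun c c' => by
        simp only [Pi.add_apply, add_smul, Finset.sum_add_distrib]
      map_smul' := fun a c => by
        simp only [Pi.smul_apply, smul_eq_mul, RingHom.id_apply, ← smul_smul, ← Finset.smul_sum] }
  have hker : LinearMap.ker Φ = ⊥ := by
    rw [LinearMap.ker_eq_bot']
    intro c hc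
    by_contra h0
    refine h c h0 ?_
    rw [J_sum]
    exact hc
  obtain ⟨C, hC, hC2⟩ := Φ.exists_antilipschitzWith hker
  set D : ℝ := ∑ i, ‖x i‖ with hD
  have hD0 : 0 ≤ D := Finset.sum_nonneg fun _ _ => norm_nonneg _
  refine lt_of_le_of_lt (lam_le_X (Λ := (D * C) ^ 2) (by positivity) x fun c hc => ⟨h c hc, ?_⟩)
    ENNReal.ofReal_lt_top
  have h1 : ‖c‖ ≤ C * ‖J V (∑ i, c i • x i)‖ := by
    have h2 := hC2.le_mul_dist c 0
    rw [map_zero, dist_zero_right, dist_zero_right] at h2
    have h3 : Φ c = J V (∑ i, c i • x i) := by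
      rw [J_sum]
      rfl
    rwa [h3] at h2
  have h2 : ‖∑ i, c i • x i‖ ≤ ‖c‖ * D := by
    refine (norm_sum_le _ _).trans ?_
    rw [hD, Finset.mul_sum]
    refine Finset.sum_le_sum fun i _ => ?_
    have e1 : ‖c i • x i‖ = ‖c i‖ * ‖x i‖ := by
      with_reducible_and_instances exact norm_smul (c i) (x i)
    rw [e1]
    gcongr
    exact norm_le_pi_norm c i
  have h3 : ‖∑ i, c i • x i‖ ≤ (D * C) * ‖J V (∑ i, c i • x i)‖ := by
    calc _ ≤ ‖c‖ * D := h2
      _ ≤ (C * ‖J V (∑ i, c i • x i)‖) * D := by gcongr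
      _ = _ := by ring
  calc ‖∑ i, c i • x i‖ ^ 2 ≤ ((D * C) * ‖J V (∑ i, c i • x i)‖) ^ 2 := by gcongr
    _ = (D * C) ^ 2 * ‖J V (∑ i, c i • x i)‖ ^ 2 := by ring
    _ ≤ _ := by
        gcongr
        linarith

theorem WG_smooth {u : E d → ℝ} (hu : ContDiff ℝ ∞ u) (hc : HasCompactSupport u) :
    WG u (gradient u) := by
  intro φ hφ hφc v
  have hud : Differentiable ℝ u := hu.differentiable (by simp)
  have hφd : Differentiable ℝ φ := hφ.differentiable (by simp)
  have h := integral_mul_fderiv_eq_neg_fderiv_mul_of_integrable (μ := (volume : Measure (E d)))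
    (f := u) (g := φ) (v := v) ?_ ?_ ?_ (fun x _ => hud x) (fun x _ => hφd x)
  · rw [h]
    congr 1
    congr 1
    funext x
    rw [inner_gradient_left]
  · exact ((fderiv_tst hu v).continuous.mul hφ.continuous).integrable_of_hasCompactSupport
      (hφc.mul_left)
  · exact (hu.continuous.mul (fderiv_tst hφ v).continuous).integrable_of_hasCompactSupport
      (hc.mul_right)
  · exact (hu.continuous.mul hφ.continuous).integrable_of_hasCompactSupport (hc.mul_right)

theorem grad_supp {u : E d → ℝ} (hc : HasCompactSupport u) : HasCompactSupport (gradient u) := by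
  have h1 : HasCompactSupport (fderiv ℝ u) := hc.fderiv (𝕜 := ℝ)
  have h2 := h1.comp_left (g := (InnerProductSpace.toDual ℝ (E d)).symm) (map_zero _)
  exact h2

theorem exists_competitor (hd : 1 ≤ d) {p : ℝ} (hp : 0 < p) (k : ℕ) :
    ∃ W : E d → ℝ≥0∞, AEMeasurable W volume ∧ ∫⁻ x, W x ^ (-p) ≤ 1 ∧ lam k W < ⊤ := by
  set ρ : ℝ := 4 * k + 1 with hρ
  have hρ0 : 0 < ρ := by positivity
  set vol : ℝ≥0∞ := volume (ball (0 : E d) ρ) with hvol
  have hv0 : vol ≠ 0 := (measure_ball_pos _ _ hρ0).ne'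
  have hvt : vol ≠ ⊤ := measure_ball_lt_top.ne
  set W : E d → ℝ≥0∞ := fun x => if dist x 0 < ρ then vol ^ (1 / p) else ⊤ with hW
  have hWm : Measurable W := Measurable.ite measurableSet_ball measurable_const measurable_const
  refine ⟨W, hWm.aemeasurable, ?_, ?_⟩
  · have h1 : ∀ x, W x ^ (-p) = (ball (0 : E d) ρ).indicator (fun _ => vol⁻¹) x := by
      intro x
      by_cases hx : x ∈ ball (0 : E d) ρ
      · rw [indicator_of_mem hx]
        simp only [hW, if_pos (mem_ball.1 hx)]
        rw [← ENNReal.rpow_mul, ← ENNReal.rpow_neg_one]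
        congr 1
        field_simp
      · rw [indicator_of_notMem hx]
        rw [mem_ball] at hx
        simp only [hW, if_neg hx]
        exact ENNReal.top_rpow_of_neg (by linarith)
    simp only [h1]
    rw [lintegral_indicator measurableSet_ball, lintegral_const, Measure.restrict_apply_univ,
      ← hvol, ENNReal.inv_mul_cancel hv0 hvt]
  · set e0 : E d := EuclideanSpace.single ⟨0, hd⟩ 1 with he0
    have he0n : ‖e0‖ = 1 := by simp [he0]
    set z : Fin k → E d := fun i => (4 * (i : ℕ) : ℝ) • e0 with hz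
    have hbump : ∀ i, ∃ u : E d → ℝ, ContDiff ℝ ∞ u ∧ HasCompactSupport u ∧ u (z i) = 1 ∧
        ∀ x, 1 ≤ dist x (z i) → u x = 0 := by
      intro i
      let f : ContDiffBump (z i) := ⟨1 / 2, 1, by norm_num, by norm_num⟩
      refine ⟨f, f.contDiff, f.hasCompactSupport, ?_, fun x hx => ?_⟩
      · exact f.one_of_mem_closedBall (by simp [f.rIn_pos.le])
      · exact f.zero_of_le_dist hx
    choose u hu1 hu2 hu3 hu4 using hbump
    have hmem : ∀ i, MemH W (u i) (gradient (u i)) := by
      intro i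
      have hm : MemLp (u i) 2 volume := tst_memLp (hu1 i).continuous (hu2 i) 2
      refine ⟨hm, (gradient_cont (hu1 i)).memLp_of_hasCompactSupport (grad_supp (hu2 i)),
        WG_smooth (hu1 i) (hu2 i), ?_⟩
      have h1 : ∀ x, W x * ‖u i x‖ₑ ^ 2 ≤ vol ^ (1 / p) * ‖u i x‖ₑ ^ 2 := by
        intro x
        by_cases hx : x ∈ ball (0 : E d) ρ
        · simp only [hW, if_pos (mem_ball.1 hx)]
          exact le_rfl
        · have h2 : u i x = 0 := by
            apply hu4
            rw [mem_ball, dist_zero_right, not_lt] at hx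
            have h3 : ‖z i‖ ≤ 4 * k := by
              rw [hz]
              simp only [norm_smul, he0n, mul_one, Real.norm_eq_abs]
              rw [abs_of_nonneg (by positivity)]
              have : ((i : ℕ) : ℝ) ≤ k := by exact_mod_cast i.2.le
              linarith
            rw [dist_eq_norm]
            have := norm_sub_norm_le x (z i)
            linarith
          rw [h2]
          simp
      calc ∫⁻ x, W x * ‖u i x‖ₑ ^ 2 ≤ ∫⁻ x, vol ^ (1 / p) * ‖u i x‖ₑ ^ 2 := lintegral_mono h1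
        _ = vol ^ (1 / p) * ∫⁻ x, ‖u i x‖ₑ ^ 2 :=
            lintegral_const_mul' _ _ (ENNReal.rpow_ne_top_of_nonneg (by positivity) hvt)
        _ < ⊤ := by
            refine ENNReal.mul_lt_top (ENNReal.rpow_ne_top_of_nonneg (by positivity) hvt).lt_top ?_
            rw [← eLpNorm_sq]
            exact ENNReal.pow_lt_top hm.2
    refine lam_fin (fun i => mk hWm.aemeasurable (hmem i)) fun c hc h0 => hc ?_
    have h1 : comb c u =ᵐ[volume] fun _ => (0 : ℝ) := by
      rw [J_sum] at h0
      have h2 := coeFn_comb c (fun i => J W (mk hWm.aemeasurable (hmem i)))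
      rw [h0] at h2
      have h3 : comb c u =ᵐ[volume] comb c (fun i => ⇑(J W (mk hWm.aemeasurable (hmem i)))) := by
        refine comb_congr c fun i => ?_
        rw [J_mk]
        exact (MemLp.coeFn_toLp _).symm
      exact (h3.trans h2.symm).trans (Lp.coeFn_zero _ _ _)
    have hcont : Continuous (comb c u) := by
      unfold comb
      exact continuous_finsetSum _ fun i _ => (hu1 i).continuous.const_smul (c i)
    have h2 : comb c u = fun _ => (0 : ℝ) :=
      (Continuous.ae_eq_iff_eq volume hcont continuous_const).1 h1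
    funext j
    have h3 := congrFun h2 (z j)
    unfold comb at h3
    rw [Finset.sum_eq_single j] at h3
    · rw [hu3] at h3
      simpa using h3
    · intro i _ hij
      rw [hu4 i, smul_zero]
      rw [hz, dist_eq_norm]
      simp only [← sub_smul, norm_smul, he0n, mul_one, Real.norm_eq_abs]
      have h5 : ((j : ℕ) : ℤ) - ((i : ℕ) : ℤ) ≠ 0 := by
        intro h
        apply hij
        apply Fin.ext
        omega
      have h6 : (1 : ℤ) ≤ |((j : ℕ) : ℤ) - ((i : ℕ) : ℤ)| := Int.one_le_abs h5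
      have h7 : (1 : ℝ) ≤ |((j : ℕ) : ℝ) - ((i : ℕ) : ℝ)| := by exact_mod_cast h6
      rw [← mul_sub, abs_mul]
      norm_num
      linarith
    · intro h
      exact absurd (Finset.mem_univ j) h

end Pool.Agent.W791.OP
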