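import Pool.Agent.W791.OP.Z

set_option autoImplicit false
open MeasureTheory Set Filter Topology Metric
open scoped ENNReal NNReal ContDiff RealInnerProductSpace

namespace Pool.Agent.W791.OP

variable {d : ℕ}

/-- mass of the potential in the outer region -/
noncomputable def Mo (V : E d → ℝ≥0∞) (p R : ℝ) : ℝ := (∫⁻ x in out d R, V x ^ (-p)).toReal

theorem Mo_nonneg (V : E d → ℝ≥0∞) (p R : ℝ) : 0 ≤ Mo V p R := ENNReal.toReal_nonneg

theorem Mo_fin {V : E d → ℝ≥0∞} {p : ℝ} (hM : ∫⁻ x, V x ^ (-p) ≤ 1) (R : ℝ) :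
    ∫⁻ x in out d R, V x ^ (-p) = ENNReal.ofReal (Mo V p R) := by
  rw [Mo, ENNReal.ofReal_toReal]
  exact ((setLIntegral_le_lintegral _ _).trans hM).trans_lt ENNReal.one_lt_top |>.ne

theorem Mo_le_one {V : E d → ℝ≥0∞} {p : ℝ} (hM : ∫⁻ x, V x ^ (-p) ≤ 1) (R : ℝ) :
    Mo V p R ≤ 1 := by
  have h := (setLIntegral_le_lintegral (out d R) (fun x => V x ^ (-p))).trans hM
  rw [Mo_fin hM, ← ENNReal.ofReal_one] at h
  exact (ENNReal.ofReal_le_ofReal_iff (by norm_num)).1 h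

/-- truncated potential -/
noncomputable def trn (V : E d → ℝ≥0∞) (r : ℝ) (x : E d) : ℝ≥0∞ := if Nf x < r then V x else ⊤

theorem aem_trn {V : E d → ℝ≥0∞} (hV : AEMeasurable V volume) (r : ℝ) :
    AEMeasurable (trn V r) volume := by
  refine ⟨trn (hV.mk V) r, ?_, ?_⟩
  · exact Measurable.ite (measurableSet_lt Nf_smooth.continuous.measurable measurable_const)
      hV.measurable_mk measurable_const
  · filter_upwards [hV.ae_eq_mk] with x hx
    unfold trn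
    rw [hx]

theorem trn_mass {V : E d → ℝ≥0∞} (hV : AEMeasurable V volume) {p : ℝ} (hp : 0 < p)
    (hM : ∫⁻ x, V x ^ (-p) ≤ 1) (r : ℝ) :
    ∫⁻ x, trn V r x ^ (-p) ≤ ENNReal.ofReal (1 - Mo V p r) := by
  have hSm : MeasurableSet {x : E d | Nf x < r} :=
    measurableSet_lt Nf_smooth.continuous.measurable measurable_const
  have h1 : ∀ x, trn V r x ^ (-p) = {x : E d | Nf x < r}.indicator (fun x => V x ^ (-p)) x := by
    intro x
    unfold trn
    by_cases hx : Nf x < r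
    · rw [if_pos hx, indicator_of_mem (show x ∈ {x : E d | Nf x < r} from hx)]
    · rw [if_neg hx, indicator_of_notMem (show x ∉ {x : E d | Nf x < r} from hx)]
      exact ENNReal.top_rpow_of_neg (by linarith)
  simp only [h1]
  rw [lintegral_indicator hSm]
  have hdisj : Disjoint {x : E d | Nf x < r} (out d r) := by
    rw [Set.disjoint_left]
    intro x hx hx'
    exact lt_asymm (show Nf x < r from hx) (show r < Nf x from hx')
  have h2 : (∫⁻ x in {x : E d | Nf x < r}, V x ^ (-p)) + ∫⁻ x in out d r, V x ^ (-p) ≤ 1 := by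
    rw [← lintegral_union (meas_out r) hdisj]
    exact (setLIntegral_le_lintegral _ _).trans hM
  rw [Mo_fin hM] at h2
  rw [ENNReal.ofReal_sub _ (Mo_nonneg _ _ _), ENNReal.ofReal_one]
  exact ENNReal.le_sub_of_add_le_right ENNReal.ofReal_ne_top h2

theorem scl_mass {V : E d → ℝ≥0∞} {p : ℝ} (hp : 0 < p) (hp1 : p ≤ 1) {t : ℝ} (ht : 1 ≤ t) {m : ℝ}
    (hm : 0 ≤ m) (hM : ∫⁻ x, V x ^ (-p) ≤ ENNReal.ofReal m) :
    ∫⁻ x, scl t V x ^ (-p) ≤ ENNReal.ofReal (t ^ (d + 2) * m) := by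
  have ht0 : 0 < t := by linarith
  have ha : 1 ≤ ENNReal.ofReal (t ^ 2) := by
    rw [← ENNReal.ofReal_one]
    exact ENNReal.ofReal_le_ofReal (one_le_pow₀ ht)
  have ha0 : (ENNReal.ofReal (t ^ 2))⁻¹ ≠ ⊤ := by
    rw [ENNReal.inv_ne_top]
    exact (zero_lt_one.trans_le ha).ne'
  have ha1 : (ENNReal.ofReal (t ^ 2))⁻¹ ≠ 0 := by
    rw [ne_eq, ENNReal.inv_eq_zero]
    exact ENNReal.ofReal_ne_top
  have h1 : ∀ x, scl t V x ^ (-p) ≤ ENNReal.ofReal (t ^ 2) * V (t⁻¹ • x) ^ (-p) := by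
    intro x
    unfold scl
    have e1 : ((ENNReal.ofReal (t ^ 2))⁻¹ * V (t⁻¹ • x)) ^ (-p) =
        ((ENNReal.ofReal (t ^ 2))⁻¹ ^ p)⁻¹ * V (t⁻¹ • x) ^ (-p) := by
      rw [ENNReal.rpow_neg, ENNReal.rpow_neg, ENNReal.mul_rpow_of_nonneg _ _ hp.le,
        ENNReal.mul_inv]
      · left
        exact (ENNReal.rpow_pos (pos_iff_ne_zero.2 ha1) ha0).ne'
      · left
        exact ENNReal.rpow_ne_top_of_nonneg hp.le ha0
    rw [e1]
    gcongr
    rw [ENNReal.inv_rpow, inv_inv]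
    calc ENNReal.ofReal (t ^ 2) ^ p ≤ ENNReal.ofReal (t ^ 2) ^ (1 : ℝ) :=
          ENNReal.rpow_le_rpow_of_exponent_le ha hp1
      _ = _ := ENNReal.rpow_one _
  calc ∫⁻ x, scl t V x ^ (-p) ≤ ∫⁻ x, ENNReal.ofReal (t ^ 2) * V (t⁻¹ • x) ^ (-p) :=
        lintegral_mono h1
    _ = ENNReal.ofReal (t ^ 2) * (ENNReal.ofReal (t ^ d) * ∫⁻ x, V x ^ (-p)) := by
        rw [lintegral_const_mul' _ _ ENNReal.ofReal_ne_top,
          lint_scale ht0 (fun x => V x ^ (-p))]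
    _ ≤ ENNReal.ofReal (t ^ 2) * (ENNReal.ofReal (t ^ d) * ENNReal.ofReal m) := by gcongr
    _ = _ := by
        rw [← ENNReal.ofReal_mul (by positivity), ← ENNReal.ofReal_mul (by positivity)]
        congr 1
        ring

theorem bern (n : ℕ) (hn : 1 ≤ n) {m : ℝ} (hm : 0 ≤ m) (hm1 : m ≤ 1) :
    (1 + m / n) ^ n * (1 - m) ≤ 1 := by
  have hn0 : (0 : ℝ) < n := by exact_mod_cast hn
  have hn1 : (1 : ℝ) ≤ n := by exact_mod_cast hn
  have h1 : m / n ≤ 1 := by
    rw [div_le_one hn0]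
    linarith
  have h0 : 0 ≤ m / n := by positivity
  have h2 : 1 - m ≤ (1 - m / n) ^ n := by
    have := one_add_mul_le_pow (a := -(m / n)) (by linarith) n
    have e1 : (n : ℝ) * -(m / n) = -m := by field_simp
    rw [e1] at this
    calc 1 - m = 1 + -m := by ring
      _ ≤ _ := this
      _ = _ := by ring
  calc (1 + m / n) ^ n * (1 - m) ≤ (1 + m / n) ^ n * (1 - m / n) ^ n := by gcongr
    _ = ((1 + m / n) * (1 - m / n)) ^ n := by rw [mul_pow]
    _ ≤ 1 ^ n := by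
        refine pow_le_pow_left₀ (mul_nonneg (by linarith) (by linarith)) ?_ n
        nlinarith
    _ = 1 := one_pow n

/-- the first inequality: the mass outside is controlled by the eigenfunctions outside -/
theorem step1 {V : E d → ℝ≥0∞} (hV : AEMeasurable V volume) {p : ℝ} (hp : 0 < p)
    (hp1 : p ≤ 1) (hM : ∫⁻ x, V x ^ (-p) ≤ 1) {k : ℕ}
    (hopt : ∀ W : E d → ℝ≥0∞, AEMeasurable W volume → ∫⁻ x, W x ^ (-p) ≤ 1 → lam k V ≤ lam k W)
    {Λ : ℝ} (hΛ : 0 < Λ) (hlam : lam k V = ENNReal.ofReal Λ) {b : ℝ} (hb : b = (1 + Λ)⁻¹)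
    (f : Fam V k b) {R l : ℝ} (hl : 0 < l) (hA : f.A R ≤ b / 2) :
    2 * Λ / (d + 2) * Mo V p (R + l) ≤
      (2 * (b⁻¹ + (K0 / l) ^ 2) / b + 2 / b ^ 2) * f.A R := by
  have hb0 : 0 < b := by rw [hb]; positivity
  have hbΛ : b⁻¹ = 1 + Λ := by rw [hb, inv_inv]
  set A := f.A R with hAdef
  have hA0 : 0 ≤ A := f.A_nonneg R
  set K1 := b⁻¹ + (K0 / l) ^ 2 with hK1
  have hK10 : 0 ≤ K1 := by positivity
  set C1 := 2 * K1 / b + 2 / b ^ 2 with hC1
  have hC10 : 0 ≤ C1 := by positivity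
  set m := Mo V p (R + l) with hm
  have hm0 : 0 ≤ m := Mo_nonneg _ _ _
  have hm1 : m ≤ 1 := Mo_le_one hM _
  have hcomp : lam k (trn V (R + l)) ≤ ENNReal.ofReal (Λ + C1 * A) := by
    refine f.comp hb0 hV (aem_trn hV _) (R := R) hl (fun x hx => ?_) (by positivity) ?_ ?_
    · unfold trn
      rw [if_pos (et_ne_zero hl hx)]
    · linarith
    · have e1 : 1 + (Λ + C1 * A) = b⁻¹ + C1 * A := by rw [hbΛ]; ring
      rw [e1]
      have h1 : (b⁻¹ + C1 * A) * (b - A) = 1 - A / b + C1 * A * (b - A) := by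
        field_simp
      have h2 : C1 * A * (b / 2) ≤ C1 * A * (b - A) := by
        gcongr
        linarith
      have h3 : C1 * A * (b / 2) = K1 * A + A / b := by
        rw [hC1]
        field_simp
      rw [h1]
      linarith
  have hn : (((d + 2 : ℕ) : ℝ)) = d + 2 := by push_cast; ring
  set t : ℝ := 1 + m / (d + 2) with ht
  have ht1 : 1 ≤ t := by
    have : 0 ≤ m / ((d : ℝ) + 2) := by positivity
    linarith
  have ht0 : 0 < t := by linarith
  have hmass : ∫⁻ x, scl t (trn V (R + l)) x ^ (-p) ≤ 1 := by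
    refine (scl_mass hp hp1 ht1 (by linarith : 0 ≤ 1 - m) (trn_mass hV hp hM (R + l))).trans ?_
    rw [← ENNReal.ofReal_one]
    apply ENNReal.ofReal_le_ofReal
    have := bern (d + 2) (by omega) hm0 hm1
    rw [hn] at this
    exact this
  have h1 := (hopt _ (aem_scl ht0 (aem_trn hV _)) hmass).trans
    ((lam_scale ht0 k (trn V (R + l))).trans (mul_le_mul_right hcomp _))
  rw [hlam, ← ENNReal.ofReal_inv_of_pos (by positivity), ← ENNReal.ofReal_mul (by positivity),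
    ENNReal.ofReal_le_ofReal_iff (by positivity)] at h1
  have h2 : Λ * t ^ 2 ≤ Λ + C1 * A := by
    rw [inv_mul_eq_div, le_div_iff₀ (by positivity)] at h1
    exact h1
  have h3 : 1 + 2 * (m / (d + 2)) ≤ t ^ 2 := by
    rw [ht]
    nlinarith [sq_nonneg (m / ((d : ℝ) + 2))]
  have h4 : Λ * (1 + 2 * (m / (d + 2))) ≤ Λ + C1 * A := by
    refine le_trans ?_ h2
    gcongr
  have h5 : 2 * Λ / (d + 2) * m = Λ * (2 * (m / (d + 2))) := by ring
  rw [h5]
  linarith

end Pool.Agent.W791.OP
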